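import Mathlib

/-!
The algebraic part of the certificate: data, the quadratic form, and the pointwise lower bound.
Index order: cells of `a = (1,0)`, of its reflection, of `c = (1,1)`, of `b = (2,0)`, of its
reflection, and the constant `1` in the last place.
-/

namespace Pool.Agent.Lib.MP_834949_an

open Finset

/-- Certificate data. -/
structure Cert where
  h : ℕ
  p : ℕ
  q : ℕ
  sc : ℕ
  tau : List ℕ
  eta : List ℕ
  ys : ℕ → ℕ
  cols : ℕ → ℕ

/-- List lookup. -/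
noncomputable def nth (l : List ℕ) : ℕ → ℕ :=
  List.rec (fun _ => 0) (fun a _ ih k => Nat.rec a (fun k' _ => ih k') k) l

/-- Digit in base `2^32`. -/
def d2 (X j : ℕ) : ℕ := Nat.land (Nat.shiftRight X (Nat.mul 32 j)) 4294967295

/-- Digit in base `2^64`. -/
def dg (X j : ℕ) : ℕ := Nat.land (Nat.shiftRight X (Nat.mul 64 j)) 18446744073709551615

/-- Object of an index. -/
def ob (h α : ℕ) : ℕ :=
  cond (Nat.ble α (Nat.add (Nat.mul 8 h) 2))
    (cond (Nat.ble α (Nat.mul 2 h)) 0 (cond (Nat.ble α (Nat.add (Nat.mul 4 h) 1)) 1 2))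
    (cond (Nat.ble α (Nat.add (Nat.mul 12 h) 3)) 3
      (cond (Nat.ble α (Nat.add (Nat.mul 16 h) 4)) 4 5))

/-- Index of the central cell of an object. -/
def ctr (h u : ℕ) : ℕ :=
  cond (Nat.ble u 2)
    (cond (Nat.ble u 0) h (cond (Nat.ble u 1) (Nat.add (Nat.mul 3 h) 1) (Nat.add (Nat.mul 6 h) 2)))
    (cond (Nat.ble u 3) (Nat.add (Nat.mul 10 h) 3)
      (cond (Nat.ble u 4) (Nat.add (Nat.mul 14 h) 4) (Nat.add (Nat.mul 16 h) 5)))

/-- Number of plus signs of an object. -/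
def PP (u : ℕ) : ℕ := [1, 0, 1, 2, 0, 0].getD u 0

/-- Number of minus signs of an object. -/
def QQ (u : ℕ) : ℕ := [0, 1, 1, 0, 2, 0].getD u 0

/-- Cell of an index. -/
def cell (h α : ℕ) : ℤ := (α : ℤ) - ctr h (ob h α)

namespace Cert

variable (C : Cert)

def z : ℕ := Nat.add (Nat.mul 16 C.h) 5
def D0 : ℕ := Nat.add (Nat.mul 8 C.h) 3

noncomputable def tI (u w k : ℕ) : ℤ := (d2 (nth C.tau (Nat.add (Nat.mul 6 u) w)) k : ℤ) - 2147483648

noncomputable def τ (u w : ℕ) (n : ℤ) : ℤ :=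
  if u < w then C.tI u w (4 * C.h - n).toNat
  else if u = w then C.tI u u (4 * C.h + |n|).toNat else C.tI w u (4 * C.h + n).toNat

noncomputable def eI (w α : ℕ) : ℤ := (d2 (nth C.eta w) α : ℤ) - 2147483648

noncomputable def η (w α : ℕ) : ℤ :=
  if w < 5 then C.eI w α else -(C.eI 0 α + C.eI 1 α + C.eI 2 α + C.eI 3 α + C.eI 4 α)

noncomputable def g (α β : ℕ) : ℤ :=
  C.τ (ob C.h α) (ob C.h β) (cell C.h α - cell C.h β) + C.η (ob C.h β) α

noncomputable def L (α k : ℕ) : ℤ :=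
  if k ≤ α then (dg (C.cols k) (α - k) : ℤ) - 2147483648 else 0

noncomputable def S (α β : ℕ) : ℤ := ∑ k ∈ range (C.z + 1), C.L α k * C.L β k

noncomputable def e2 (α β : ℕ) : ℤ := C.sc * (C.g α β + C.g β α) - 2 * C.S α β

noncomputable def yd (α β : ℕ) : ℕ :=
  cond (Nat.ble C.D0 α) (d2 (C.ys (Nat.sub α C.D0)) (Nat.sub β (Nat.succ α))) 2147483648

noncomputable def yv (α β : ℕ) : ℤ := (C.yd α β : ℤ) - 2147483648

noncomputable def acc (α : ℕ) : ℤ :=
  min (C.e2 α α) 0 + 2 * ∑ β ∈ Ioo α C.z, (min (C.e2 α β - C.sc * C.yv α β) 0 + C.sc * max (C.yv α β) 0)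
    + 2 * C.sc * ∑ γ ∈ range α, C.yv γ α

noncomputable def cst : ℤ :=
  (C.q : ℤ) ^ 2 * C.e2 C.z C.z -
    2 * (C.p : ℤ) ^ 2 * C.sc * ∑ α ∈ range C.z, ∑ β ∈ Ioo α C.z, max (C.yv α β) 0

/-- The conditions on the data. -/
structure Good : Prop where
  hq : 0 < C.q
  r1 : ∀ α β, α ≤ β → β < C.D0 → 0 ≤ C.e2 α β
  r2 : ∀ α, α < C.z → 0 ≤ 2 * C.q * C.e2 α C.z + C.p * C.acc α
  cs : 0 < C.cst
  cl : ∀ P Q : ℕ, P < 5 → Q < 5 → ∀ n : ℤ, |n| ≤ 4 * C.h →
    ∑ u ∈ range 6, ∑ w ∈ range 6, (if PP u + QQ w = P ∧ QQ u + PP w = Q then C.τ u w n else 0) = 0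

lemma e2_symm (α β : ℕ) : C.e2 α β = C.e2 β α := by
  unfold e2 S
  rw [add_comm (C.g α β)]
  simp_rw [mul_comm (C.L α _)]

lemma yv_of_lt {α β : ℕ} (h : α < C.D0) : C.yv α β = 0 := by
  have : Nat.ble C.D0 α = false := by
    rw [Bool.eq_false_iff]; intro h2; have := Nat.le_of_ble_eq_true h2; omega
  simp [yv, yd, this]

end Cert

lemma sum_symm (f : ℕ → ℕ → ℝ) (hf : ∀ a b, f a b = f b a) (n : ℕ) :
    ∑ a ∈ range n, ∑ b ∈ range n, f a b = ∑ b ∈ range n, (f b b + 2 * ∑ a ∈ range b, f a b) := by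
  induction n with
  | zero => simp
  | succ n ih =>
    rw [sum_range_succ, sum_range_succ _ n, sum_range_succ _ n, ← ih]
    simp_rw [sum_range_succ _ n]
    rw [sum_add_distrib, sum_congr rfl fun b _ => hf n b]
    ring

lemma sum_tri (f : ℕ → ℕ → ℝ) (n : ℕ) :
    ∑ b ∈ range n, ∑ a ∈ range b, f a b = ∑ a ∈ range n, ∑ b ∈ Ioo a n, f a b := by
  refine sum_comm' fun a b => ?_
  simp only [mem_range, mem_Ioo]
  omega

lemma mc_diag {e m v : ℝ} (hv : 0 ≤ v) (h : 0 ≤ e ∨ v ≤ m) :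
    m * min e 0 * v ≤ e * v * v := by
  rcases le_total 0 e with he | he
  · rw [min_eq_right he]; have := mul_nonneg (mul_nonneg he hv) hv; linarith
  · rw [min_eq_left he]
    rcases h with h | h
    · have : e = 0 := le_antisymm he h
      simp [this]
    · nlinarith [mul_nonneg (mul_nonneg (neg_nonneg.2 he) hv) (sub_nonneg.2 h)]

lemma mc_off {e y m v w : ℝ} (hv : 0 ≤ v) (hw : 0 ≤ w) (h : 0 ≤ e - y ∨ w ≤ m)
    (hy : y = 0 ∨ (v ≤ m ∧ w ≤ m)) :
    m * (min (e - y) 0 + max y 0) * v + m * y * w - m ^ 2 * max y 0 ≤ e * v * w := by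
  have h1 : m * min (e - y) 0 * v ≤ (e - y) * v * w := by
    rcases le_total 0 (e - y) with he | he
    · rw [min_eq_right he]; have := mul_nonneg (mul_nonneg he hv) hw; linarith
    · rw [min_eq_left he]
      rcases h with h | h
      · have : e - y = 0 := le_antisymm he h
        simp [this]
      · nlinarith [mul_nonneg (mul_nonneg (neg_nonneg.2 he) hv) (sub_nonneg.2 h)]
  have h2 : m * max y 0 * v + m * y * w - m ^ 2 * max y 0 ≤ y * v * w := by
    rcases hy with hy | ⟨h3, h4⟩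
    · simp [hy]
    · rcases le_total 0 y with hy | hy
      · rw [max_eq_left hy]
        nlinarith [mul_nonneg hy (mul_nonneg (sub_nonneg.2 h3) (sub_nonneg.2 h4))]
      · rw [max_eq_right hy]
        nlinarith [mul_nonneg (neg_nonneg.2 hy) (mul_nonneg (sub_nonneg.2 h3) hw)]
  nlinarith

theorem Cert.lower (C : Cert) (hC : C.Good) (v : ℕ → ℝ) (h0 : ∀ α, 0 ≤ v α) (h1 : v C.z = 1)
    (hb : ∀ β, C.D0 ≤ β → β < C.z → v β ≤ C.p / C.q) :
    (C.cst : ℝ) / C.q ^ 2 ≤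
      2 * C.sc * ∑ α ∈ range (C.z + 1), ∑ β ∈ range (C.z + 1), (C.g α β : ℝ) * (v α * v β) := by
  have hq : (0 : ℝ) < C.q := by exact_mod_cast hC.hq
  set m : ℝ := C.p / C.q with hm
  have hm0 : 0 ≤ m := by positivity
  have hsc : (0 : ℝ) ≤ C.sc := by positivity
  have hS : 0 ≤ ∑ α ∈ range (C.z + 1), ∑ β ∈ range (C.z + 1), (C.S α β : ℝ) * (v α * v β) := by
    have : ∑ α ∈ range (C.z + 1), ∑ β ∈ range (C.z + 1), (C.S α β : ℝ) * (v α * v β) =
        ∑ k ∈ range (C.z + 1), (∑ α ∈ range (C.z + 1), (C.L α k : ℝ) * v α) ^ 2 := by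
      simp_rw [Cert.S, Int.cast_sum, sum_mul, sq, sum_mul_sum]
      rw [sum_congr rfl fun α _ => sum_comm, sum_comm]
      refine sum_congr rfl fun k _ => sum_congr rfl fun α _ => sum_congr rfl fun β _ => ?_
      push_cast; ring
    rw [this]
    exact sum_nonneg fun _ _ => sq_nonneg _
  have hE : ∑ α ∈ range (C.z + 1), ∑ β ∈ range (C.z + 1), (C.e2 α β : ℝ) * (v α * v β) =
      2 * C.sc * ∑ α ∈ range (C.z + 1), ∑ β ∈ range (C.z + 1), (C.g α β : ℝ) * (v α * v β) -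
      2 * ∑ α ∈ range (C.z + 1), ∑ β ∈ range (C.z + 1), (C.S α β : ℝ) * (v α * v β) := by
    have hsw : ∑ α ∈ range (C.z + 1), ∑ β ∈ range (C.z + 1), (C.g β α : ℝ) * (v α * v β) =
        ∑ α ∈ range (C.z + 1), ∑ β ∈ range (C.z + 1), (C.g α β : ℝ) * (v α * v β) := by
      rw [sum_comm]
      exact sum_congr rfl fun _ _ => sum_congr rfl fun _ _ => by rw [mul_comm (v _)]
    have : ∀ α β, (C.e2 α β : ℝ) * (v α * v β) = C.sc * ((C.g α β : ℝ) * (v α * v β)) +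
        C.sc * ((C.g β α : ℝ) * (v α * v β)) - 2 * ((C.S α β : ℝ) * (v α * v β)) := by
      intro α β; unfold Cert.e2; push_cast; ring
    simp_rw [this, sum_sub_distrib, sum_add_distrib, ← mul_sum]
    rw [hsw]; ring
  suffices hW : (C.cst : ℝ) / C.q ^ 2 ≤
      ∑ α ∈ range (C.z + 1), ∑ β ∈ range (C.z + 1), (C.e2 α β : ℝ) * (v α * v β) by linarith
  rw [sum_symm _ (fun a b => by rw [C.e2_symm, mul_comm (v a)]), sum_range_succ, sum_add_distrib,
    ← mul_sum, sum_tri (fun a b => (C.e2 a b : ℝ) * (v a * v b)), h1]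
  have hd : ∀ α ∈ range C.z, m * min (C.e2 α α : ℝ) 0 * v α ≤ (C.e2 α α : ℝ) * (v α * v α) := by
    intro α hα
    rw [← mul_assoc]
    refine mc_diag (h0 α) ?_
    rcases lt_or_ge α C.D0 with h | h
    · left; exact_mod_cast hC.r1 α α le_rfl h
    · right; exact hb α h (mem_range.1 hα)
  have ho : ∀ α ∈ range C.z, ∀ β ∈ Ioo α C.z,
      m * (min ((C.e2 α β : ℝ) - C.sc * C.yv α β) 0 + C.sc * max (C.yv α β : ℝ) 0) * v α +
        m * C.sc * (C.yv α β * v β) - m ^ 2 * C.sc * max (C.yv α β : ℝ) 0 ≤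
        (C.e2 α β : ℝ) * (v α * v β) := by
    intro α _ β hβ
    rw [mem_Ioo] at hβ
    have hmax : (C.sc : ℝ) * max (C.yv α β : ℝ) 0 = max (C.sc * C.yv α β : ℝ) 0 := by
      rw [mul_max_of_nonneg _ _ hsc, mul_zero]
    have := @mc_off (C.e2 α β) (C.sc * C.yv α β) m (v α) (v β) (h0 α) (h0 β) ?_ ?_
    · rw [hmax, mul_assoc (m ^ 2), hmax]
      linarith
    · rcases lt_or_ge β C.D0 with h | h
      · left
        rw [C.yv_of_lt (hβ.1.trans h)]
        simpa using (show (0 : ℝ) ≤ C.e2 α β by exact_mod_cast hC.r1 α β hβ.1.le h)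
      · right; exact hb β h hβ.2
    · rcases lt_or_ge α C.D0 with h | h
      · left; rw [C.yv_of_lt h]; simp
      · right; exact ⟨hb α h (hβ.1.trans hβ.2), hb β (h.trans hβ.1.le) hβ.2⟩
  have hd' := sum_le_sum hd
  have ho' := sum_le_sum fun α hα => sum_le_sum (ho α hα)
  have hl : 0 ≤ ∑ α ∈ range C.z, (2 * (C.e2 α C.z : ℝ) + m * C.acc α) * v α := by
    refine sum_nonneg fun α hα => mul_nonneg ?_ (h0 α)
    have h2 : (0 : ℝ) ≤ 2 * C.q * C.e2 α C.z + C.p * C.acc α := by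
      exact_mod_cast hC.r2 α (mem_range.1 hα)
    have : 2 * (C.e2 α C.z : ℝ) + m * C.acc α =
        (2 * C.q * C.e2 α C.z + C.p * C.acc α) / C.q := by rw [hm]; field_simp
    rw [this]; positivity
  have hc : (C.cst : ℝ) / C.q ^ 2 = C.e2 C.z C.z -
      2 * ∑ α ∈ range C.z, ∑ β ∈ Ioo α C.z, m ^ 2 * C.sc * max (C.yv α β : ℝ) 0 := by
    simp_rw [← mul_sum]
    unfold Cert.cst
    rw [hm]; push_cast; field_simp
  have hx : ∑ α ∈ range C.z, (2 * (C.e2 α C.z : ℝ) + m * C.acc α) * v α =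
      2 * ∑ α ∈ range C.z, (C.e2 α C.z : ℝ) * (v α * 1) +
      ∑ α ∈ range C.z, m * min (C.e2 α α : ℝ) 0 * v α +
      2 * ∑ α ∈ range C.z, ∑ β ∈ Ioo α C.z,
        m * (min ((C.e2 α β : ℝ) - C.sc * C.yv α β) 0 + C.sc * max (C.yv α β : ℝ) 0) * v α +
      2 * ∑ α ∈ range C.z, ∑ β ∈ Ioo α C.z, m * C.sc * (C.yv α β * v β) := by
    rw [← sum_tri (fun a b => m * C.sc * (C.yv a b * v b)), mul_sum, mul_sum, mul_sum,
      ← sum_add_distrib, ← sum_add_distrib, ← sum_add_distrib]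
    refine sum_congr rfl fun α _ => ?_
    rw [← sum_mul, ← mul_sum, ← mul_sum, ← sum_mul]
    unfold Cert.acc
    push_cast
    ring
  simp_rw [sum_sub_distrib, sum_add_distrib] at ho'
  rw [hc]
  linarith

end Pool.Agent.Lib.MP_834949_an
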