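import Mathlib

/-!
From a nonnegative square-integrable function to a probability measure on `[-h,h]`.
-/

namespace Pool.Agent.Lib.MP_834949_an

open MeasureTheory Set

lemma integrable_conv {f : ℝ → ℝ} (hf : MemLp f 2 volume) (t : ℝ) :
    Integrable (fun x => f x * f (t - x)) :=
  hf.integrable_mul (hf.comp_measurePreserving (Measure.measurePreserving_sub_left volume t))

lemma conv_le {f : ℝ → ℝ} (hf : MemLp f 2 volume) (t : ℝ) :
    ∫ x, f x * f (t - x) ≤ ∫ x, f x ^ 2 := by
  have h1 : Integrable (fun x => f x ^ 2) := hf.integrable_sq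
  have h2 : Integrable (fun x => f (t - x) ^ 2) := h1.comp_sub_left t
  have h3 : ∫ x, f (t - x) ^ 2 = ∫ x, f x ^ 2 := integral_sub_left_eq_self (fun x => f x ^ 2) _ t
  have h4 := integral_mono (integrable_conv hf t) ((h1.add h2).div_const 2)
    (fun x => by simp only [Pi.add_apply]; nlinarith [sq_nonneg (f x - f (t - x))])
  simp only [Pi.add_apply] at h4
  rw [integral_div, integral_add h1 h2, h3] at h4
  linarith

lemma conv_le_sup {f : ℝ → ℝ} (hf : MemLp f 2 volume) {t : ℝ} (ht : t ∈ Icc (-1 / 2 : ℝ) (1 / 2)) :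
    ∫ x, f x * f (t - x) ≤ ⨆ t : Icc (-1 / 2 : ℝ) (1 / 2), ∫ x, f x * f (t - x) :=
  le_ciSup (f := fun t : Icc (-1 / 2 : ℝ) (1 / 2) => ∫ x, f x * f (t - x))
    ⟨∫ x, f x ^ 2, by rintro _ ⟨s, rfl⟩; exact conv_le hf s⟩ ⟨t, ht⟩

theorem reduce (h : ℕ) (hh : 0 < h) (c : ℝ)
    (H : ∀ (ν : Measure ℝ) [IsProbabilityMeasure ν], (∀ᵐ x ∂ν, |x| ≤ (h : ℝ)) →
      (∀ a : ℝ, (ν ∗ ν).real (Icc a (a + 1)) ≤ c / (4 * h)) → False)
    (f : ℝ → ℝ) (h0 : ∀ x, 0 ≤ f x) (hf : MemLp f 2 volume) :
    c * (∫ x in (-1 / 4 : ℝ)..(1 / 4), f x) ^ 2 ≤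
      ⨆ t : Icc (-1 / 2 : ℝ) (1 / 2), ∫ x, f x * f (t - x) := by
  set S := ⨆ t : Icc (-1 / 2 : ℝ) (1 / 2), ∫ x, f x * f (t - x) with hS
  set I := ∫ x in (-1 / 4 : ℝ)..(1 / 4), f x with hI
  by_contra hlt
  rw [not_le] at hlt
  have hS0 : 0 ≤ S :=
    (integral_nonneg fun x => mul_nonneg (h0 _) (h0 _)).trans
      (conv_le_sup hf (t := 0) (by constructor <;> norm_num))
  have hI0 : 0 ≤ I := intervalIntegral.integral_nonneg (by norm_num) fun x _ => h0 x
  have hIp : 0 < I := by
    rcases hI0.lt_or_eq with h1 | h1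
    · exact h1
    · rw [← h1] at hlt; linarith
  have hK : (0 : ℝ) < 4 * h := by positivity
  set J : Set ℝ := Icc (-1 / 4) (1 / 4) with hJ
  set g : ℝ → ENNReal := fun x => ENNReal.ofReal (J.indicator f x / I) with hg
  have hgm : AEMeasurable g volume :=
    ((hf.aestronglyMeasurable.aemeasurable.indicator measurableSet_Icc).div_const I).ennreal_ofReal
  have hint : Integrable (J.indicator f) volume :=
    (integrable_indicator_iff measurableSet_Icc).2 ((hf.restrict J).integrable (by norm_num))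
  have hind0 : ∀ x, 0 ≤ J.indicator f x := fun x => indicator_nonneg (fun y _ => h0 y) x
  have hind1 : ∀ x, J.indicator f x ≤ f x := fun x => indicator_le_self' (fun y _ => h0 y) x
  have : IsProbabilityMeasure (volume.withDensity g) := by
    constructor
    rw [withDensity_apply _ MeasurableSet.univ, Measure.restrict_univ,
      ← ofReal_integral_eq_lintegral_ofReal (hint.div_const I)
        (ae_of_all _ fun x => div_nonneg (hind0 x) hI0), integral_div,
      integral_indicator measurableSet_Icc, integral_Icc_eq_integral_Ioc,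
      ← intervalIntegral.integral_of_le (by norm_num), ← hI, div_self hIp.ne', ENNReal.ofReal_one]
  have hsupp : ∀ᵐ x ∂(volume.withDensity g), |x| ≤ (1 / 4 : ℝ) := by
    refine (ae_withDensity_iff' hgm).2 (ae_of_all _ fun x hx => ?_)
    by_contra hx'
    apply hx
    have : x ∉ J := fun hx2 => hx' (abs_le.2 ⟨by linarith [hx2.1], hx2.2⟩)
    simp [hg, this]
  have hconv : ∀ t, (g ⋆ₗ[volume] g) t ≤ ENNReal.ofReal c := by
    intro t
    rw [lconvolution_def]
    by_cases ht : t ∈ Icc (-1 / 2 : ℝ) (1 / 2)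
    · calc ∫⁻ y, g y * g (-y + t) ≤ ∫⁻ y, ENNReal.ofReal (f y * f (t - y) / I ^ 2) := by
            refine lintegral_mono fun y => ?_
            simp only [hg]
            rw [← ENNReal.ofReal_mul (div_nonneg (hind0 y) hI0), neg_add_eq_sub]
            refine ENNReal.ofReal_le_ofReal ?_
            rw [div_mul_div_comm, ← sq]
            exact div_le_div_of_nonneg_right
              (mul_le_mul (hind1 _) (hind1 _) (hind0 _) (h0 _)) (by positivity)
        _ = ENNReal.ofReal ((∫ y, f y * f (t - y)) / I ^ 2) := by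
            rw [← ofReal_integral_eq_lintegral_ofReal ((integrable_conv hf t).div_const _)
              (ae_of_all _ fun y => div_nonneg (mul_nonneg (h0 _) (h0 _)) (by positivity)),
              integral_div]
        _ ≤ ENNReal.ofReal c := by
            refine ENNReal.ofReal_le_ofReal ?_
            rw [div_le_iff₀ (by positivity)]
            exact (conv_le_sup hf ht).trans hlt.le
    · have : ∀ y, g y * g (-y + t) = 0 := by
        intro y
        by_cases h1 : y ∈ J
        · have h2 : -y + t ∉ J := fun h2 =>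
            ht ⟨by linarith [h1.1, h2.1], by linarith [h1.2, h2.2]⟩
          simp [hg, h2]
        · simp [hg, h1]
      simp [this]
  have hc0 : 0 ≤ c := by
    by_contra h1
    rw [not_le] at h1
    nlinarith [sq_pos_of_pos hIp]
  have hm : Measurable (fun x : ℝ => 4 * h * x) := by fun_prop
  have : IsProbabilityMeasure ((volume.withDensity g).map (fun x : ℝ => 4 * h * x)) :=
    Measure.isProbabilityMeasure_map hm.aemeasurable
  refine H ((volume.withDensity g).map (fun x : ℝ => 4 * h * x)) ?_ fun a => ?_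
  · rw [ae_map_iff hm.aemeasurable (measurableSet_le (by fun_prop) measurable_const)]
    refine hsupp.mono fun x hx => ?_
    rw [abs_mul, abs_of_pos hK]
    nlinarith
  · have e := Measure.map_conv_addMonoidHom (μ := volume.withDensity g) (ν := volume.withDensity g)
      (AddMonoidHom.mulLeft (4 * h : ℝ)) hm
    have e' : (AddMonoidHom.mulLeft (4 * h : ℝ) : ℝ → ℝ) = fun x : ℝ => 4 * h * x := rfl
    rw [e'] at e
    rw [← e, map_measureReal_apply hm measurableSet_Icc, conv_withDensity_eq_mlconvolution₀ hgm hgm,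
      preimage_const_mul_Icc₀ _ _ hK, measureReal_def, withDensity_apply _ measurableSet_Icc]
    refine ENNReal.toReal_le_of_le_ofReal (by positivity) ?_
    refine (lintegral_mono hconv).trans ?_
    rw [setLIntegral_const, Real.volume_Icc, ← ENNReal.ofReal_mul hc0]
    refine ENNReal.ofReal_le_ofReal (le_of_eq ?_)
    field_simp
    ring

lemma upper {C : ℝ} (hC : ∀ f : ℝ → ℝ, (∀ x, 0 ≤ f x) → MemLp f 2 volume →
    C * (∫ x in (-1 / 4 : ℝ)..(1 / 4), f x) ^ 2 ≤
      ⨆ t : Icc (-1 / 2 : ℝ) (1 / 2), ∫ x, f x * f (t - x)) : C ≤ 2 := by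
  set J : Set ℝ := Icc (-1 / 4) (1 / 4) with hJ
  have hf : MemLp (J.indicator fun _ => (1 : ℝ)) 2 volume :=
    memLp_indicator_const 2 measurableSet_Icc 1 (Or.inr (by simp))
  have h1 := hC _ (fun x => indicator_nonneg (fun _ _ => zero_le_one) x) hf
  have h2 : ∫ x in (-1 / 4 : ℝ)..(1 / 4), J.indicator (fun _ => (1 : ℝ)) x = 1 / 2 := by
    rw [intervalIntegral.integral_congr (g := fun _ => (1 : ℝ))]
    · simp; norm_num
    · intro x hx
      rw [uIcc_of_le (by norm_num)] at hx
      simp [hJ ▸ hx]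
  have h3 : ∫ x, (J.indicator (fun _ => (1 : ℝ)) x) ^ 2 = 1 / 2 := by
    have : (fun x => (J.indicator (fun _ => (1 : ℝ)) x) ^ 2) = J.indicator fun _ => (1 : ℝ) := by
      ext x; by_cases hx : x ∈ J <;> simp [hx]
    rw [this, integral_indicator measurableSet_Icc]
    simp; norm_num
  have : Nonempty (Icc (-1 / 2 : ℝ) (1 / 2)) := ⟨⟨0, by constructor <;> norm_num⟩⟩
  have h4 := ciSup_le fun t : Icc (-1 / 2 : ℝ) (1 / 2) => conv_le hf t
  rw [h2] at h1
  rw [h3] at h4
  linarith

end Pool.Agent.Lib.MP_834949_an
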