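import Pool.Agent.Lib.MP_834949_an.Tn4

/-!
Moment relations and approximate characters.
-/

set_option linter.unusedSectionVars false

namespace Pool.Agent.Lib.MP_834949_an

open MeasureTheory Set

variable {μ ν : Measure ℝ} [IsProbabilityMeasure μ] [IsProbabilityMeasure ν] {A B h : ℕ}

lemma KQ_le (hμ : Sp μ A) (hν : Sp ν B) {τ f1 g1 f2 g2 f3 g3 : ℤ → ℝ} {c : ℝ}
    (H : ∀ i j : ℤ, |i| ≤ A → |j| ≤ B → c * τ (i - j) ≤ f1 i * g1 j + f2 i * g2 j + f3 i * g3 j) :
    c * KQ μ ν τ ≤ IT μ f1 * IT ν g1 + IT μ f2 * IT ν g2 + IT μ f3 * IT ν g3 := by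
  simp only [KQ, ← key hμ hν, ← hμ.sum_tm, ← hν.sum_tm, Finset.sum_mul_sum]
  simp only [Finset.mul_sum, ← Finset.sum_add_distrib]
  refine Finset.sum_le_sum fun i hi => Finset.sum_le_sum fun j hj => ?_
  have := mul_le_mul_of_nonneg_right (H i j (abs_le.2 (Finset.mem_Icc.1 hi))
    (abs_le.2 (Finset.mem_Icc.1 hj))) (mul_nonneg (tm_nonneg μ i) (tm_nonneg ν j))
  linarith

lemma KQ_eq (hμ : Sp μ A) (hν : Sp ν B) {τ f1 g1 f2 g2 f3 g3 : ℤ → ℝ}
    (H : ∀ i j : ℤ, τ (i - j) = f1 i * g1 j + f2 i * g2 j + f3 i * g3 j) :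
    KQ μ ν τ = IT μ f1 * IT ν g1 + IT μ f2 * IT ν g2 + IT μ f3 * IT ν g3 := by
  simp only [KQ, ← key hμ hν, ← hμ.sum_tm, ← hν.sum_tm, Finset.sum_mul_sum,
    ← Finset.sum_add_distrib, H]
  exact Finset.sum_congr rfl fun i _ => Finset.sum_congr rfl fun j _ => by ring

lemma Sp.IT_neg (hμ : Sp μ A) (f : ℤ → ℝ) : IT μ (fun n => -f n) = -IT μ f := by
  simpa using hμ.IT_mul (-1) f

lemma mom1 (hν : Sp ν h) : IT (ν ∗ ν) (fun n => n) = 2 * IT ν fun n => n := by
  have := KQ_eq hν hν.refl (τ := fun n => n) (f1 := fun n => n) (g1 := fun _ => 1)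
    (f2 := fun _ => 1) (g2 := fun n => -n) (f3 := fun _ => 0) (g3 := fun _ => 0)
    fun i j => by push_cast; ring
  rw [KQ, show dd (fun n => (n : ℝ)) = 0 by ext n; simp [dd]; ring, LL_zero, rf_rf] at this
  simp only [IT_const, IT_rf, Int.cast_neg, neg_neg] at this
  linarith

/-- The total correction mass. -/
noncomputable def em (ν : Measure ℝ) : ℝ := LL ν ν (fun _ => 1) + LL ν (rf ν) fun _ => 1

lemma em_mem (hν : Sp ν h) : 0 ≤ em ν ∧ em ν ≤ 1 / 2 := by
  have h0 : ∀ μ : Measure ℝ, 0 ≤ LL ν μ fun _ => 1 :=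
    fun μ => integral_nonneg fun z => mul_nonneg zero_le_one (ph_nonneg _ _)
  have h1 := hν.LL_const hν zero_le_one
  have h2 := hν.LL_const hν.refl zero_le_one
  exact ⟨add_nonneg (h0 _) (h0 _), by unfold em; linarith⟩

lemma mom2 (hν : Sp ν h) : 4 * IT ν (fun n => n ^ 2) -
    (IT (ν ∗ ν) (fun n => n ^ 2) + IT (gm ν) fun n => n ^ 2) = 2 * em ν := by
  have k : ∀ (μ : Measure ℝ) [IsProbabilityMeasure μ], Sp μ h → IT (ν ∗ rf μ) (fun n => n ^ 2) +
      2 * LL ν μ (fun _ => 1) = IT ν (fun n => n ^ 2) + IT μ (fun n => n ^ 2) -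
      2 * (IT ν (fun n => n) * IT μ fun n => n) := by
    intro μ _ hμ
    have := KQ_eq hν hμ (τ := fun n => n ^ 2) (f1 := fun n => n ^ 2) (g1 := fun _ => 1)
      (f2 := fun _ => 1) (g2 := fun n => n ^ 2) (f3 := fun n => -2 * n) (g3 := fun n => n)
      fun i j => by push_cast; ring
    rw [KQ, show dd (fun n => (n : ℝ) ^ 2) = fun _ => 2 * 1 by ext n; simp [dd]; ring, LL_mul,
      hν.IT_mul, IT_const, IT_const] at this
    linarith
  have k1 := k ν hν
  have k2 := k _ hν.refl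
  simp only [rf_rf, IT_rf, Int.cast_neg, neg_sq, hν.IT_neg] at k2
  unfold em gm
  linarith

/-- Approximate cosine and sine tables. -/
structure Trig (h : ℕ) (T K : ℝ) (C S : ℤ → ℝ) : Prop where
  pos : 0 < T
  ev : ∀ n, C (-n) = C n
  od : ∀ n, S (-n) = -S n
  ac : ∀ i j : ℤ, |i| ≤ h → |j| ≤ h → |C i * C j + S i * S j - T * C (i - j)| ≤ 2 * T
  as : ∀ i j : ℤ, |i| ≤ h → |j| ≤ h → |S i * C j - C i * S j - T * S (i - j)| ≤ 2 * T
  d2 : ∀ n : ℤ, |n| < 2 * h → |dd C n| ≤ K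

variable {T K : ℝ} {C S : ℤ → ℝ}

theorem Trig.secant (H : Trig h T K C S) (hν : Sp ν h) :
    T * (IT (gm ν) C - IT (ν ∗ ν) C) ≤ 2 * IT ν S ^ 2 + 4 * T + T * K * em ν := by
  have k1 := KQ_le hν hν (τ := C) (c := T) (f1 := C) (g1 := C) (f2 := S) (g2 := S)
    (f3 := fun _ => 2 * T) (g3 := fun _ => 1) fun i j hi hj => by
      linarith [(abs_le.1 (H.ac i j hi hj)).1]
  have k2 := KQ_le hν hν.refl (τ := C) (c := -T) (f1 := fun n => -C n) (g1 := C)
    (f2 := fun n => -S n) (g2 := S) (f3 := fun _ => 2 * T) (g3 := fun _ => 1)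
    fun i j hi hj => by linarith [(abs_le.1 (H.ac i j hi hj)).2]
  have k3 := hν.LL_mono hν (κ := fun _ => -K * 1) (κ' := dd C) fun n hn => by
    linarith [(abs_le.1 (H.d2 n (by omega))).1]
  have k4 := hν.LL_mono hν.refl (κ := dd C) (κ' := fun _ => K * 1) fun n hn => by
    linarith [(abs_le.1 (H.d2 n (by omega))).2]
  simp only [KQ, rf_rf, IT_rf, H.ev, H.od, hν.IT_neg, IT_const, LL_mul] at k1 k2 k3 k4
  have k5 := mul_le_mul_of_nonneg_left k3 H.pos.le
  have k6 := mul_le_mul_of_nonneg_left k4 H.pos.le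
  unfold em gm
  linarith

theorem Trig.psd (H : Trig h T K C S) (hν : Sp ν h) (z a b : ℝ) :
    0 ≤ z * z * (2 * T) + 4 * z * (a * IT ν C + b * IT ν S) +
      a * a * (IT (gm ν) C + 6 + IT (ν ∗ ν) C) + 2 * a * b * IT (ν ∗ ν) S +
      b * b * (IT (gm ν) C + 6 - IT (ν ∗ ν) C) := by
  have hr := hν.refl
  have h0 : Sp (Measure.dirac 0) 0 := by simp [Sp]
  have : ∀ u, IsProbabilityMeasure (![Measure.dirac 0, ν, rf ν] u) := fun u => by
    fin_cases u <;> simp only [Fin.zero_eta, Fin.mk_one, Fin.reduceFinMk, Matrix.cons_val] <;>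
      infer_instance
  have hb : ∀ u w : ℝ, |u| ≤ 2 * T → |w| ≤ 2 * T →
      (a * a - b * b) * u + 2 * a * b * w ≤ 4 * T * (a * a + b * b) := fun u w hu hw => by
    rw [abs_le] at hu hw
    nlinarith [mul_nonneg (mul_self_nonneg a) (sub_nonneg.2 hu.2),
      mul_nonneg (mul_self_nonneg b) (neg_le_iff_add_nonneg.1 hu.1),
      mul_nonneg (mul_self_nonneg (a + b)) (sub_nonneg.2 hw.2),
      mul_nonneg (mul_self_nonneg (a - b)) (neg_le_iff_add_nonneg.1 hw.1)]
  have key := gram ![Measure.dirac 0, ν, rf ν] ![0, h, h] (fun u => by fin_cases u <;> assumption)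
    ![![fun _ => 2 * T * z, fun i => a * C i + b * S i, fun i => a * C i - b * S i],
      ![fun _ => 0, fun i => a * S i - b * C i, fun i => a * S i + b * C i]]
    ![![fun _ => (2 * T * z) ^ 2, fun m => 2 * T * z * (a * C m - b * S m),
        fun m => 2 * T * z * (a * C m + b * S m)],
      ![fun m => 2 * T * z * (a * C m + b * S m), fun m => (a * a + b * b) * (T * C m + 2 * T),
        fun m => T * ((a * a - b * b) * C m + 2 * a * b * S m) + 4 * T * (a * a + b * b)],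
      ![fun m => 2 * T * z * (a * C m - b * S m),
        fun m => T * ((a * a - b * b) * C m - 2 * a * b * S m) + 4 * T * (a * a + b * b),
        fun m => (a * a + b * b) * (T * C m + 2 * T)]] (by
    intro u w i j hi hj
    fin_cases u <;> fin_cases w <;> simp only [Fin.zero_eta, Fin.mk_one, Fin.reduceFinMk,
      Matrix.cons_val, Fin.sum_univ_two, Nat.cast_zero, abs_nonpos_iff] at hi hj ⊢
    · linarith
    · rw [hi, zero_sub, H.ev, H.od]; linarith
    · rw [hi, zero_sub, H.ev, H.od]; linarith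
    · rw [hj, sub_zero]; linarith
    · nlinarith [mul_le_mul_of_nonneg_left (abs_le.1 (H.ac i j hi hj)).2
        (add_nonneg (mul_self_nonneg a) (mul_self_nonneg b))]
    · linarith [hb _ _ (H.ac i j hi hj) (H.as i j hi hj)]
    · rw [hj, sub_zero]; linarith
    · linarith [hb _ _ (H.ac i j hi hj) ((abs_neg _).trans_le (H.as i j hi hj))]
    · nlinarith [mul_le_mul_of_nonneg_left (abs_le.1 (H.ac i j hi hj)).2
        (add_nonneg (mul_self_nonneg a) (mul_self_nonneg b))])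
  have e0 : rf (Measure.dirac 0) = Measure.dirac 0 := by
    unfold rf
    rw [Measure.map_dirac' (by fun_prop)]
    simp
  have hb := hν.conv hν
  have hc := hν.gm
  have e1 : rf ν ∗ ν = gm ν := Measure.conv_comm _ _
  have e2 : ν ∗ rf ν = gm ν := rfl
  simp only [Fin.sum_univ_three, Matrix.cons_val, e0, rf_rf, Measure.dirac_zero_conv,
    Measure.conv_dirac_zero, e1, e2, ← rf_conv, IT_rf, H.ev, H.od, IT_const, hν.IT_mul, hν.IT_add,
    hν.IT_sub, hν.IT_neg, hb.IT_mul, hb.IT_add, hb.IT_sub, hb.IT_neg, hc.IT_mul, hc.IT_add] at key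
  refine nonneg_of_mul_nonneg_right (le_of_le_of_eq key ?_) (mul_pos two_pos H.pos)
  ring

end Pool.Agent.Lib.MP_834949_an
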