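import Pool.Agent.Lib.MP_834949_an.Alg

/-!
A fast checker for the conditions on the certificate data, and its soundness.
-/

namespace Pool.Agent.Lib.MP_834949_an

open Finset

/-- Forces evaluation of a natural number. -/
noncomputable def force {α : Type} (x : ℕ) (f : ℕ → α) : α := Nat.rec (f 0) (fun n _ => f n.succ) x

lemma force_eq {α : Type} (x : ℕ) (f : ℕ → α) : force x f = f x := by cases x <;> rfl

noncomputable def allN (n : ℕ) (f : ℕ → Bool) : Bool :=
  Nat.rec true (fun k ih => cond (f k) ih false) n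

noncomputable def sumN (n : ℕ) (f : ℕ → ℕ) : ℕ := Nat.rec 0 (fun k ih => Nat.add ih (f k)) n

noncomputable def sumC (n : ℕ) (c f : ℕ → ℕ) : ℕ :=
  Nat.rec 0 (fun k ih => cond (Nat.beq (c k) 0) ih (Nat.add ih (Nat.mul (c k) (f k)))) n

lemma allN_spec {n : ℕ} {f : ℕ → Bool} (h : allN n f = true) : ∀ k, k < n → f k = true := by
  induction n with
  | zero => intro k hk; omega
  | succ n ih =>
    have h' : cond (f n) (allN n f) false = true := h
    intro k hk
    cases hf : f n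
    · simp [hf] at h'
    · rw [hf] at h'
      rcases Nat.lt_succ_iff_lt_or_eq.1 hk with h1 | h1
      · exact ih h' k h1
      · rw [h1, hf]

lemma sumN_eq (n : ℕ) (f : ℕ → ℕ) : sumN n f = ∑ k ∈ range n, f k := by
  induction n with
  | zero => rfl
  | succ n ih => rw [sum_range_succ, ← ih]; rfl

lemma sumC_eq (n : ℕ) (c f : ℕ → ℕ) : sumC n c f = ∑ k ∈ range n, c k * f k := by
  induction n with
  | zero => rfl
  | succ n ih =>
    rw [sum_range_succ, ← ih]
    show cond (Nat.beq (c n) 0) (sumC n c f) (sumC n c f + c n * f n) = _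
    cases h : Nat.beq (c n) 0
    · rfl
    · rw [Nat.eq_of_beq_eq_true h]; simp

lemma dg_eq (X j : ℕ) : dg X j = X / (2 ^ 64) ^ j % 2 ^ 64 := by
  have : (18446744073709551615 : ℕ) = 2 ^ 64 - 1 := by norm_num
  show (X >>> (64 * j)) &&& 18446744073709551615 = _
  rw [this, Nat.and_two_pow_sub_one_eq_mod, Nat.shiftRight_eq_div_pow, pow_mul]

lemma dg_shift (X i j : ℕ) : dg (Nat.shiftRight X (Nat.mul 64 i)) j = dg X (i + j) := by
  show ((X >>> (64 * i)) >>> (64 * j)) &&& _ = (X >>> (64 * (i + j))) &&& _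
  rw [mul_add, Nat.shiftRight_add]

lemma digit_sum (B : ℕ) (hB : 0 < B) (s : Finset ℕ) (c : ℕ → ℕ) (J : ℕ) : ∀ X : ℕ → ℕ,
    (∀ j, j ≤ J → ∑ k ∈ s, c k * (X k / B ^ j % B) < B) →
    (∑ k ∈ s, c k * X k) / B ^ J % B = ∑ k ∈ s, c k * (X k / B ^ J % B) := by
  induction J with
  | zero =>
    intro X h
    have h0 := h 0 le_rfl
    simp only [pow_zero, Nat.div_one] at h0 ⊢
    have : ∑ k ∈ s, c k * X k = ∑ k ∈ s, c k * (X k % B) + B * ∑ k ∈ s, c k * (X k / B) := by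
      rw [mul_sum, ← sum_add_distrib]
      refine sum_congr rfl fun k _ => ?_
      conv_lhs => rw [← Nat.mod_add_div (X k) B]
      ring
    rw [this, Nat.add_mul_mod_self_left, Nat.mod_eq_of_lt h0]
  | succ J ih =>
    intro X h
    have h0 := h 0 (Nat.zero_le _)
    simp only [pow_zero, Nat.div_one] at h0
    have e1 : ∑ k ∈ s, c k * X k = ∑ k ∈ s, c k * (X k % B) + B * ∑ k ∈ s, c k * (X k / B) := by
      rw [mul_sum, ← sum_add_distrib]
      refine sum_congr rfl fun k _ => ?_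
      conv_lhs => rw [← Nat.mod_add_div (X k) B]
      ring
    have e2 : (∑ k ∈ s, c k * X k) / B = ∑ k ∈ s, c k * (X k / B) := by
      rw [e1, Nat.add_mul_div_left _ _ hB, Nat.div_eq_of_lt h0, zero_add]
    have e3 : ∀ Y j : ℕ, Y / B ^ (j + 1) = Y / B / B ^ j := by
      intro Y j; rw [Nat.div_div_eq_div_mul, pow_succ']
    rw [e3, e2, ih (fun k => X k / B)]
    · simp_rw [e3]
    · intro j hj
      simp_rw [← e3]
      exact h (j + 1) (by omega)

namespace Cert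

variable (C : Cert)

noncomputable def cs (α k : ℕ) : ℕ := Nat.shiftRight (C.cols k) (Nat.mul 64 (Nat.sub α k))
noncomputable def dd (α k : ℕ) : ℕ := Nat.land (C.cs α k) 18446744073709551615
noncomputable def cp (α k : ℕ) : ℕ := Nat.sub (C.dd α k) 2147483648
noncomputable def cn (α k : ℕ) : ℕ := Nat.sub 2147483648 (C.dd α k)
noncomputable def pp (α : ℕ) : ℕ := sumC (Nat.succ α) (C.cp α) (C.cs α)
noncomputable def pn (α : ℕ) : ℕ := sumC (Nat.succ α) (C.cn α) (C.cs α)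
noncomputable def lp (α : ℕ) : ℕ := sumN (Nat.succ α) (C.cp α)
noncomputable def ln (α : ℕ) : ℕ := sumN (Nat.succ α) (C.cn α)

noncomputable def digOK (α : ℕ) : Bool :=
  cond (allN (Nat.succ α) fun k => Nat.ble (C.dd α k) 4294967295)
    (cond (Nat.ble (C.lp α) 4294967296) (Nat.ble (C.ln α) 4294967296) false) false

noncomputable def Sf (α β : ℕ) : ℤ :=
  (dg (C.pp α) (Nat.sub β α) : ℤ) - dg (C.pn α) (Nat.sub β α) -
    2147483648 * ((C.lp α : ℤ) - C.ln α)

noncomputable def tk (α β u w : ℕ) : ℕ :=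
  Nat.sub (Nat.add (Nat.add (Nat.mul 4 C.h) (ctr C.h u)) β) (Nat.add α (ctr C.h w))

noncomputable def AA (α β u w : ℕ) : ℕ :=
  Nat.add (Nat.add (Nat.mul 2 (d2 (nth C.tau (Nat.add (Nat.mul 6 u) w)) (C.tk α β u w)))
    (d2 (nth C.eta w) α)) (d2 (nth C.eta u) β)

noncomputable def df (α u β : ℕ) : ℕ := force (ob C.h β) fun w =>
  Nat.sub
    (Nat.add (Nat.mul C.sc (Nat.add (C.yd α β) 6442450944))
      (Nat.mul 2 (Nat.add (dg (C.pp α) (Nat.sub β α)) (Nat.mul 2147483648 (C.ln α)))))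
    (Nat.add (Nat.mul C.sc (C.AA α β u w))
      (Nat.mul 2 (Nat.add (dg (C.pn α) (Nat.sub β α)) (Nat.mul 2147483648 (C.lp α)))))

noncomputable def e2f (α β : ℕ) : ℤ := C.sc * (C.g α β + C.g β α) - 2 * C.Sf α β

noncomputable def ypos (α : ℕ) : ℕ :=
  cond (Nat.ble C.D0 α) (sumN (Nat.sub C.z (Nat.succ α)) fun j =>
    force (Nat.add (Nat.succ α) j) fun β => Nat.sub (C.yd α β) 2147483648) 0

noncomputable def accf (α u : ℕ) : ℤ :=
  min (C.e2f α α) 0 + 2 * (C.sc * (C.ypos α : ℕ) -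
      (sumN (Nat.sub C.z (Nat.succ α)) fun j => force (Nat.add (Nat.succ α) j) (C.df α u) : ℕ)) +
    2 * C.sc * ((sumN α fun γ => C.yd γ α : ℕ) - 2147483648 * (α : ℤ))

noncomputable def rowOK (α : ℕ) : Bool := force (ob C.h α) fun u =>
  cond (C.digOK α)
    (cond (allN (Nat.sub C.D0 α) fun j => Nat.beq (force (Nat.add α j) (C.df α u)) 0)
      (decide (0 ≤ 2 * C.q * C.e2f α C.z + C.p * C.accf α u)) false) false

noncomputable def rowsOK (a n : ℕ) : Bool := allN n fun j => force (Nat.add a j) C.rowOK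

noncomputable def cstf : ℤ :=
  (C.q : ℤ) ^ 2 * C.e2f C.z C.z - 2 * (C.p : ℤ) ^ 2 * C.sc *
    (sumN C.z fun α => C.ypos α : ℕ)

noncomputable def lastOK : Bool := force C.z fun z =>
  cond (C.digOK z) (cond (Nat.ble 1 C.q) (decide (0 < C.cstf)) false) false

noncomputable def clEq (n : ℤ) : Bool :=
  cond (decide (C.τ 5 5 n = 0)) (
  cond (decide (C.τ 1 5 n + C.τ 5 0 n = 0)) (
  cond (decide (C.τ 1 0 n + C.τ 4 5 n + C.τ 5 3 n = 0)) (
  cond (decide (C.τ 1 3 n + C.τ 4 0 n = 0)) (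
  cond (decide (C.τ 4 3 n = 0)) (
  cond (decide (C.τ 0 5 n + C.τ 5 1 n = 0)) (
  cond (decide (C.τ 0 0 n + C.τ 1 1 n + C.τ 2 5 n + C.τ 5 2 n = 0)) (
  cond (decide (C.τ 0 3 n + C.τ 1 2 n + C.τ 2 0 n + C.τ 4 1 n = 0)) (
  cond (decide (C.τ 2 3 n + C.τ 4 2 n = 0)) (
  cond (decide (C.τ 0 1 n + C.τ 3 5 n + C.τ 5 4 n = 0)) (
  cond (decide (C.τ 0 2 n + C.τ 1 4 n + C.τ 2 1 n + C.τ 3 0 n = 0)) (
  cond (decide (C.τ 2 2 n + C.τ 3 3 n + C.τ 4 4 n = 0)) (
  cond (decide (C.τ 0 4 n + C.τ 3 1 n = 0)) (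
  cond (decide (C.τ 2 4 n + C.τ 3 2 n = 0)) (
  decide (C.τ 3 4 n = 0)) false) false) false) false) false) false) false) false) false) false) false) false) false) false

noncomputable def clOK : Bool :=
  allN (Nat.succ (Nat.mul 8 C.h)) fun k => C.clEq ((k : ℤ) - 4 * C.h)

lemma dd_eq (α k : ℕ) : C.dd α k = dg (C.cols k) (α - k) := rfl

lemma digOK_spec {α : ℕ} (h : C.digOK α = true) :
    (∀ k, k ≤ α → C.dd α k < 2 ^ 32) ∧ C.lp α ≤ 2 ^ 32 ∧ C.ln α ≤ 2 ^ 32 := by
  unfold digOK at h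
  simp only [Bool.cond_eq_ite, Bool.if_false_right, Bool.and_eq_true, Nat.ble_eq,
    Bool.decide_eq_true] at h
  refine ⟨fun k hk => ?_, by simpa using h.2.1, by simpa using h.2.2⟩
  have := allN_spec h.1 k (Nat.lt_succ_of_le hk)
  rw [Nat.ble_eq] at this
  omega

lemma dg_comb (hd : ∀ α, α ≤ C.z → C.digOK α = true) {α β : ℕ} (hab : α ≤ β) (hb : β ≤ C.z)
    (c : ℕ → ℕ) (hc : ∑ k ∈ range (α + 1), c k ≤ 2 ^ 32) :
    dg (∑ k ∈ range (α + 1), c k * C.cs α k) (β - α) =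
      ∑ k ∈ range (α + 1), c k * C.dd β k := by
  have e : ∀ j, ∀ k ∈ range (α + 1), C.cs α k / (2 ^ 64) ^ j % 2 ^ 64 = C.dd (α + j) k := by
    intro j k hk
    rw [← dg_eq, dd_eq, cs, dg_shift]
    congr 1
    have := mem_range.1 hk
    show α - k + j = _
    omega
  rw [dg_eq, digit_sum _ (by norm_num)]
  · refine sum_congr rfl fun k hk => ?_
    rw [e _ k hk, Nat.add_sub_cancel' hab]
  · intro j hj
    have h1 : ∑ k ∈ range (α + 1), c k * (C.cs α k / (2 ^ 64) ^ j % 2 ^ 64) ≤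
        ∑ k ∈ range (α + 1), c k * (2 ^ 32 - 1) := by
      refine sum_le_sum fun k hk => Nat.mul_le_mul_left _ ?_
      rw [e _ k hk]
      have := (C.digOK_spec (hd (α + j) (by omega))).1 k (by have := mem_range.1 hk; omega)
      omega
    rw [← sum_mul] at h1
    have h2 := Nat.mul_le_mul_right (2 ^ 32 - 1) hc
    norm_num at h1 h2 ⊢
    omega

lemma S_eq (hd : ∀ α, α ≤ C.z → C.digOK α = true) {α β : ℕ} (hab : α ≤ β) (hb : β ≤ C.z) :
    C.S α β = C.Sf α β := by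
  obtain ⟨-, h1, h2⟩ := C.digOK_spec (hd α (hab.trans hb))
  unfold lp at h1
  unfold ln at h2
  rw [sumN_eq] at h1 h2
  unfold Sf pp pn lp ln S
  rw [sumC_eq, sumC_eq, sumN_eq, sumN_eq]
  simp only [Nat.succ_eq_add_one, Nat.sub_eq] at h1 h2 ⊢
  rw [C.dg_comb hd hab hb _ h1, C.dg_comb hd hab hb _ h2]
  rw [← sum_subset (s₁ := range (α + 1)) (range_subset_range.2 (by omega))]
  · push_cast
    rw [← sum_sub_distrib, ← sum_sub_distrib, mul_sum, ← sum_sub_distrib]
    refine sum_congr rfl fun k hk => ?_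
    have hk' : k ≤ α := by have := mem_range.1 hk; omega
    have e : (C.cp α k : ℤ) - C.cn α k = (C.dd α k : ℤ) - 2147483648 := by
      unfold cp cn
      simp only [Nat.sub_eq]
      omega
    unfold L
    rw [if_pos hk', if_pos (hk'.trans hab), ← dd_eq, ← dd_eq, ← e]
    ring
  · intro k _ hk
    have : ¬ k ≤ α := by rw [mem_range] at hk; omega
    unfold L
    rw [if_neg this, zero_mul]

end Cert

end Pool.Agent.Lib.MP_834949_an
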