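import Pool.Agent.Lib.MP_834949_an.Raw0
import Pool.Agent.Lib.MP_834949_an.Raw1
import Pool.Agent.Lib.MP_834949_an.Raw2
import Pool.Agent.Lib.MP_834949_an.RawY
import Pool.Agent.Lib.MP_834949_an.Check

namespace Pool.Agent.Lib.MP_834949_an

/-- Lookup in a list of lists of length `16`. -/
noncomputable def nth2 (l : List (List ℕ)) (k : ℕ) : ℕ :=
  nth (List.rec (motive := fun _ => ℕ → List ℕ) (fun _ => [])
    (fun a _ ih k => Nat.rec a (fun k' _ => ih k') k) l (Nat.div k 16)) (Nat.mod k 16)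

noncomputable def msk : ℕ := Nat.div (Nat.sub (Nat.pow 2 51584) 1) 4294967297

noncomputable def cert : Cert where
  h := 50
  p := 273
  q := 40000
  sc := 33554432
  tau := rawT
  eta := rawE
  ys := nth2 rawY
  cols := fun k => Nat.land (Nat.shiftRight (nth2 (raw0 ++ raw1 ++ raw2) (Nat.div k 2)) (Nat.mul 32 (Nat.mod k 2))) msk

end Pool.Agent.Lib.MP_834949_an
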