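import Pool.Agent.Lib.MP_834949_an.Good
import Pool.Agent.Lib.MP_834949_an.Reduce

namespace Pool.Agent.Lib.MP_834949_an

open MeasureTheory

theorem lower_bound (f : ℝ → ℝ) (h0 : ∀ x, 0 ≤ f x) (hf : MemLp f 2 volume) :
    (273 / 200 : ℝ) * (∫ x in (-1 / 4 : ℝ)..(1 / 4), f x) ^ 2 ≤
      ⨆ t : Set.Icc (-1 / 2 : ℝ) (1 / 2), ∫ x, f x * f (t - x) := by
  refine reduce 50 (by norm_num) _ (fun ν _ h1 h2 => ?_) f h0 hf
  refine cert.main cert_good ν h1 fun a => (h2 a).trans (le_of_eq ?_)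
  rw [show cert.p = 273 from rfl, show cert.q = 40000 from rfl]
  norm_num

end Pool.Agent.Lib.MP_834949_an
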