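import Pool.Agent.Lib.MP_834949_an.Data

namespace Pool.Agent.Lib.MP_834949_an

theorem rows4 : cert.rowsOK 91 24 = true := by decide +kernel

theorem rows5 : cert.rowsOK 115 25 = true := by decide +kernel

theorem rows6 : cert.rowsOK 140 26 = true := by decide +kernel

theorem rows7 : cert.rowsOK 166 26 = true := by decide +kernel

end Pool.Agent.Lib.MP_834949_an
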