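import Pool.Agent.Lib.MP_834949_an.Data

namespace Pool.Agent.Lib.MP_834949_an

theorem rows8 : cert.rowsOK 192 28 = true := by decide +kernel

theorem rows9 : cert.rowsOK 220 29 = true := by decide +kernel

theorem rows10 : cert.rowsOK 249 30 = true := by decide +kernel

theorem rows11 : cert.rowsOK 279 32 = true := by decide +kernel

end Pool.Agent.Lib.MP_834949_an
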