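import Pool.Agent.Lib.MP_834949_an.Data

namespace Pool.Agent.Lib.MP_834949_an

theorem rows12 : cert.rowsOK 311 33 = true := by decide +kernel

theorem rows13 : cert.rowsOK 344 36 = true := by decide +kernel

theorem rows14 : cert.rowsOK 380 38 = true := by decide +kernel

theorem rows15 : cert.rowsOK 418 39 = true := by decide +kernel

end Pool.Agent.Lib.MP_834949_an
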