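import Pool.Agent.Lib.MP_834949_an.Data

namespace Pool.Agent.Lib.MP_834949_an

theorem rows16 : cert.rowsOK 457 40 = true := by decide +kernel

theorem rows17 : cert.rowsOK 497 41 = true := by decide +kernel

theorem rows18 : cert.rowsOK 538 42 = true := by decide +kernel

theorem rows19 : cert.rowsOK 580 43 = true := by decide +kernel

end Pool.Agent.Lib.MP_834949_an
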