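import Pool.Agent.Lib.MP_834949_an.Data

namespace Pool.Agent.Lib.MP_834949_an

theorem rows20 : cert.rowsOK 623 44 = true := by decide +kernel

theorem rows21 : cert.rowsOK 667 45 = true := by decide +kernel

theorem rows22 : cert.rowsOK 712 46 = true := by decide +kernel

theorem rows23 : cert.rowsOK 758 47 = true := by decide +kernel

end Pool.Agent.Lib.MP_834949_an
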