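import Pool.Agent.Lib.MP_834949_an.Meas
import Pool.Agent.Lib.MP_834949_an.Alg

/-!
A good certificate excludes probability measures on `[-h,h]` whose self-convolution gives mass at
most `p/q` to every unit interval.
-/

namespace Pool.Agent.Lib.MP_834949_an

open Finset MeasureTheory

lemma ob_eq (h α : ℕ) : ob h α = if α ≤ 2 * h then 0 else if α ≤ 4 * h + 1 then 1 else
    if α ≤ 8 * h + 2 then 2 else if α ≤ 12 * h + 3 then 3 else if α ≤ 16 * h + 4 then 4 else 5 := by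
  simp only [ob, Bool.cond_eq_ite, Nat.ble_eq, Nat.add_eq, Nat.mul_eq]
  split_ifs <;> omega

lemma ctr_0 (h : ℕ) : ctr h 0 = h := rfl
lemma ctr_1 (h : ℕ) : ctr h 1 = 3 * h + 1 := rfl
lemma ctr_2 (h : ℕ) : ctr h 2 = 6 * h + 2 := rfl
lemma ctr_3 (h : ℕ) : ctr h 3 = 10 * h + 3 := rfl
lemma ctr_4 (h : ℕ) : ctr h 4 = 14 * h + 4 := rfl
lemma ctr_5 (h : ℕ) : ctr h 5 = 16 * h + 5 := rfl

/-- Half-width of an object. -/
def hw (h u : ℕ) : ℕ := (PP u + QQ u) * h

lemma hw_0 (h : ℕ) : hw h 0 = h := by simp [hw, PP, QQ]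
lemma hw_1 (h : ℕ) : hw h 1 = h := by simp [hw, PP, QQ]
lemma hw_2 (h : ℕ) : hw h 2 = 2 * h := by simp [hw, PP, QQ]
lemma hw_3 (h : ℕ) : hw h 3 = 2 * h := by simp [hw, PP, QQ]
lemma hw_4 (h : ℕ) : hw h 4 = 2 * h := by simp [hw, PP, QQ]
lemma hw_5 (h : ℕ) : hw h 5 = 0 := by simp [hw, PP, QQ]

lemma hw_le (h u : ℕ) (hu : u < 6) : hw h u ≤ 2 * h := by
  interval_cases u <;> simp only [hw_0, hw_1, hw_2, hw_3, hw_4, hw_5] <;> omega

lemma ob_lt (h α : ℕ) : ob h α < 6 := by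
  rw [ob_eq]; split_ifs <;> omega

lemma cell_mem (h α : ℕ) (hα : α < 16 * h + 6) :
    cell h α ∈ Icc (-(hw h (ob h α) : ℤ)) (hw h (ob h α)) := by
  rw [mem_Icc, cell, ob_eq]
  split_ifs <;>
    simp only [hw_0, hw_1, hw_2, hw_3, hw_4, hw_5, ctr_0, ctr_1, ctr_2, ctr_3, ctr_4, ctr_5] <;>
    omega

lemma idx_spec (h u : ℕ) (hu : u < 6) (i : ℤ) (hi : i ∈ Icc (-(hw h u : ℤ)) (hw h u)) :
    ((ctr h u : ℤ) + i).toNat < 16 * h + 6 ∧ ob h ((ctr h u : ℤ) + i).toNat = u ∧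
      (((ctr h u : ℤ) + i).toNat : ℤ) = ctr h u + i := by
  rw [mem_Icc] at hi
  obtain ⟨k, hk⟩ : ∃ k : ℕ, (ctr h u : ℤ) + i = k := by
    refine Int.eq_ofNat_of_zero_le ?_
    interval_cases u <;>
      simp only [hw_0, hw_1, hw_2, hw_3, hw_4, hw_5, ctr_0, ctr_1, ctr_2, ctr_3, ctr_4, ctr_5]
        at hi ⊢ <;> omega
  rw [hk, Int.toNat_natCast, ob_eq]
  refine ⟨?_, ?_, rfl⟩
  · interval_cases u <;>
      simp only [hw_0, hw_1, hw_2, hw_3, hw_4, hw_5, ctr_0, ctr_1, ctr_2, ctr_3, ctr_4, ctr_5]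
        at hi hk <;> omega
  · interval_cases u <;>
      simp only [hw_0, hw_1, hw_2, hw_3, hw_4, hw_5, ctr_0, ctr_1, ctr_2, ctr_3, ctr_4, ctr_5]
        at hi hk <;> split_ifs <;> omega

lemma flatten (h : ℕ) (φ : ℕ → ℤ → ℝ) :
    ∑ α ∈ range (16 * h + 6), φ (ob h α) (cell h α) =
      ∑ u ∈ range 6, ∑ i ∈ Icc (-(hw h u : ℤ)) (hw h u), φ u i := by
  rw [sum_sigma']
  refine sum_nbij' (fun α => (⟨ob h α, cell h α⟩ : Σ _ : ℕ, ℤ))
    (fun x => ((ctr h x.1 : ℤ) + x.2).toNat) ?_ ?_ ?_ ?_ ?_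
  · intro α hα
    simp only [mem_sigma, mem_range] at hα ⊢
    exact ⟨ob_lt h α, cell_mem h α hα⟩
  · rintro ⟨u, i⟩ hx
    simp only [mem_sigma, mem_range] at hx ⊢
    exact (idx_spec h u hx.1 i hx.2).1
  · intro α _
    simp [cell]
  · rintro ⟨u, i⟩ hx
    simp only [mem_sigma, mem_range] at hx
    obtain ⟨-, h2, h3⟩ := idx_spec h u hx.1 i hx.2
    simp only [cell, h2, h3]
    simp
  · intro α _
    rfl

lemma PQ_lt (u w : ℕ) (hu : u < 6) (hw : w < 6) : PP u + QQ w < 5 ∧ QQ u + PP w < 5 := by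
  interval_cases u <;> interval_cases w <;> simp [PP, QQ]

theorem Cert.main (C : Cert) (hC : C.Good) (ν : Measure ℝ) [IsProbabilityMeasure ν]
    (hs : ∀ᵐ x ∂ν, |x| ≤ (C.h : ℝ))
    (hm : ∀ a : ℝ, (ν ∗ ν).real (Set.Icc a (a + 1)) ≤ C.p / C.q) : False := by
  have hz : C.z + 1 = 16 * C.h + 6 := rfl
  set W : ℕ → ℤ → ℝ → ℝ := fun u i s => cm (lam ν (PP u) (QQ u)) i s with hW
  set V : ℕ → ℝ → ℝ := fun α s => W (ob C.h α) (cell C.h α) s with hV
  have hsup : ∀ u, ∀ᵐ x ∂(lam ν (PP u) (QQ u)), |x| ≤ ((hw C.h u : ℕ) : ℝ) :=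
    fun u => ae_lam hs _ _
  have hint : ∀ α β, Integrable (fun s => V α s * V β s) sh :=
    fun α β => integrable_cm_mul _ _ _ _
  have hpt : ∀ s ∈ Set.Ico (0 : ℝ) 1, (C.cst : ℝ) / C.q ^ 2 ≤ 2 * C.sc *
      ∑ α ∈ range (C.z + 1), ∑ β ∈ range (C.z + 1),
        (C.τ (ob C.h α) (ob C.h β) (cell C.h α - cell C.h β) : ℝ) * (V α s * V β s) := by
    intro s hs'
    have h1 := C.lower hC (fun α => V α s) (fun α => cm_nonneg _ _ _) ?_ ?_
    · have h2 : ∀ α, ∑ β ∈ range (C.z + 1), (C.η (ob C.h β) α : ℝ) * (V α s * V β s) = 0 := by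
        intro α
        rw [hz, flatten C.h (fun w j => (C.η w α : ℝ) * (V α s * W w j s))]
        simp_rw [← mul_sum]
        have h3 : ∀ w, ∑ j ∈ Icc (-(hw C.h w : ℤ)) (hw C.h w), W w j s = 1 :=
          fun w => sum_cm _ (hsup w) hs'
        simp_rw [h3, ← sum_mul]
        have : ∑ w ∈ range 6, (C.η w α : ℝ) = 0 := by
          simp [sum_range_succ, Cert.η]
        rw [this, zero_mul]
      simp only [Cert.g, Int.cast_add, add_mul, sum_add_distrib, h2, add_zero] at h1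
      exact h1
    · have e1 : ob C.h C.z = 5 := by
        rw [ob_eq, show C.z = 16 * C.h + 5 from rfl]; split_ifs <;> omega
      have e2 : cell C.h C.z = 0 := by
        rw [cell, e1, ctr_5, show C.z = 16 * C.h + 5 from rfl]; simp
      simp only [hV, hW, e1, e2]
      exact cm_one ν hs'
    · intro β hβ1 hβ2
      have e0 : C.D0 = 8 * C.h + 3 := rfl
      have e1 : ob C.h β = 3 ∨ ob C.h β = 4 := by
        rw [ob_eq]; split_ifs <;> omega
      simp only [hV, hW]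
      rcases e1 with e1 | e1 <;> rw [e1]
      · refine cm_le ?_ _ _
        rw [show PP 3 = 2 from rfl, show QQ 3 = 0 from rfl, lam_two]
        exact hm
      · refine cm_le ?_ _ _
        rw [show PP 4 = 0 from rfl, show QQ 4 = 2 from rfl, ← rf_lam, lam_two]
        exact rf_Icc hm
  have hzero : ∑ α ∈ range (C.z + 1), ∑ β ∈ range (C.z + 1),
      (C.τ (ob C.h α) (ob C.h β) (cell C.h α - cell C.h β) : ℝ) * ∫ s, V α s * V β s ∂sh = 0 := by
    rw [hz]
    simp only [hV]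
    rw [flatten C.h (fun u i => ∑ β ∈ range (16 * C.h + 6),
      (C.τ u (ob C.h β) (i - cell C.h β) : ℝ) * ∫ s, W u i s * W (ob C.h β) (cell C.h β) s ∂sh)]
    simp_rw [fun u i => flatten C.h (fun w j =>
      (C.τ u w (i - j) : ℝ) * ∫ s, W u i s * W w j s ∂sh)]
    have h1 : ∀ u ∈ range 6, ∑ i ∈ Icc (-(hw C.h u : ℤ)) (hw C.h u), ∑ w ∈ range 6,
        ∑ j ∈ Icc (-(hw C.h w : ℤ)) (hw C.h w), (C.τ u w (i - j) : ℝ) * ∫ s, W u i s * W w j s ∂sh =
        ∑ w ∈ range 6, ∑ n ∈ Icc (-(4 * C.h : ℤ)) (4 * C.h), ∑ P ∈ range 5, ∑ Q ∈ range 5,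
          (if PP u + QQ w = P ∧ QQ u + PP w = Q then (C.τ u w n : ℝ) else 0) * kap (lam ν P Q) n := by
      intro u hu
      rw [sum_comm]
      refine sum_congr rfl fun w hw' => ?_
      have hu6 := mem_range.1 hu
      have hw6 := mem_range.1 hw'
      have h2 : ∀ n, ∑ P ∈ range 5, ∑ Q ∈ range 5,
          (if PP u + QQ w = P ∧ QQ u + PP w = Q then (C.τ u w n : ℝ) else 0) * kap (lam ν P Q) n =
          C.τ u w n * kap (lam ν (PP u + QQ w) (QQ u + PP w)) n := by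
        intro n
        rw [sum_eq_single_of_mem _ (mem_range.2 (PQ_lt u w hu6 hw6).1),
          sum_eq_single_of_mem _ (mem_range.2 (PQ_lt u w hu6 hw6).2)]
        · simp
        · intro b _ hb; simp [Ne.symm hb]
        · intro b _ hb; simp [Ne.symm hb]
      simp_rw [h2, ← lam_conv, ← toeplitz _ _ (hsup u) (hsup w), mul_sum]
      rw [sum_comm (s := Icc (-(4 * C.h : ℤ)) (4 * C.h))]
      refine sum_congr rfl fun i hi => ?_
      rw [sum_comm (s := Icc (-(4 * C.h : ℤ)) (4 * C.h))]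
      refine sum_congr rfl fun j hj => ?_
      rw [sum_eq_single_of_mem (i - j)]
      · simp [hW]
      · have := hw_le C.h u hu6
        have := hw_le C.h w hw6
        rw [mem_Icc] at hi hj ⊢
        omega
      · intro b _ hb; simp [Ne.symm hb]
    rw [sum_congr rfl h1, sum_congr rfl fun u _ => sum_comm, sum_comm]
    refine sum_eq_zero fun n hn => ?_
    rw [sum_congr rfl fun u _ => sum_comm, sum_comm]
    refine sum_eq_zero fun P hP => ?_
    rw [sum_congr rfl fun u _ => sum_comm, sum_comm]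
    refine sum_eq_zero fun Q hQ => ?_
    simp_rw [← sum_mul]
    have := hC.cl P Q (mem_range.1 hP) (mem_range.1 hQ) n (abs_le.2 (mem_Icc.1 hn))
    have h3 : ∑ u ∈ range 6, ∑ w ∈ range 6,
        (if PP u + QQ w = P ∧ QQ u + PP w = Q then (C.τ u w n : ℝ) else 0) = 0 := by
      exact_mod_cast this
    rw [h3, zero_mul]
  have hI : ∫ s, 2 * (C.sc : ℝ) * ∑ α ∈ range (C.z + 1), ∑ β ∈ range (C.z + 1),
      (C.τ (ob C.h α) (ob C.h β) (cell C.h α - cell C.h β) : ℝ) * (V α s * V β s) ∂sh = 0 := by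
    rw [integral_const_mul, integral_finsetSum _ fun α _ =>
      integrable_finsetSum _ fun β _ => (hint α β).const_mul _]
    simp_rw [fun α => integral_finsetSum (range (C.z + 1)) fun β _ => (hint α β).const_mul
      (C.τ (ob C.h α) (ob C.h β) (cell C.h α - cell C.h β) : ℝ), integral_const_mul]
    rw [hzero, mul_zero]
  have hle := integral_mono_ae (integrable_const ((C.cst : ℝ) / C.q ^ 2))
    ((integrable_finsetSum _ fun α _ => integrable_finsetSum _ fun β _ =>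
      (hint α β).const_mul _).const_mul (2 * (C.sc : ℝ))) (ae_sh.mono hpt)
  rw [hI] at hle
  have hq : (0 : ℝ) < C.q := by exact_mod_cast hC.hq
  have hc : (0 : ℝ) < C.cst := by exact_mod_cast hC.cs
  have : (0 : ℝ) < (C.cst : ℝ) / C.q ^ 2 := by positivity
  simp at hle
  linarith

end Pool.Agent.Lib.MP_834949_an
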