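import Pool.Agent.Lib.MP_834949_an.Check
import Pool.Agent.Lib.MP_834949_an.Main

/-!
Soundness of the checker.
-/

namespace Pool.Agent.Lib.MP_834949_an

open Finset

lemma sum_Ioo_eq {M : Type*} [AddCommMonoid M] (f : ℕ → M) (a z : ℕ) :
    ∑ β ∈ Ioo a z, f β = ∑ j ∈ range (z - (a + 1)), f (a + 1 + j) := by
  rw [← sum_Ico_eq_sum_range]
  congr 1

lemma df_aux (sc yd A P1 P2 lp ln H K : ℕ) (H' : ℤ) (hH : H' = H) (hK : K = 3 * H) :
    min ((sc : ℤ) * ((A : ℤ) - 4 * H') - 2 * ((P1 : ℤ) - P2 - H' * ((lp : ℤ) - ln)) -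
      sc * ((yd : ℤ) - H')) 0 =
    -(Nat.sub (Nat.add (Nat.mul sc (Nat.add yd K)) (Nat.mul 2 (Nat.add P1 (Nat.mul H ln))))
      (Nat.add (Nat.mul sc A) (Nat.mul 2 (Nat.add P2 (Nat.mul H lp)))) : ℕ) := by
  subst hH hK
  simp only [Nat.add_eq, Nat.mul_eq, Nat.sub_eq]
  have : (sc : ℤ) * ((A : ℤ) - 4 * H) - 2 * ((P1 : ℤ) - P2 - H * ((lp : ℤ) - ln)) -
      sc * ((yd : ℤ) - H) = ((sc * A + 2 * (P2 + H * lp) : ℕ) : ℤ) -
        ((sc * (yd + 3 * H) + 2 * (P1 + H * ln) : ℕ) : ℤ) := by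
    push_cast; ring
  rw [this]
  generalize sc * A + 2 * (P2 + H * lp) = X
  generalize sc * (yd + 3 * H) + 2 * (P1 + H * ln) = Y
  omega

lemma max_aux (y H : ℕ) (H' : ℤ) (hH : H' = H) : max ((y : ℤ) - H') 0 = (Nat.sub y H : ℕ) := by
  subst hH
  simp only [Nat.sub_eq]
  omega

namespace Cert

variable (C : Cert)

lemma ob_mono {α β : ℕ} (hab : α ≤ β) : ob C.h α ≤ ob C.h β := by
  rw [ob_eq, ob_eq]; split_ifs <;> omega

lemma ob_lt5 {β : ℕ} (hb : β < C.z) : ob C.h β < 5 := by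
  have : C.z = 16 * C.h + 5 := rfl
  rw [ob_eq]; split_ifs <;> omega

lemma g_add {α β : ℕ} (hab : α ≤ β) (hb : β < C.z) :
    C.g α β + C.g β α = (C.AA α β (ob C.h α) (ob C.h β) : ℤ) - 4 * 2147483648 := by
  have h1 := C.ob_mono hab
  have h2 := C.ob_lt5 hb
  have ht : C.tk α β (ob C.h α) (ob C.h β) = (4 * (C.h : ℤ) - (cell C.h α - cell C.h β)).toNat := by
    unfold tk cell
    simp only [Nat.add_eq, Nat.mul_eq, Nat.sub_eq]
    omega
  have e1 : C.τ (ob C.h α) (ob C.h β) (cell C.h α - cell C.h β) =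
      C.tI (ob C.h α) (ob C.h β) (C.tk α β (ob C.h α) (ob C.h β)) := by
    rw [ht, τ]
    split_ifs with h3 h4
    · rfl
    · rw [← h4]
      congr 2
      have : cell C.h α - cell C.h β ≤ 0 := by unfold cell; rw [h4]; omega
      rw [abs_of_nonpos this]; ring
    · omega
  have e2 : C.τ (ob C.h β) (ob C.h α) (cell C.h β - cell C.h α) =
      C.tI (ob C.h α) (ob C.h β) (C.tk α β (ob C.h α) (ob C.h β)) := by
    rw [ht, τ]
    split_ifs with h3 h4
    · omega
    · rw [h4]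
      congr 2
      have : 0 ≤ cell C.h β - cell C.h α := by unfold cell; rw [h4]; omega
      rw [abs_of_nonneg this]; ring
    · congr 2; ring
  unfold g
  rw [e1, e2, η, η, if_pos h2, if_pos (by omega)]
  unfold AA tI eI
  simp only [Nat.add_eq, Nat.mul_eq]
  push_cast
  ring

lemma df_eq (hd : ∀ α, α ≤ C.z → C.digOK α = true) {α β : ℕ} (hab : α ≤ β) (hb : β < C.z) :
    min (C.e2 α β - C.sc * C.yv α β) 0 = -(C.df α (ob C.h α) β : ℤ) := by
  unfold df e2
  rw [force_eq, C.g_add hab hb, C.S_eq hd hab hb.le]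
  exact df_aux _ _ _ _ _ _ _ 2147483648 6442450944 2147483648 (by norm_num) (by norm_num)

lemma e2f_eq (hd : ∀ α, α ≤ C.z → C.digOK α = true) {α β : ℕ} (hab : α ≤ β) (hb : β ≤ C.z) :
    C.e2f α β = C.e2 α β := by
  unfold e2f e2
  rw [C.S_eq hd hab hb]

lemma max_yv (α β : ℕ) : max (C.yv α β) 0 = (Nat.sub (C.yd α β) 2147483648 : ℕ) := by
  exact max_aux _ 2147483648 2147483648 (by norm_num)

lemma ypos_eq (α : ℕ) : ∑ β ∈ Ioo α C.z, max (C.yv α β) 0 = (C.ypos α : ℕ) := by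
  unfold ypos
  cases h : Nat.ble C.D0 α
  · have : α < C.D0 := by
      by_contra h2
      rw [Nat.ble_eq_true_of_le (not_lt.1 h2)] at h
      exact Bool.noConfusion h
    simp [C.yv_of_lt this]
  · simp_rw [sumN_eq, force_eq, C.max_yv, sum_Ioo_eq]
    generalize (2147483648 : ℕ) = H
    simp only [Nat.add_eq, Nat.sub_eq, Nat.succ_eq_add_one, cond_true]
    push_cast
    rfl

lemma accf_eq (hd : ∀ α, α ≤ C.z → C.digOK α = true) {α : ℕ} (ha : α < C.z) :
    C.accf α (ob C.h α) = C.acc α := by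
  unfold accf acc
  rw [C.e2f_eq hd le_rfl ha.le, sum_add_distrib, ← mul_sum,
    sum_congr rfl fun β hβ => C.df_eq hd (mem_Ioo.1 hβ).1.le (mem_Ioo.1 hβ).2, C.ypos_eq]
  simp_rw [sumN_eq, force_eq, sum_Ioo_eq]
  unfold yv
  simp only [Nat.add_eq, Nat.sub_eq, Nat.succ_eq_add_one]
  rw [sum_sub_distrib, sum_neg_distrib]
  simp only [sum_const, card_range, nsmul_eq_mul]
  push_cast
  ring

lemma cstf_eq (hd : ∀ α, α ≤ C.z → C.digOK α = true) : C.cstf = C.cst := by
  unfold cstf cst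
  rw [C.e2f_eq hd le_rfl le_rfl]
  simp_rw [sumN_eq, C.ypos_eq]
  push_cast
  ring

lemma rows_spec {a n : ℕ} (h : C.rowsOK a n = true) (α : ℕ) (h1 : a ≤ α) (h2 : α < a + n) :
    C.rowOK α = true := by
  have := allN_spec h (α - a) (by omega)
  rw [force_eq] at this
  rwa [show Nat.add a (α - a) = α by simp only [Nat.add_eq]; omega] at this

theorem good (hr : ∀ α, α < C.z → C.rowOK α = true) (hl : C.lastOK = true) (hc : C.clOK = true) :
    C.Good := by
  have hr' : ∀ α, α < C.z → C.digOK α = true ∧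
      (allN (Nat.sub C.D0 α) fun j => Nat.beq (force (Nat.add α j) (C.df α (ob C.h α))) 0) = true ∧
      0 ≤ 2 * C.q * C.e2f α C.z + C.p * C.accf α (ob C.h α) := by
    intro α hα
    have := hr α hα
    unfold rowOK at this
    rw [force_eq] at this
    simpa only [Bool.cond_eq_ite, Bool.if_false_right, Bool.and_eq_true, Bool.decide_eq_true,
      decide_eq_true_eq] using this
  have hl' : C.digOK C.z = true ∧ 1 ≤ C.q ∧ 0 < C.cstf := by
    unfold lastOK at hl
    rw [force_eq] at hl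
    simpa only [Bool.cond_eq_ite, Bool.if_false_right, Bool.and_eq_true, Bool.decide_eq_true,
      decide_eq_true_eq, Nat.ble_eq] using hl
  have hd : ∀ α, α ≤ C.z → C.digOK α = true := by
    intro α hα
    rcases hα.lt_or_eq with h | h
    · exact (hr' α h).1
    · rw [h]; exact hl'.1
  have hz : C.z = 16 * C.h + 5 := rfl
  have hD : C.D0 = 8 * C.h + 3 := rfl
  refine ⟨hl'.2.1, fun α β hab hb => ?_, fun α hα => ?_, ?_, fun P Q hP hQ n hn => ?_⟩
  · have h1 := allN_spec (hr' α (by omega)).2.1 (β - α) (by simp only [Nat.sub_eq]; omega)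
    rw [force_eq, show Nat.add α (β - α) = β by simp only [Nat.add_eq]; omega] at h1
    have h2 := C.df_eq hd hab (show β < C.z by omega)
    rw [Nat.eq_of_beq_eq_true h1, C.yv_of_lt (show α < C.D0 by omega)] at h2
    simp only [mul_zero, sub_zero, Nat.cast_zero, neg_zero] at h2
    omega
  · rw [← C.accf_eq hd hα, ← C.e2f_eq hd hα.le le_rfl]
    exact (hr' α hα).2.2
  · rw [← C.cstf_eq hd]; exact hl'.2.2
  · rw [abs_le] at hn
    have := allN_spec hc (n + 4 * C.h).toNat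
      (by simp only [Nat.succ_eq_add_one, Nat.mul_eq]; omega)
    rw [show (((n + 4 * C.h).toNat : ℕ) : ℤ) - 4 * C.h = n by omega] at this
    unfold clEq at this
    simp only [Bool.cond_eq_ite, Bool.if_false_right, Bool.and_eq_true,
      decide_eq_true_eq] at this
    interval_cases P <;> interval_cases Q <;> simp [sum_range_succ, PP, QQ] <;> omega

end Cert

end Pool.Agent.Lib.MP_834949_an
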