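import Pool.Agent.Lib.MP_834949_an.Rows0
import Pool.Agent.Lib.MP_834949_an.Rows1
import Pool.Agent.Lib.MP_834949_an.Rows2
import Pool.Agent.Lib.MP_834949_an.Rows3
import Pool.Agent.Lib.MP_834949_an.Rows4
import Pool.Agent.Lib.MP_834949_an.Rows5
import Pool.Agent.Lib.MP_834949_an.Sound

namespace Pool.Agent.Lib.MP_834949_an

theorem last_ok : cert.lastOK = true := by decide +kernel

theorem cl_ok : cert.clOK = true := by decide +kernel

theorem cert_good : cert.Good := by
  refine cert.good (fun α hα => ?_) last_ok cl_ok
  have hz : cert.z = 805 := rfl
  by_cases h0 : α < 22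
  · exact cert.rows_spec rows0 α (by omega) (by omega)
  by_cases h1 : α < 44
  · exact cert.rows_spec rows1 α (by omega) (by omega)
  by_cases h2 : α < 67
  · exact cert.rows_spec rows2 α (by omega) (by omega)
  by_cases h3 : α < 91
  · exact cert.rows_spec rows3 α (by omega) (by omega)
  by_cases h4 : α < 115
  · exact cert.rows_spec rows4 α (by omega) (by omega)
  by_cases h5 : α < 140
  · exact cert.rows_spec rows5 α (by omega) (by omega)
  by_cases h6 : α < 166
  · exact cert.rows_spec rows6 α (by omega) (by omega)
  by_cases h7 : α < 192
  · exact cert.rows_spec rows7 α (by omega) (by omega)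
  by_cases h8 : α < 220
  · exact cert.rows_spec rows8 α (by omega) (by omega)
  by_cases h9 : α < 249
  · exact cert.rows_spec rows9 α (by omega) (by omega)
  by_cases h10 : α < 279
  · exact cert.rows_spec rows10 α (by omega) (by omega)
  by_cases h11 : α < 311
  · exact cert.rows_spec rows11 α (by omega) (by omega)
  by_cases h12 : α < 344
  · exact cert.rows_spec rows12 α (by omega) (by omega)
  by_cases h13 : α < 380
  · exact cert.rows_spec rows13 α (by omega) (by omega)
  by_cases h14 : α < 418
  · exact cert.rows_spec rows14 α (by omega) (by omega)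
  by_cases h15 : α < 457
  · exact cert.rows_spec rows15 α (by omega) (by omega)
  by_cases h16 : α < 497
  · exact cert.rows_spec rows16 α (by omega) (by omega)
  by_cases h17 : α < 538
  · exact cert.rows_spec rows17 α (by omega) (by omega)
  by_cases h18 : α < 580
  · exact cert.rows_spec rows18 α (by omega) (by omega)
  by_cases h19 : α < 623
  · exact cert.rows_spec rows19 α (by omega) (by omega)
  by_cases h20 : α < 667
  · exact cert.rows_spec rows20 α (by omega) (by omega)
  by_cases h21 : α < 712
  · exact cert.rows_spec rows21 α (by omega) (by omega)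
  by_cases h22 : α < 758
  · exact cert.rows_spec rows22 α (by omega) (by omega)
  exact cert.rows_spec rows23 α (by omega) (by omega)

end Pool.Agent.Lib.MP_834949_an
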