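import Mathlib

/-!
Shift-averaged cell masses of probability measures on the line.
For a shift `s` in `[0,1)` the cells are the sets where the floor of `x + s` is constant.
The Toeplitz sums of products of cell masses, averaged over the shift, depend only on the law
of the difference.
-/

namespace Pool.Agent.Lib.MP_834949_an

open MeasureTheory Set

/-- Indicator of the cell with index `n`. -/
noncomputable def chi (n : ℤ) (z : ℝ) : ℝ := if ⌊z⌋ = n then 1 else 0

/-- Mass of the cell `i` for the shift `s`. -/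
noncomputable def cm (μ : Measure ℝ) (i : ℤ) (s : ℝ) : ℝ := ∫ x, chi i (x + s) ∂μ

/-- The law of the shift. -/
noncomputable def sh : Measure ℝ := volume.restrict (Ico 0 1)

instance : IsProbabilityMeasure sh := ⟨by simp [sh]⟩

/-- Shift-averaged cell mass. -/
noncomputable def kap (μ : Measure ℝ) (n : ℤ) : ℝ := ∫ s, cm μ n s ∂sh

/-- The reflected measure. -/
noncomputable def rf (μ : Measure ℝ) : Measure ℝ := μ.map (fun x => -x)

instance (μ : Measure ℝ) [IsProbabilityMeasure μ] : IsProbabilityMeasure (rf μ) :=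
  Measure.isProbabilityMeasure_map (by fun_prop)

lemma measurable_chi (n : ℤ) : Measurable (chi n) := by
  unfold chi
  exact Measurable.ite (Int.measurable_floor (measurableSet_singleton n)) measurable_const
    measurable_const

lemma chi_nonneg (n : ℤ) (z : ℝ) : 0 ≤ chi n z := by unfold chi; split_ifs <;> norm_num

lemma chi_le_one (n : ℤ) (z : ℝ) : chi n z ≤ 1 := by unfold chi; split_ifs <;> norm_num

lemma integrable_bdd {X : Type*} [MeasurableSpace X] (μ : Measure X) [IsFiniteMeasure μ]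
    {f : X → ℝ} (hf : Measurable f) (h0 : ∀ x, 0 ≤ f x) (h1 : ∀ x, f x ≤ 1) : Integrable f μ :=
  Integrable.of_bound hf.aestronglyMeasurable 1
    (ae_of_all _ fun x => by rw [Real.norm_eq_abs, abs_of_nonneg (h0 x)]; exact h1 x)

lemma cm_nonneg (μ : Measure ℝ) (i : ℤ) (s : ℝ) : 0 ≤ cm μ i s :=
  integral_nonneg fun _ => chi_nonneg _ _

lemma integrable_chi (μ : Measure ℝ) [IsFiniteMeasure μ] (i : ℤ) (s : ℝ) :
    Integrable (fun x => chi i (x + s)) μ :=
  integrable_bdd μ ((measurable_chi i).comp (by fun_prop)) (fun _ => chi_nonneg _ _)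
    (fun _ => chi_le_one _ _)

lemma cm_le_one (μ : Measure ℝ) [IsProbabilityMeasure μ] (i : ℤ) (s : ℝ) : cm μ i s ≤ 1 := by
  have := integral_mono (integrable_chi μ i s) (integrable_const (1 : ℝ))
    (fun x => chi_le_one i (x + s))
  simpa [cm] using this

lemma measurable_cm (μ : Measure ℝ) [SFinite μ] (i : ℤ) : Measurable (cm μ i) := by
  have h : Measurable (fun p : ℝ × ℝ => chi i (p.2 + p.1)) := (measurable_chi i).comp (by fun_prop)
  exact (h.stronglyMeasurable.integral_prod_right' (ν := μ)).measurable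

lemma integrable_cm_mul (μ ν : Measure ℝ) [IsProbabilityMeasure μ] [IsProbabilityMeasure ν]
    (i j : ℤ) : Integrable (fun s => cm μ i s * cm ν j s) sh :=
  integrable_bdd sh ((measurable_cm μ i).mul (measurable_cm ν j))
    (fun _ => mul_nonneg (cm_nonneg _ _ _) (cm_nonneg _ _ _))
    (fun _ => mul_le_one₀ (cm_le_one _ _ _) (cm_nonneg _ _ _) (cm_le_one _ _ _))

lemma integral_sh (f : ℝ → ℝ) : ∫ s, f s ∂sh = ∫ s in (0 : ℝ)..1, f s := by
  rw [intervalIntegral.integral_of_le zero_le_one, sh, integral_Ico_eq_integral_Ioo,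
    integral_Ioc_eq_integral_Ioo]

lemma ae_sh : ∀ᵐ s ∂sh, s ∈ Ico (0 : ℝ) 1 := ae_restrict_mem measurableSet_Ico

/-- Indicator that the two cell indices differ by `n`. -/
noncomputable def dind (n : ℤ) (x y s : ℝ) : ℝ := if ⌊x + s⌋ - ⌊y + s⌋ = n then 1 else 0

lemma shift_avg (n : ℤ) (x y : ℝ) :
    ∫ s, dind n x y s ∂sh = ∫ s, chi n (x - y + s) ∂sh := by
  have hp : Function.Periodic (dind n x y) 1 := by
    intro s
    unfold dind
    rw [← add_assoc, ← add_assoc, Int.floor_add_one, Int.floor_add_one]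
    congr 2
    ring
  have h1 := hp.intervalIntegral_add_eq 0 (-y)
  have h2 := intervalIntegral.integral_comp_add_right (a := 0) (b := 1) (dind n x y) (-y)
  rw [integral_sh, show (∫ s in (0 : ℝ)..1, dind n x y s) = ∫ s in (0 : ℝ)..0 + 1, dind n x y s by
    simp, h1, show -y + 1 = 1 + -y by ring, show (∫ s in (-y)..1 + -y, dind n x y s) =
      ∫ s in (0 + -y)..1 + -y, dind n x y s by simp, ← h2, ← integral_sh]
  refine integral_congr_ae (ae_sh.mono fun s hs => ?_)
  simp only [dind, chi]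
  have e1 : x + (s + -y) = x - y + s := by ring
  have e2 : y + (s + -y) = s := by ring
  have e3 : ⌊s⌋ = 0 := Int.floor_eq_zero_iff.2 hs
  rw [e1, e2, e3, sub_zero]

lemma floor_mem {A : ℕ} {x s : ℝ} (hx : |x| ≤ A) (hs : s ∈ Ico (0 : ℝ) 1) :
    ⌊x + s⌋ ∈ Finset.Icc (-(A : ℤ)) A := by
  rw [abs_le] at hx
  rw [Finset.mem_Icc]
  constructor
  · rw [Int.le_floor]; push_cast; linarith [hs.1, hx.1]
  · rw [← Int.lt_add_one_iff, Int.floor_lt]; push_cast; linarith [hs.2, hx.2]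

lemma sum_chi {A : ℕ} {x s : ℝ} (hx : |x| ≤ A) (hs : s ∈ Ico (0 : ℝ) 1) (φ : ℤ → ℝ) :
    ∑ i ∈ Finset.Icc (-(A : ℤ)) A, chi i (x + s) * φ i = φ ⌊x + s⌋ := by
  rw [Finset.sum_eq_single_of_mem _ (floor_mem hx hs)]
  · simp [chi]
  · intro b _ hb
    simp [chi, Ne.symm hb]

lemma sum_cm (μ : Measure ℝ) [IsProbabilityMeasure μ] {A : ℕ} (hμ : ∀ᵐ x ∂μ, |x| ≤ (A : ℝ)) {s : ℝ}
    (hs : s ∈ Ico (0 : ℝ) 1) : ∑ i ∈ Finset.Icc (-(A : ℤ)) A, cm μ i s = 1 := by
  unfold cm
  rw [← integral_finsetSum _ fun i _ => integrable_chi μ i s]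
  have : ∀ᵐ x ∂μ, ∑ i ∈ Finset.Icc (-(A : ℤ)) A, chi i (x + s) = (1 : ℝ) :=
    hμ.mono fun x hx => by simpa using sum_chi hx hs (fun _ => 1)
  rw [integral_congr_ae this]
  simp

lemma measurable_dind (n : ℤ) : Measurable (fun p : ℝ × (ℝ × ℝ) => dind n p.2.1 p.2.2 p.1) := by
  unfold dind
  refine Measurable.ite ?_ measurable_const measurable_const
  have : Measurable (fun p : ℝ × (ℝ × ℝ) => ⌊p.2.1 + p.1⌋ - ⌊p.2.2 + p.1⌋) :=
    (Int.measurable_floor.comp (by fun_prop)).sub (Int.measurable_floor.comp (by fun_prop))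
  exact this (measurableSet_singleton n)

lemma dind_nonneg (n : ℤ) (x y s : ℝ) : 0 ≤ dind n x y s := by
  unfold dind; split_ifs <;> norm_num

lemma dind_le_one (n : ℤ) (x y s : ℝ) : dind n x y s ≤ 1 := by
  unfold dind; split_ifs <;> norm_num

lemma toeplitz_pt (μ ν : Measure ℝ) [IsProbabilityMeasure μ] [IsProbabilityMeasure ν] {A B : ℕ}
    (hμ : ∀ᵐ x ∂μ, |x| ≤ (A : ℝ)) (hν : ∀ᵐ x ∂ν, |x| ≤ (B : ℝ)) (n : ℤ) {s : ℝ} (hs : s ∈ Ico (0 : ℝ) 1) :
    ∑ i ∈ Finset.Icc (-(A : ℤ)) A, ∑ j ∈ Finset.Icc (-(B : ℤ)) B,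
      (if i - j = n then cm μ i s * cm ν j s else 0) =
      ∫ z, dind n z.1 z.2 s ∂(μ.prod ν) := by
  have hint : ∀ i j : ℤ, Integrable (fun z : ℝ × ℝ =>
      chi i (z.1 + s) * (chi j (z.2 + s) * if i - j = n then 1 else 0)) (μ.prod ν) := by
    intro i j
    refine integrable_bdd _ (((measurable_chi i).comp (by fun_prop)).mul
      (((measurable_chi j).comp (by fun_prop)).mul measurable_const)) (fun z => ?_) (fun z => ?_)
    · exact mul_nonneg (chi_nonneg _ _) (mul_nonneg (chi_nonneg _ _) (by split_ifs <;> norm_num))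
    · exact mul_le_one₀ (chi_le_one _ _) (mul_nonneg (chi_nonneg _ _) (by split_ifs <;> norm_num))
        (mul_le_one₀ (chi_le_one _ _) (by split_ifs <;> norm_num) (by split_ifs <;> norm_num))
  have h1 : ∀ i j : ℤ, (if i - j = n then cm μ i s * cm ν j s else 0) =
      ∫ z, chi i (z.1 + s) * (chi j (z.2 + s) * if i - j = n then 1 else 0) ∂(μ.prod ν) := by
    intro i j
    split_ifs
    · simp only [mul_one]
      exact (integral_prod_mul (fun x => chi i (x + s)) (fun y => chi j (y + s))).symm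
    · simp
  simp_rw [h1]
  rw [Finset.sum_congr rfl fun i _ => (integral_finsetSum _ fun j _ => hint i j).symm,
    ← integral_finsetSum _ fun i _ => integrable_finsetSum _ fun j _ => hint i j]
  have ha : ∀ᵐ z ∂(μ.prod ν), |z.1| ≤ (A : ℝ) := Measure.quasiMeasurePreserving_fst.ae hμ
  have hb : ∀ᵐ z ∂(μ.prod ν), |z.2| ≤ (B : ℝ) := Measure.quasiMeasurePreserving_snd.ae hν
  refine integral_congr_ae ((ha.and hb).mono fun z hz => ?_)
  simp only [← Finset.mul_sum]
  rw [sum_chi hz.1 hs (fun i => ∑ j ∈ Finset.Icc (-(B : ℤ)) B,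
    chi j (z.2 + s) * if i - j = n then 1 else 0), sum_chi hz.2 hs]
  rfl

lemma cm_conv (μ ν : Measure ℝ) [IsProbabilityMeasure μ] [IsProbabilityMeasure ν] (n : ℤ) (s : ℝ) :
    cm (μ ∗ rf ν) n s = ∫ z, chi n (z.1 - z.2 + s) ∂(μ.prod ν) := by
  have hm : Measurable (fun x => chi n (x + s)) := (measurable_chi n).comp (by fun_prop)
  have e : μ.prod (rf ν) = (μ.prod ν).map (Prod.map id (fun x => -x)) := by
    rw [← Measure.map_prod_map _ _ measurable_id (by fun_prop), Measure.map_id, rf]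
  unfold cm Measure.conv
  rw [e, Measure.map_map (by fun_prop) (by fun_prop), integral_map (by fun_prop)
    hm.aestronglyMeasurable]
  simp [sub_eq_add_neg]

/-- The key identity. -/
theorem toeplitz (μ ν : Measure ℝ) [IsProbabilityMeasure μ] [IsProbabilityMeasure ν] {A B : ℕ}
    (hμ : ∀ᵐ x ∂μ, |x| ≤ (A : ℝ)) (hν : ∀ᵐ x ∂ν, |x| ≤ (B : ℝ)) (n : ℤ) :
    ∑ i ∈ Finset.Icc (-(A : ℤ)) A, ∑ j ∈ Finset.Icc (-(B : ℤ)) B,
      (if i - j = n then ∫ s, cm μ i s * cm ν j s ∂sh else 0) = kap (μ ∗ rf ν) n := by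
  have hint : ∀ i j : ℤ, Integrable (fun s => if i - j = n then cm μ i s * cm ν j s else 0) sh := by
    intro i j
    split_ifs
    · exact integrable_cm_mul μ ν i j
    · exact integrable_const _
  have h1 : ∀ i j : ℤ, (if i - j = n then ∫ s, cm μ i s * cm ν j s ∂sh else 0) =
      ∫ s, (if i - j = n then cm μ i s * cm ν j s else 0) ∂sh := by
    intro i j
    split_ifs <;> simp
  simp_rw [h1]
  rw [Finset.sum_congr rfl fun i _ => (integral_finsetSum _ fun j _ => hint i j).symm,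
    ← integral_finsetSum _ fun i _ => integrable_finsetSum _ fun j _ => hint i j,
    integral_congr_ae (ae_sh.mono fun s hs => toeplitz_pt μ ν hμ hν n hs)]
  have hi1 : Integrable (Function.uncurry fun (s : ℝ) (z : ℝ × ℝ) => dind n z.1 z.2 s)
      (sh.prod (μ.prod ν)) :=
    integrable_bdd _ (measurable_dind n) (fun _ => dind_nonneg _ _ _ _)
      (fun _ => dind_le_one _ _ _ _)
  have hi2 : Integrable (Function.uncurry fun (s : ℝ) (z : ℝ × ℝ) => chi n (z.1 - z.2 + s))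
      (sh.prod (μ.prod ν)) :=
    integrable_bdd _ ((measurable_chi n).comp (by fun_prop)) (fun _ => chi_nonneg _ _)
      (fun _ => chi_le_one _ _)
  rw [integral_integral_swap hi1]
  simp_rw [shift_avg]
  rw [← integral_integral_swap hi2, kap]
  simp_rw [cm_conv]

/-- Convolution powers. -/
noncomputable def pw (ν : Measure ℝ) : ℕ → Measure ℝ
  | 0 => Measure.dirac 0
  | p + 1 => pw ν p ∗ ν

instance (ν : Measure ℝ) [IsProbabilityMeasure ν] (p : ℕ) : IsProbabilityMeasure (pw ν p) := by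
  induction p with
  | zero => unfold pw; infer_instance
  | succ p ih => unfold pw; infer_instance

lemma pw_add (ν : Measure ℝ) [IsProbabilityMeasure ν] (p q : ℕ) :
    pw ν (p + q) = pw ν p ∗ pw ν q := by
  induction q with
  | zero => simp [pw]
  | succ q ih => rw [← add_assoc, pw, pw, ih, Measure.conv_assoc]

lemma rf_conv (μ ν : Measure ℝ) [SFinite μ] [SFinite ν] : rf (μ ∗ ν) = rf μ ∗ rf ν :=
  Measure.map_conv_addMonoidHom (μ := μ) (ν := ν) (negAddMonoidHom : ℝ →+ ℝ)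
    (show Measurable (fun x : ℝ => -x) by fun_prop)

lemma rf_rf (μ : Measure ℝ) : rf (rf μ) = μ := by
  unfold rf
  rw [Measure.map_map (by fun_prop) (by fun_prop)]
  simp

lemma rf_pw (ν : Measure ℝ) [IsProbabilityMeasure ν] (p : ℕ) : rf (pw ν p) = pw (rf ν) p := by
  induction p with
  | zero =>
    unfold pw rf
    rw [Measure.map_dirac' (by fun_prop)]
    simp
  | succ p ih => rw [pw, pw, rf_conv, ih]

/-- The law of a sum of `p` copies minus a sum of `q` copies. -/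
noncomputable def lam (ν : Measure ℝ) (p q : ℕ) : Measure ℝ := pw ν p ∗ pw (rf ν) q

instance (ν : Measure ℝ) [IsProbabilityMeasure ν] (p q : ℕ) :
    IsProbabilityMeasure (lam ν p q) := by unfold lam; infer_instance

lemma rf_lam (ν : Measure ℝ) [IsProbabilityMeasure ν] (p q : ℕ) :
    rf (lam ν p q) = lam ν q p := by
  unfold lam
  rw [rf_conv, rf_pw, rf_pw, rf_rf, Measure.conv_comm]

lemma lam_conv (ν : Measure ℝ) [IsProbabilityMeasure ν] (p q p' q' : ℕ) :
    lam ν p q ∗ rf (lam ν p' q') = lam ν (p + q') (q + p') := by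
  rw [rf_lam]
  unfold lam
  rw [pw_add, pw_add, Measure.conv_assoc, Measure.conv_assoc, ← Measure.conv_assoc (pw (rf ν) q),
    ← Measure.conv_assoc (pw ν q'), Measure.conv_comm (pw (rf ν) q) (pw ν q')]

lemma ae_conv {μ ν : Measure ℝ} [SFinite μ] [SFinite ν] {A B : ℝ} (hμ : ∀ᵐ x ∂μ, |x| ≤ A)
    (hν : ∀ᵐ x ∂ν, |x| ≤ B) : ∀ᵐ x ∂(μ ∗ ν), |x| ≤ A + B := by
  unfold Measure.conv
  rw [ae_map_iff (by fun_prop) (measurableSet_le (by fun_prop) measurable_const)]
  have ha : ∀ᵐ z ∂(μ.prod ν), |z.1| ≤ A := Measure.quasiMeasurePreserving_fst.ae hμ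
  have hb : ∀ᵐ z ∂(μ.prod ν), |z.2| ≤ B := Measure.quasiMeasurePreserving_snd.ae hν
  exact (ha.and hb).mono fun z hz => (abs_add_le _ _).trans (add_le_add hz.1 hz.2)

lemma ae_rf {μ : Measure ℝ} {A : ℝ} (hμ : ∀ᵐ x ∂μ, |x| ≤ A) : ∀ᵐ x ∂(rf μ), |x| ≤ A := by
  unfold rf
  rw [ae_map_iff (by fun_prop) (measurableSet_le (by fun_prop) measurable_const)]
  simpa using hμ

lemma ae_pw {ν : Measure ℝ} [IsProbabilityMeasure ν] {h : ℕ} (hν : ∀ᵐ x ∂ν, |x| ≤ (h : ℝ)) (p : ℕ) :
    ∀ᵐ x ∂(pw ν p), |x| ≤ ((p * h : ℕ) : ℝ) := by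
  induction p with
  | zero =>
    unfold pw
    rw [ae_dirac_iff (measurableSet_le (by fun_prop) measurable_const)]
    simp
  | succ p ih =>
    have := ae_conv ih hν
    unfold pw
    refine this.mono fun x hx => ?_
    push_cast at hx ⊢
    linarith

lemma ae_lam {ν : Measure ℝ} [IsProbabilityMeasure ν] {h : ℕ} (hν : ∀ᵐ x ∂ν, |x| ≤ (h : ℝ)) (p q : ℕ) :
    ∀ᵐ x ∂(lam ν p q), |x| ≤ (((p + q) * h : ℕ) : ℝ) := by
  refine (ae_conv (ae_pw hν p) (ae_pw (ae_rf hν) q)).mono fun x hx => ?_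
  push_cast at hx ⊢
  linarith

lemma cm_eq (μ : Measure ℝ) (i : ℤ) (s : ℝ) : cm μ i s = μ.real {x | ⌊x + s⌋ = i} := by
  have hm : MeasurableSet {x : ℝ | ⌊x + s⌋ = i} :=
    (Int.measurable_floor.comp (show Measurable fun x : ℝ => x + s by fun_prop))
      (measurableSet_singleton i)
  rw [← integral_indicator_one hm, cm]
  refine integral_congr_ae (ae_of_all _ fun x => ?_)
  simp only [chi, indicator, mem_ofPred_eq, Pi.one_apply]

lemma cm_le {μ : Measure ℝ} [IsFiniteMeasure μ] {m : ℝ}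
    (hm : ∀ a : ℝ, μ.real (Icc a (a + 1)) ≤ m) (i : ℤ) (s : ℝ) : cm μ i s ≤ m := by
  rw [cm_eq]
  refine le_trans (measureReal_mono ?_) (hm (i - s))
  intro x hx
  have h1 := Int.floor_le (x + s)
  have h2 := Int.lt_floor_add_one (x + s)
  rw [mem_ofPred_eq] at hx
  rw [hx] at h1 h2
  constructor <;> linarith

lemma rf_Icc {μ : Measure ℝ} {m : ℝ} (hm : ∀ a : ℝ, μ.real (Icc a (a + 1)) ≤ m) (a : ℝ) :
    (rf μ).real (Icc a (a + 1)) ≤ m := by
  unfold rf
  rw [map_measureReal_apply (by fun_prop) measurableSet_Icc]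
  have : (fun x : ℝ => -x) ⁻¹' Icc a (a + 1) = Icc (-a - 1) (-a - 1 + 1) := by
    ext x
    simp only [mem_preimage, mem_Icc]
    constructor <;> rintro ⟨h1, h2⟩ <;> constructor <;> linarith
  rw [this]
  exact hm _

lemma lam_two (ν : Measure ℝ) [IsProbabilityMeasure ν] : lam ν 2 0 = ν ∗ ν := by
  simp [lam, pw]

lemma cm_one (ν : Measure ℝ) {s : ℝ} (hs : s ∈ Ico (0 : ℝ) 1) : cm (lam ν 0 0) 0 s = 1 := by
  simpa [lam, pw, cm, chi] using hs

end Pool.Agent.Lib.MP_834949_an
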