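import Pool.Agent.Lib.MP_834949_an.Data

namespace Pool.Agent.Lib.MP_834949_an

theorem rows0 : cert.rowsOK 0 22 = true := by decide +kernel

theorem rows1 : cert.rowsOK 22 22 = true := by decide +kernel

theorem rows2 : cert.rowsOK 44 23 = true := by decide +kernel

theorem rows3 : cert.rowsOK 67 24 = true := by decide +kernel

end Pool.Agent.Lib.MP_834949_an
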