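import Pool.Agent.Lib.MP_834949_an.Meas

/-!
Tent masses of probability measures on the line, piecewise linear interpolation of sequences,
and the exact identity for Toeplitz sums of products of tent masses.
-/

set_option linter.unusedSectionVars false

namespace Pool.Agent.Lib.MP_834949_an

open MeasureTheory Set

/-- Piecewise linear interpolation of a sequence. -/
noncomputable def itp (τ : ℤ → ℝ) (x : ℝ) : ℝ :=
  (1 - Int.fract x) * τ ⌊x⌋ + Int.fract x * τ (⌊x⌋ + 1)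

/-- The tent function centred at `i`. -/
noncomputable def tn (i : ℤ) (x : ℝ) : ℝ :=
  (if ⌊x⌋ = i then 1 - Int.fract x else 0) + (if ⌊x⌋ = i - 1 then Int.fract x else 0)

/-- The covariance kernel of the randomised rounding. -/
noncomputable def ph (x y : ℝ) : ℝ := min (Int.fract x) (Int.fract y) - Int.fract x * Int.fract y

/-- Tent mass. -/
noncomputable def tm (μ : Measure ℝ) (i : ℤ) : ℝ := ∫ x, tn i x ∂μ

/-- Integral of the interpolation. -/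
noncomputable def IT (μ : Measure ℝ) (τ : ℤ → ℝ) : ℝ := ∫ x, itp τ x ∂μ

/-- The correction functional. -/
noncomputable def LL (μ ν : Measure ℝ) (κ : ℤ → ℝ) : ℝ :=
  ∫ z, κ (⌊z.1⌋ - ⌊z.2⌋) * ph z.1 z.2 ∂(μ.prod ν)

/-- Second difference. -/
def dd (τ : ℤ → ℝ) (m : ℤ) : ℝ := τ (m - 1) - 2 * τ m + τ (m + 1)

/-- Support in `[-A,A]`. -/
def Sp (μ : Measure ℝ) (A : ℕ) : Prop := ∀ᵐ x ∂μ, |x| ≤ (A : ℝ)

lemma seq_bd (τ : ℤ → ℝ) (A : ℝ) : ∃ K, 0 ≤ K ∧ ∀ n : ℤ, |(n : ℝ)| ≤ A → |τ n| ≤ K := by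
  refine ⟨∑ n ∈ Finset.Icc (-⌈A⌉) ⌈A⌉, |τ n|, Finset.sum_nonneg fun _ _ => abs_nonneg _,
    fun n hn => Finset.single_le_sum (f := fun n => |τ n|) (fun _ _ => abs_nonneg _) ?_⟩
  rw [abs_le] at hn
  have := Int.le_ceil A
  rw [Finset.mem_Icc]
  constructor
  · exact_mod_cast (show ((-⌈A⌉ : ℤ) : ℝ) ≤ n by push_cast; linarith)
  · exact_mod_cast (show (n : ℝ) ≤ (⌈A⌉ : ℤ) by linarith)

lemma abs_floor_le {x A : ℝ} (hx : |x| ≤ A) : |((⌊x⌋ : ℤ) : ℝ)| ≤ A + 1 := by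
  rw [abs_le] at hx ⊢
  constructor <;> linarith [Int.floor_le x, Int.lt_floor_add_one x]

lemma meas_seq (τ : ℤ → ℝ) : Measurable τ := measurable_from_top

lemma measurable_itp (τ : ℤ → ℝ) : Measurable (itp τ) := by
  unfold itp
  have := (meas_seq τ).comp (Int.measurable_floor (R := ℝ))
  have := (meas_seq fun n => τ (n + 1)).comp (Int.measurable_floor (R := ℝ))
  exact ((measurable_const.sub measurable_fract).mul ‹_›).add (measurable_fract.mul ‹_›)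

lemma itp_bd (τ : ℤ → ℝ) (A : ℝ) : ∃ K, ∀ x, |x| ≤ A → |itp τ x| ≤ K := by
  obtain ⟨K, -, hK⟩ := seq_bd τ (A + 2)
  refine ⟨K, fun x hx => ?_⟩
  have h0 := abs_floor_le hx
  have h1 := abs_le.1 (hK ⌊x⌋ (by linarith))
  have h2 := abs_le.1 (hK (⌊x⌋ + 1) (by
    push_cast
    rw [abs_le] at h0 ⊢
    constructor <;> linarith))
  have := Int.fract_nonneg x
  have := Int.fract_lt_one x
  unfold itp
  rw [abs_le]
  constructor <;> nlinarith

lemma ph_nonneg (x y : ℝ) : 0 ≤ ph x y := by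
  have := Int.fract_nonneg x
  have := Int.fract_lt_one x
  have := Int.fract_nonneg y
  have := Int.fract_lt_one y
  unfold ph
  rcases le_total (Int.fract x) (Int.fract y) with h | h
  · rw [min_eq_left h]; nlinarith
  · rw [min_eq_right h]; nlinarith

lemma ph_le (x y : ℝ) : ph x y ≤ 1 / 4 := by
  have := Int.fract_nonneg x
  have := Int.fract_nonneg y
  unfold ph
  rcases le_total (Int.fract x) (Int.fract y) with h | h
  · rw [min_eq_left h]; nlinarith [sq_nonneg (Int.fract x - 1 / 2)]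
  · rw [min_eq_right h]; nlinarith [sq_nonneg (Int.fract y - 1 / 2)]

lemma ph_comm (x y : ℝ) : ph x y = ph y x := by unfold ph; rw [min_comm, mul_comm]

lemma measurable_ph : Measurable fun z : ℝ × ℝ => ph z.1 z.2 := by
  unfold ph
  have h1 : Measurable fun z : ℝ × ℝ => Int.fract z.1 := measurable_fract.comp measurable_fst
  have h2 : Measurable fun z : ℝ × ℝ => Int.fract z.2 := measurable_fract.comp measurable_snd
  exact (h1.min h2).sub (h1.mul h2)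

lemma measurable_fl : Measurable fun z : ℝ × ℝ => ⌊z.1⌋ - ⌊z.2⌋ :=
  (Int.measurable_floor.comp measurable_fst).sub (Int.measurable_floor.comp measurable_snd)

variable {μ ν : Measure ℝ} [IsProbabilityMeasure μ] [IsProbabilityMeasure ν] {A B : ℕ}

lemma Sp.prod (hμ : Sp μ A) (hν : Sp ν B) :
    ∀ᵐ z ∂(μ.prod ν), |z.1| ≤ (A : ℝ) ∧ |z.2| ≤ (B : ℝ) :=
  (Measure.quasiMeasurePreserving_fst.ae hμ).and (Measure.quasiMeasurePreserving_snd.ae hν)

lemma Sp.int1 (hμ : Sp μ A) {f : ℝ → ℝ} (hf : Measurable f)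
    (hb : ∃ K, ∀ x, |x| ≤ (A : ℝ) → |f x| ≤ K) : Integrable f μ := by
  obtain ⟨K, hK⟩ := hb
  exact Integrable.of_bound hf.aestronglyMeasurable K (hμ.mono fun x hx => hK x hx)

lemma Sp.int2 (hμ : Sp μ A) (hν : Sp ν B) {f : ℝ × ℝ → ℝ} (hf : Measurable f)
    (hb : ∃ K, ∀ x y, |x| ≤ (A : ℝ) → |y| ≤ (B : ℝ) → |f (x, y)| ≤ K) :
    Integrable f (μ.prod ν) := by
  obtain ⟨K, hK⟩ := hb
  exact Integrable.of_bound hf.aestronglyMeasurable K
    ((hμ.prod hν).mono fun z hz => hK z.1 z.2 hz.1 hz.2)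

lemma Sp.int_itp (hμ : Sp μ A) (τ : ℤ → ℝ) : Integrable (itp τ) μ :=
  hμ.int1 (measurable_itp τ) (itp_bd τ A)

lemma Sp.int_itp2 (hμ : Sp μ A) (hν : Sp ν B) (τ : ℤ → ℝ) :
    Integrable (fun z : ℝ × ℝ => itp τ (z.1 - z.2)) (μ.prod ν) := by
  obtain ⟨K, hK⟩ := itp_bd τ (A + B)
  exact hμ.int2 hν ((measurable_itp τ).comp (by fun_prop))
    ⟨K, fun x y hx hy => hK _ ((abs_sub x y).trans (add_le_add hx hy))⟩

lemma Sp.int_LL (hμ : Sp μ A) (hν : Sp ν B) (κ : ℤ → ℝ) :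
    Integrable (fun z : ℝ × ℝ => κ (⌊z.1⌋ - ⌊z.2⌋) * ph z.1 z.2) (μ.prod ν) := by
  obtain ⟨K, hK0, hK⟩ := seq_bd κ (A + 1 + (B + 1))
  refine hμ.int2 hν (((meas_seq κ).comp measurable_fl).mul measurable_ph)
    ⟨K * 1, fun x y hx hy => ?_⟩
  rw [abs_mul]
  refine mul_le_mul (hK _ ?_) ?_ (abs_nonneg _) hK0
  · push_cast
    exact (abs_sub _ _).trans (add_le_add (abs_floor_le hx) (abs_floor_le hy))
  · rw [abs_of_nonneg (ph_nonneg _ _)]; linarith [ph_le x y]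

lemma tn_eq (i : ℤ) : tn i = itp fun j => if j = i then 1 else 0 := by
  ext x
  unfold tn itp
  have : (⌊x⌋ + 1 = i) ↔ ⌊x⌋ = i - 1 := by omega
  simp only [this]
  split_ifs <;> ring

lemma tn_nonneg (i : ℤ) (x : ℝ) : 0 ≤ tn i x := by
  have := Int.fract_nonneg x
  have := Int.fract_lt_one x
  unfold tn
  split_ifs <;> linarith

lemma Sp.int_tn (hμ : Sp μ A) (i : ℤ) : Integrable (tn i) μ := tn_eq i ▸ hμ.int_itp _

lemma tm_nonneg (μ : Measure ℝ) (i : ℤ) : 0 ≤ tm μ i := integral_nonneg (tn_nonneg i)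

lemma floor_cases {A : ℕ} {x : ℝ} (hx : |x| ≤ A) :
    (-(A : ℤ) ≤ ⌊x⌋ ∧ ⌊x⌋ < A) ∨ (⌊x⌋ = A ∧ Int.fract x = 0) := by
  rw [abs_le] at hx
  rcases hx.2.lt_or_eq with h | h
  · left
    exact ⟨Int.le_floor.2 (by push_cast; linarith), Int.floor_lt.2 (by push_cast; linarith)⟩
  · right
    rw [h]
    simp

lemma sum_tn {A : ℕ} {x : ℝ} (hx : |x| ≤ A) (f : ℤ → ℝ) :
    ∑ i ∈ Finset.Icc (-(A : ℤ)) A, f i * tn i x = itp f x := by
  have e : ∀ i, f i * tn i x = (if ⌊x⌋ = i then f i * (1 - Int.fract x) else 0) +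
      (if ⌊x⌋ + 1 = i then f i * Int.fract x else 0) := by
    intro i
    have : (⌊x⌋ + 1 = i) ↔ ⌊x⌋ = i - 1 := by omega
    unfold tn
    simp only [this]
    split_ifs <;> ring
  simp only [e, Finset.sum_add_distrib, Finset.sum_ite_eq, Finset.mem_Icc, itp]
  rcases floor_cases hx with h | h
  · rw [if_pos (by omega), if_pos (by omega)]; ring
  · rw [if_pos (by omega), h.2]; simp

lemma Sp.sum_tm (hμ : Sp μ A) (f : ℤ → ℝ) :
    ∑ i ∈ Finset.Icc (-(A : ℤ)) A, f i * tm μ i = IT μ f := by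
  unfold tm IT
  simp_rw [← integral_const_mul]
  rw [← integral_finsetSum _ fun i _ => (hμ.int_tn i).const_mul _]
  exact integral_congr_ae (hμ.mono fun x hx => sum_tn hx f)

lemma sub_floor (x y : ℝ) :
    (Int.fract y ≤ Int.fract x ∧ ⌊x - y⌋ = ⌊x⌋ - ⌊y⌋ ∧
      Int.fract (x - y) = Int.fract x - Int.fract y) ∨
    (Int.fract x ≤ Int.fract y ∧ ⌊x - y⌋ = ⌊x⌋ - ⌊y⌋ - 1 ∧
      Int.fract (x - y) = 1 + Int.fract x - Int.fract y) := by
  have := Int.fract_nonneg x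
  have := Int.fract_lt_one x
  have := Int.fract_nonneg y
  have := Int.fract_lt_one y
  have hx := Int.floor_add_fract x
  have hy := Int.floor_add_fract y
  have hz := Int.floor_add_fract (x - y)
  rcases le_or_gt (Int.fract y) (Int.fract x) with h | h
  · have : ⌊x - y⌋ = ⌊x⌋ - ⌊y⌋ := by
      rw [Int.floor_eq_iff]; push_cast; constructor <;> linarith
    refine Or.inl ⟨h, this, ?_⟩
    rw [this] at hz; push_cast at hz; linarith
  · have : ⌊x - y⌋ = ⌊x⌋ - ⌊y⌋ - 1 := by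
      rw [Int.floor_eq_iff]; push_cast; constructor <;> linarith
    refine Or.inr ⟨h.le, this, ?_⟩
    rw [this] at hz; push_cast at hz; linarith

lemma itp_itp (τ : ℤ → ℝ) (x y : ℝ) :
    itp (fun i => itp (fun j => τ (i - j)) y) x =
      itp τ (x - y) + dd τ (⌊x⌋ - ⌊y⌋) * ph x y := by
  have e1 : ⌊x⌋ - (⌊y⌋ + 1) = ⌊x⌋ - ⌊y⌋ - 1 := by ring
  have e2 : ⌊x⌋ + 1 - ⌊y⌋ = ⌊x⌋ - ⌊y⌋ + 1 := by ring
  have e3 : ⌊x⌋ + 1 - (⌊y⌋ + 1) = ⌊x⌋ - ⌊y⌋ := by ring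
  simp only [itp, dd, ph, e1, e2, e3]
  rcases sub_floor x y with ⟨h1, h2, h3⟩ | ⟨h1, h2, h3⟩
  · rw [h2, h3, min_eq_right h1]; ring
  · rw [h2, h3, min_eq_left h1, sub_add_cancel]; ring

lemma int_conv (μ ν : Measure ℝ) [IsProbabilityMeasure μ] [IsProbabilityMeasure ν] {f : ℝ → ℝ}
    (hm : Measurable f) : ∫ x, f x ∂(μ ∗ rf ν) = ∫ z, f (z.1 - z.2) ∂(μ.prod ν) := by
  have e : μ.prod (rf ν) = (μ.prod ν).map (Prod.map id (fun x => -x)) := by
    rw [← Measure.map_prod_map _ _ measurable_id (by fun_prop), Measure.map_id, rf]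
  unfold Measure.conv
  rw [e, Measure.map_map (by fun_prop) (by fun_prop), integral_map (by fun_prop)
    hm.aestronglyMeasurable]
  simp [sub_eq_add_neg]

/-- The key identity. -/
theorem key (hμ : Sp μ A) (hν : Sp ν B) (τ : ℤ → ℝ) :
    ∑ i ∈ Finset.Icc (-(A : ℤ)) A, ∑ j ∈ Finset.Icc (-(B : ℤ)) B, τ (i - j) * (tm μ i * tm ν j) =
      IT (μ ∗ rf ν) τ + LL μ ν (dd τ) := by
  have hi : ∀ i j : ℤ, Integrable (fun z : ℝ × ℝ => τ (i - j) * (tn i z.1 * tn j z.2))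
      (μ.prod ν) := fun i j => ((hμ.int_tn i).mul_prod (hν.int_tn j)).const_mul _
  have h1 : ∀ i j : ℤ, τ (i - j) * (tm μ i * tm ν j) =
      ∫ z, τ (i - j) * (tn i z.1 * tn j z.2) ∂(μ.prod ν) := fun i j => by
    rw [integral_const_mul, integral_prod_mul (tn i) (tn j)]; rfl
  simp_rw [h1]
  rw [Finset.sum_congr rfl fun i _ => (integral_finsetSum _ fun j _ => hi i j).symm,
    ← integral_finsetSum _ fun i _ => integrable_finsetSum _ fun j _ => hi i j, IT,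
    int_conv μ ν (measurable_itp τ), LL, ← integral_add (hμ.int_itp2 hν τ) (hμ.int_LL hν _)]
  refine integral_congr_ae ((hμ.prod hν).mono fun z hz => ?_)
  simp only
  rw [← itp_itp, ← sum_tn hz.1]
  refine Finset.sum_congr rfl fun i _ => ?_
  rw [← sum_tn hz.2, Finset.sum_mul]
  exact Finset.sum_congr rfl fun j _ => by ring

lemma neg_floor (x : ℝ) : (Int.fract x = 0 ∧ Int.fract (-x) = 0 ∧ ⌊-x⌋ = -⌊x⌋) ∨
    (Int.fract (-x) = 1 - Int.fract x ∧ ⌊-x⌋ = -⌊x⌋ - 1) := by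
  have := sub_floor 0 x
  simp only [zero_sub, Int.fract_zero, Int.floor_zero, add_zero] at this
  rcases this with ⟨h1, h2, h3⟩ | ⟨h1, h2, h3⟩
  · have h4 : Int.fract x = 0 := le_antisymm h1 (Int.fract_nonneg x)
    exact Or.inl ⟨h4, by rw [h3, h4, neg_zero], h2⟩
  · exact Or.inr ⟨h3, h2⟩

lemma itp_neg (τ : ℤ → ℝ) (x : ℝ) : itp τ (-x) = itp (fun n => τ (-n)) x := by
  unfold itp
  rcases neg_floor x with ⟨h1, h2, h3⟩ | ⟨h1, h2⟩
  · rw [h1, h2, h3]; simp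
  · simp only [h1, h2, sub_add_cancel, show -(⌊x⌋ + 1) = -⌊x⌋ - 1 by ring]; ring

lemma int_rf (μ : Measure ℝ) {f : ℝ → ℝ} (hf : Measurable f) :
    ∫ x, f x ∂(rf μ) = ∫ x, f (-x) ∂μ := by
  unfold rf
  rw [integral_map (by fun_prop) hf.aestronglyMeasurable]

lemma IT_rf (μ : Measure ℝ) (τ : ℤ → ℝ) : IT (rf μ) τ = IT μ fun n => τ (-n) := by
  unfold IT
  rw [int_rf μ (measurable_itp τ)]
  simp_rw [itp_neg]

lemma tm_rf (μ : Measure ℝ) (i : ℤ) : tm (rf μ) i = tm μ (-i) := by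
  have := IT_rf μ fun j => if j = i then 1 else 0
  unfold IT at this
  unfold tm
  rw [tn_eq, tn_eq, this]
  simp_rw [neg_eq_iff_eq_neg]

lemma LL_swap (μ ν : Measure ℝ) [IsProbabilityMeasure μ] [IsProbabilityMeasure ν] (κ : ℤ → ℝ) :
    LL ν μ κ = LL μ ν fun n => κ (-n) := by
  unfold LL
  rw [← integral_prod_swap]
  simp only [Prod.fst_swap, Prod.snd_swap, neg_sub]
  simp_rw [fun z : ℝ × ℝ => ph_comm z.2 z.1]

lemma LL_rf (μ ν : Measure ℝ) [IsProbabilityMeasure μ] [IsProbabilityMeasure ν] (κ : ℤ → ℝ) :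
    LL (rf μ) (rf ν) κ = LL μ ν fun n => κ (-n) := by
  have hm : Measurable fun z : ℝ × ℝ => κ (⌊z.1⌋ - ⌊z.2⌋) * ph z.1 z.2 :=
    ((meas_seq κ).comp measurable_fl).mul measurable_ph
  unfold LL rf
  rw [Measure.map_prod_map _ _ (by fun_prop) (by fun_prop), integral_map (by fun_prop)
    hm.aestronglyMeasurable]
  refine integral_congr_ae (ae_of_all _ fun z => ?_)
  have := Int.fract_nonneg z.1
  have := Int.fract_lt_one z.1
  have := Int.fract_nonneg z.2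
  have := Int.fract_lt_one z.2
  have := Int.fract_nonneg (-z.1)
  have := Int.fract_nonneg (-z.2)
  simp only [Prod.map_fst, Prod.map_snd, ph]
  rcases neg_floor z.1 with ⟨h1, h2, -⟩ | ⟨h1, h2⟩
  · rw [h1, h2, min_eq_left ‹_›, min_eq_left ‹_›]; simp
  rcases neg_floor z.2 with ⟨h3, h4, -⟩ | ⟨h3, h4⟩
  · rw [h3, h4, min_eq_right ‹_›, min_eq_right ‹_›]; simp
  rw [h1, h2, h3, h4, show -⌊z.1⌋ - 1 - (-⌊z.2⌋ - 1) = -(⌊z.1⌋ - ⌊z.2⌋) by ring]
  congr 1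
  rcases le_total (Int.fract z.1) (Int.fract z.2) with h | h
  · rw [min_eq_left h, min_eq_right (by linarith)]; ring
  · rw [min_eq_right h, min_eq_left (by linarith)]; ring

lemma Sp.refl (hμ : Sp μ A) : Sp (rf μ) A := ae_rf hμ

lemma Sp.conv (hμ : Sp μ A) (hν : Sp ν B) : Sp (μ ∗ ν) (A + B) :=
  (ae_conv hμ hν).mono fun x hx => by push_cast; exact hx

lemma Sp.LL_add (hμ : Sp μ A) (hν : Sp ν B) (κ κ' : ℤ → ℝ) :
    LL μ ν (fun n => κ n + κ' n) = LL μ ν κ + LL μ ν κ' := by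
  unfold LL
  rw [← integral_add (hμ.int_LL hν _) (hμ.int_LL hν _)]
  simp_rw [add_mul]

lemma LL_mul (μ ν : Measure ℝ) (c : ℝ) (κ : ℤ → ℝ) : LL μ ν (fun n => c * κ n) = c * LL μ ν κ := by
  unfold LL
  rw [← integral_const_mul]
  simp_rw [mul_assoc]

lemma Sp.LL_mono (hμ : Sp μ A) (hν : Sp ν B) {κ κ' : ℤ → ℝ}
    (h : ∀ m : ℤ, |m| < A + B → κ m ≤ κ' m) : LL μ ν κ ≤ LL μ ν κ' := by
  refine integral_mono_ae (hμ.int_LL hν _) (hμ.int_LL hν _) ((hμ.prod hν).mono fun z hz => ?_)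
  simp only
  rcases floor_cases hz.1 with h1 | h1
  · rcases floor_cases hz.2 with h2 | h2
    · exact mul_le_mul_of_nonneg_right (h _ (abs_lt.2 ⟨by omega, by omega⟩)) (ph_nonneg _ _)
    · simp [ph, h2.2, Int.fract_nonneg]
  · simp [ph, h1.2, Int.fract_nonneg]

lemma Sp.LL_const (hμ : Sp μ A) (hν : Sp ν B) {K : ℝ} (hK : 0 ≤ K) :
    LL μ ν (fun _ => K) ≤ K / 4 := by
  have := integral_mono (hμ.int_LL hν fun _ => K) (integrable_const (K / 4))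
    (fun z => by have := mul_le_mul_of_nonneg_left (ph_le z.1 z.2) hK; simp only; linarith)
  simpa [LL] using this

lemma ph_le_sq (x y : ℝ) : ph x y ≤ tn (⌊x⌋ - ⌊y⌋) (x - y) ^ 2 / 4 := by
  unfold ph tn
  rcases sub_floor x y with ⟨h1, h2, h3⟩ | ⟨h1, h2, h3⟩
  · rw [if_pos h2, if_neg (by omega), h3, min_eq_right h1]
    nlinarith [sq_nonneg (1 - Int.fract x - Int.fract y)]
  · rw [if_neg (by omega), if_pos h2, h3, min_eq_left h1]
    nlinarith [sq_nonneg (1 - Int.fract x - Int.fract y)]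

lemma tn_le_one (i : ℤ) (x : ℝ) : tn i x ≤ 1 := by
  have := Int.fract_nonneg x
  have := Int.fract_lt_one x
  unfold tn
  split_ifs <;> linarith

lemma ph_le_itp {κ : ℤ → ℝ} (hκ : ∀ m, 0 ≤ κ m) (x y : ℝ) :
    κ (⌊x⌋ - ⌊y⌋) * ph x y ≤ itp κ (x - y) / 4 := by
  have h0 := ph_le_sq x y
  have h4 : κ (⌊x⌋ - ⌊y⌋) * tn (⌊x⌋ - ⌊y⌋) (x - y) ≤ itp κ (x - y) := by
    have := Int.fract_nonneg (x - y)
    have := Int.fract_lt_one (x - y)
    unfold tn itp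
    rcases sub_floor x y with ⟨-, h2, -⟩ | ⟨-, h2, -⟩
    · rw [if_pos h2, if_neg (by omega), h2]
      nlinarith [hκ (⌊x⌋ - ⌊y⌋ + 1)]
    · rw [if_neg (by omega), if_pos h2, h2, sub_add_cancel]
      nlinarith [hκ (⌊x⌋ - ⌊y⌋ - 1)]
  have h5 := tn_nonneg (⌊x⌋ - ⌊y⌋) (x - y)
  have h6 := tn_le_one (⌊x⌋ - ⌊y⌋) (x - y)
  have h7 : ph x y ≤ tn (⌊x⌋ - ⌊y⌋) (x - y) / 4 := by nlinarith
  nlinarith [mul_le_mul_of_nonneg_left h7 (hκ (⌊x⌋ - ⌊y⌋))]

lemma Sp.LL_le_IT (hμ : Sp μ A) (hν : Sp ν B) {κ : ℤ → ℝ} (hκ : ∀ m, 0 ≤ κ m) :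
    LL μ ν κ ≤ IT (μ ∗ rf ν) κ / 4 := by
  rw [IT, int_conv μ ν (measurable_itp κ), ← integral_div]
  exact integral_mono (hμ.int_LL hν κ) ((hμ.int_itp2 hν κ).div_const _)
    fun z => ph_le_itp hκ z.1 z.2

end Pool.Agent.Lib.MP_834949_an
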