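import Pool.Agent.Lib.MP_834949_an.Tn1

/-!
Consequences of an upper bound on the density.
-/

set_option linter.unusedSectionVars false

namespace Pool.Agent.Lib.MP_834949_an

open MeasureTheory Set

/-- The measure has density at most `m`. -/
def Dens (μ : Measure ℝ) (m : ℝ) : Prop := μ ≤ ENNReal.ofReal m • volume

lemma Dens.le {μ : Measure ℝ} {m : ℝ} (h : Dens μ m) (hm : 0 ≤ m) {ψ : ℝ → ℝ}
    (h0 : ∀ x, 0 ≤ ψ x) (hi : Integrable ψ) : ∫ x, ψ x ∂μ ≤ m * ∫ x, ψ x := by
  have := integral_mono_measure h (ae_of_all _ h0) (hi.smul_measure ENNReal.ofReal_ne_top)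
  rwa [integral_smul_measure, ENNReal.toReal_ofReal hm, smul_eq_mul] at this

lemma Dens.refl {μ : Measure ℝ} {m : ℝ} (h : Dens μ m) : Dens (rf μ) m := by
  have := Measure.map_mono h (show Measurable fun x : ℝ => -x by fun_prop)
  rwa [Measure.map_smul, Measure.map_neg_eq_self volume] at this

/-- A function supported on one cell. -/
noncomputable def cf (n : ℤ) (G : ℝ → ℝ) (x : ℝ) : ℝ := if ⌊x⌋ = n then G (Int.fract x) else 0

lemma cf_eq (n : ℤ) (G : ℝ → ℝ) :
    cf n G = (Ico (n : ℝ) (n + 1)).indicator fun x => G (x - n) := by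
  ext x
  unfold cf indicator
  simp only [mem_Ico, ← Int.floor_eq_iff]
  split_ifs with h
  · rw [← h]; rfl
  · rfl

lemma cf_int (n : ℤ) {G : ℝ → ℝ} (hG : Continuous G) : Integrable (cf n G) := by
  rw [cf_eq, integrable_indicator_iff measurableSet_Ico]
  exact ((hG.comp (by fun_prop)).integrableOn_Icc).mono_set Ico_subset_Icc_self

lemma cf_integral (n : ℤ) (G : ℝ → ℝ) : ∫ x, cf n G x = ∫ t in (0 : ℝ)..1, G t := by
  rw [cf_eq, integral_indicator measurableSet_Ico, integral_Ico_eq_integral_Ioo,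
    ← integral_Ioc_eq_integral_Ioo, ← intervalIntegral.integral_of_le (by linarith),
    intervalIntegral.integral_comp_sub_right G]
  simp

lemma tn_cf (i : ℤ) : tn i = fun x => cf i (fun t => 1 - t) x + cf (i - 1) (fun t => t) x := rfl

lemma tn_sq_cf (i : ℤ) : (fun x => tn i x ^ 2) =
    fun x => cf i (fun t => (1 - t) ^ 2) x + cf (i - 1) (fun t => t ^ 2) x := by
  ext x
  unfold tn cf
  split_ifs <;> first | omega | simp

lemma half1 : ∫ t in (0 : ℝ)..1, (1 - t) = 1 / 2 := by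
  rw [intervalIntegral.integral_sub (by simp) (by simp)]; norm_num [integral_id]

lemma tn_int (i : ℤ) : Integrable (tn i) ∧ ∫ x, tn i x = 1 := by
  have h1 := cf_int i (G := fun t => 1 - t) (by fun_prop)
  have h2 := cf_int (i - 1) (G := fun t => t) (by fun_prop)
  rw [tn_cf]
  refine ⟨h1.add h2, ?_⟩
  rw [integral_add h1 h2, cf_integral, cf_integral, half1]
  norm_num [integral_id]

lemma tn_sq_int (i : ℤ) : Integrable (fun x => tn i x ^ 2) ∧ ∫ x, tn i x ^ 2 = 2 / 3 := by
  have h1 := cf_int i (G := fun t => (1 - t) ^ 2) (by fun_prop)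
  have h2 := cf_int (i - 1) (G := fun t => t ^ 2) (by fun_prop)
  rw [tn_sq_cf]
  refine ⟨h1.add h2, ?_⟩
  rw [integral_add h1 h2, cf_integral, cf_integral,
    intervalIntegral.integral_comp_sub_left (fun t => t ^ 2) 1]
  norm_num [integral_pow]

variable {μ ν : Measure ℝ} [IsProbabilityMeasure μ] [IsProbabilityMeasure ν] {A B : ℕ} {m : ℝ}

lemma Dens.tm_le (h : Dens μ m) (hm : 0 ≤ m) (i : ℤ) : tm μ i ≤ m := by
  simpa [(tn_int i).2, tm] using h.le hm (tn_nonneg i) (tn_int i).1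

lemma Dens.tm_left (h : Dens μ m) (hm : 0 ≤ m) (hμ : Sp μ A) : tm μ (-A) ≤ m / 2 := by
  have h1 := h.le hm (ψ := cf (-A) fun t => 1 - t)
    (fun x => by unfold cf; split_ifs; exacts [by linarith [Int.fract_lt_one x], le_rfl])
    (cf_int _ (by fun_prop))
  rw [cf_integral, half1] at h1
  have h2 : tm μ (-A) = ∫ x, cf (-A) (fun t => 1 - t) x ∂μ := by
    refine integral_congr_ae (hμ.mono fun x hx => ?_)
    have : ¬ ⌊x⌋ = -(A : ℤ) - 1 := by rcases floor_cases hx with h | h <;> omega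
    simp [tn, cf, this]
  linarith

lemma Dens.tm_right (h : Dens μ m) (hm : 0 ≤ m) (hμ : Sp μ A) : tm μ A ≤ m / 2 := by
  have := h.refl.tm_left hm hμ.refl
  rwa [tm_rf, neg_neg] at this

lemma itp_fin {S : Finset ℤ} {q : ℤ → ℝ} (hq : ∀ n ∉ S, q n = 0) (x : ℝ) :
    itp q x = ∑ n ∈ S, q n * tn n x := by
  have e : ∀ i, q i * tn i x = (if ⌊x⌋ = i then q i * (1 - Int.fract x) else 0) +
      (if ⌊x⌋ + 1 = i then q i * Int.fract x else 0) := by
    intro i
    have : (⌊x⌋ + 1 = i) ↔ ⌊x⌋ = i - 1 := by omega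
    unfold tn
    simp only [this]
    split_ifs <;> ring
  simp only [e, Finset.sum_add_distrib, Finset.sum_ite_eq, itp]
  congr 1 <;> split_ifs with h <;> first | exact mul_comm _ _ | simp [hq _ h]

/-- The bound obtained from the complement of the measure below its maximal density. -/
theorem Dens.gtrick (h : Dens μ m) (hm : 0 ≤ m) (hμ : Sp μ A) (hν : Sp ν B) (S : Finset ℤ)
    {p q : ℤ → ℝ} (hp0 : ∀ n, 0 ≤ p n) (hq0 : ∀ n, 0 ≤ q n) (hp : ∀ n ∉ S, p n = 0)
    (hq : ∀ n ∉ S, q n = 0) :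
    LL μ ν (fun n => p n - 4 * q n) + IT (μ ∗ rf ν) q ≤
      m * max (∑ n ∈ S, q n) ((∑ n ∈ S, p n) / 8 + (∑ n ∈ S, q n) / 2) := by
  have hi : Integrable (fun z : ℝ × ℝ => (p (⌊z.1⌋ - ⌊z.2⌋) - 4 * q (⌊z.1⌋ - ⌊z.2⌋)) * ph z.1 z.2 +
      itp q (z.1 - z.2)) (μ.prod ν) :=
    (hμ.int_LL hν fun n => p n - 4 * q n).add (hμ.int_itp2 hν q)
  rw [IT, int_conv μ ν (measurable_itp q), LL,
    ← integral_add (hμ.int_LL hν fun n => p n - 4 * q n) (hμ.int_itp2 hν q),
    integral_prod_symm _ hi]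
  refine le_trans (integral_mono hi.integral_prod_right (integrable_const
    (m * max (∑ n ∈ S, q n) ((∑ n ∈ S, p n) / 8 + (∑ n ∈ S, q n) / 2))) fun y => ?_) (by simp)
  set G : ℝ → ℝ := fun t => min t (Int.fract y) - t * Int.fract y with hG
  have hGc : Continuous G := by fun_prop
  have e : ∀ x, (p (⌊x⌋ - ⌊y⌋) - 4 * q (⌊x⌋ - ⌊y⌋)) * ph x y + itp q (x - y) =
      ∑ n ∈ S, ((p n - 4 * q n) * cf (n + ⌊y⌋) G x + q n * tn n (x - y)) := by
    intro x
    rw [Finset.sum_add_distrib, ← itp_fin hq]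
    congr 1
    have : ∀ n, (p n - 4 * q n) * cf (n + ⌊y⌋) G x =
        if ⌊x⌋ - ⌊y⌋ = n then (p n - 4 * q n) * ph x y else 0 := by
      intro n
      have : (⌊x⌋ = n + ⌊y⌋) ↔ ⌊x⌋ - ⌊y⌋ = n := by omega
      unfold cf
      simp only [this]
      split_ifs <;> simp [hG, ph]
    simp only [this, Finset.sum_ite_eq]
    split_ifs with h
    · rfl
    · simp [hp _ h, hq _ h]
  have hn : ∀ n, Integrable fun x => (p n - 4 * q n) * cf (n + ⌊y⌋) G x + q n * tn n (x - y) :=
    fun n => ((cf_int _ hGc).const_mul _).add (((tn_int n).1.comp_sub_right y).const_mul _)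
  have h1 := h.le hm (ψ := fun x => (p (⌊x⌋ - ⌊y⌋) - 4 * q (⌊x⌋ - ⌊y⌋)) * ph x y + itp q (x - y))
    (fun x => by
      have := ph_le_itp hq0 x y
      have := mul_nonneg (hp0 (⌊x⌋ - ⌊y⌋)) (ph_nonneg x y)
      nlinarith)
    (by simp only [e]; exact integrable_finsetSum _ fun n _ => hn n)
  refine h1.trans (mul_le_mul_of_nonneg_left ?_ hm)
  simp only [e]
  rw [integral_finsetSum _ fun n _ => hn n]
  have h2 : ∀ n, ∫ x, (p n - 4 * q n) * cf (n + ⌊y⌋) G x + q n * tn n (x - y) =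
      (p n - 4 * q n) * (∫ t in (0 : ℝ)..1, G t) + q n := by
    intro n
    rw [integral_add ((cf_int _ hGc).const_mul _) (((tn_int n).1.comp_sub_right y).const_mul _),
      integral_const_mul, integral_const_mul, cf_integral, integral_sub_right_eq_self (tn n) y,
      (tn_int n).2, mul_one]
  have hy0 := Int.fract_nonneg y
  have hy1 := Int.fract_lt_one y
  have h3 : ∫ t in (0 : ℝ)..1, G t = Int.fract y * (1 - Int.fract y) / 2 := by
    rw [← intervalIntegral.integral_add_adjacent_intervals (b := Int.fract y)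
      (hGc.intervalIntegrable _ _) (hGc.intervalIntegrable _ _),
      intervalIntegral.integral_congr (a := 0) (g := fun t => (1 - Int.fract y) * t) fun t ht => by
        rw [uIcc_of_le hy0] at ht
        simp only [hG, min_eq_left ht.2]
        ring,
      intervalIntegral.integral_congr (b := 1) (g := fun t => Int.fract y - Int.fract y * t)
        fun t ht => by
          rw [uIcc_of_le hy1.le] at ht
          simp only [hG, min_eq_right ht.1]
          ring,
      intervalIntegral.integral_sub (by simp) (Continuous.intervalIntegrable (by fun_prop) _ _),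
      intervalIntegral.integral_const_mul _ fun t => t,
      intervalIntegral.integral_const_mul _ fun t => t, integral_id, integral_id,
      intervalIntegral.integral_const, smul_eq_mul]
    ring
  have h4 : 0 ≤ Int.fract y * (1 - Int.fract y) / 2 := by nlinarith
  have h7 : Int.fract y * (1 - Int.fract y) / 2 ≤ 1 / 8 := by
    nlinarith [sq_nonneg (Int.fract y - 1 / 2)]
  simp only [h2, h3, Finset.sum_add_distrib, ← Finset.sum_mul, Finset.sum_sub_distrib,
    ← Finset.mul_sum]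
  have h5 := le_max_left (∑ n ∈ S, q n) ((∑ n ∈ S, p n) / 8 + (∑ n ∈ S, q n) / 2)
  have h6 := le_max_right (∑ n ∈ S, q n) ((∑ n ∈ S, p n) / 8 + (∑ n ∈ S, q n) / 2)
  nlinarith

lemma Dens.conv (h : Dens μ m) (ν : Measure ℝ) [IsProbabilityMeasure ν] : Dens (μ ∗ ν) m := by
  refine Measure.le_iff.2 fun s hs => ?_
  rw [Measure.conv_comm, Measure.conv, Measure.map_apply (by fun_prop) hs,
    Measure.prod_apply (measurable_add hs)]
  refine (lintegral_mono (g := fun _ => (ENNReal.ofReal m • (volume : Measure ℝ)) s)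
    fun x => (h _).trans_eq ?_).trans_eq (by simp)
  simp only [Measure.smul_apply]
  exact congrArg _ (measure_preimage_add volume x s)

theorem Dens.sixth (h : Dens (μ ∗ rf ν) m) (hm : 0 ≤ m) (hμ : Sp μ A) (hν : Sp ν B) (S : Finset ℤ)
    {p : ℤ → ℝ} (hp0 : ∀ n, 0 ≤ p n) (hp : ∀ n ∉ S, p n = 0) :
    LL μ ν (fun n => 6 * p n) ≤ m * ∑ n ∈ S, p n := by
  have hn : ∀ n, Integrable fun x => p n * tn n x ^ 2 := fun n => (tn_sq_int n).1.const_mul _
  have hm1 : Measurable fun x => ∑ n ∈ S, p n * tn n x ^ 2 :=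
    Finset.measurable_sum _ fun n _ => ((tn_eq n ▸ measurable_itp _).pow_const 2).const_mul _
  have h0 : ∀ x, 0 ≤ ∑ n ∈ S, p n * tn n x ^ 2 :=
    fun x => Finset.sum_nonneg fun n _ => mul_nonneg (hp0 n) (sq_nonneg _)
  have h1 := h.le hm h0 (integrable_finsetSum _ fun n _ => hn n)
  rw [integral_finsetSum _ fun n _ => hn n, int_conv μ ν hm1] at h1
  simp only [integral_const_mul, (tn_sq_int _).2, ← Finset.sum_mul] at h1
  have h2 : Integrable (fun z : ℝ × ℝ => ∑ n ∈ S, p n * tn n (z.1 - z.2) ^ 2) (μ.prod ν) := by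
    refine hμ.int2 hν (hm1.comp (by fun_prop)) ⟨∑ n ∈ S, p n, fun x y _ _ => ?_⟩
    rw [abs_of_nonneg (h0 _)]
    refine Finset.sum_le_sum fun n _ => mul_le_of_le_one_right (hp0 n) ?_
    exact pow_le_one₀ (tn_nonneg _ _) (tn_le_one _ _)
  have h3 := integral_mono (hμ.int_LL hν fun n => 6 * p n) (h2.const_mul (3 / 2)) fun z => by
    have h4 := mul_le_mul_of_nonneg_left (ph_le_sq z.1 z.2) (hp0 (⌊z.1⌋ - ⌊z.2⌋))
    by_cases h5 : ⌊z.1⌋ - ⌊z.2⌋ ∈ S
    · have := Finset.single_le_sum (f := fun n => p n * tn n (z.1 - z.2) ^ 2)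
        (fun n _ => mul_nonneg (hp0 n) (sq_nonneg _)) h5
      simp only at this ⊢
      linarith
    · have := h0 (z.1 - z.2)
      simp only [hp _ h5]
      linarith
  rw [integral_const_mul] at h3
  unfold LL
  linarith

end Pool.Agent.Lib.MP_834949_an
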