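import Pool.Agent.Lib.MP_834949_an.Tn2

/-!
Positivity statements coming from randomised rounding.
-/

set_option linter.unusedSectionVars false

namespace Pool.Agent.Lib.MP_834949_an

open MeasureTheory Set

/-- Indicator of rounding up. -/
noncomputable def up (x s : ℝ) : ℝ := if s < Int.fract x then 1 else 0

lemma measurable_up : Measurable fun z : ℝ × ℝ => up z.1 z.2 :=
  Measurable.ite (measurableSet_lt measurable_snd (measurable_fract.comp measurable_fst))
    measurable_const measurable_const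

lemma int_lt {p : ℝ} (h0 : 0 ≤ p) (h1 : p ≤ 1) : ∫ s, (if s < p then (1 : ℝ) else 0) ∂sh = p := by
  have : (fun s => if s < p then (1 : ℝ) else 0) = (Iio p).indicator 1 := by
    ext s; simp [indicator]
  rw [this, integral_indicator_one measurableSet_Iio, sh, measureReal_def,
    Measure.restrict_apply measurableSet_Iio]
  have : Iio p ∩ Ico 0 1 = Ico 0 p := by
    ext s
    simp only [mem_inter_iff, mem_Iio, mem_Ico]
    exact ⟨fun h => ⟨h.2.1, h.1⟩, fun h => ⟨h.2, h.1, h.2.trans_le h1⟩⟩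
  rw [this]
  simpa using h0

lemma up_int (x : ℝ) : Integrable (up x) sh :=
  integrable_bdd sh (measurable_up.comp (measurable_prodMk_left))
    (fun s => by unfold up; split_ifs <;> norm_num) fun s => by unfold up; split_ifs <;> norm_num

lemma up_mul (x y s : ℝ) :
    up x s * up y s = if s < min (Int.fract x) (Int.fract y) then 1 else 0 := by
  unfold up
  simp only [lt_min_iff]
  split_ifs <;> simp_all

lemma int_up2 (a b c d x y : ℝ) : ∫ s, (a + b * up x s) * (c + d * up y s) ∂sh =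
    a * c + a * d * Int.fract y + b * c * Int.fract x +
      b * d * min (Int.fract x) (Int.fract y) := by
  have h1 : ∀ x, ∫ s, up x s ∂sh = Int.fract x :=
    fun x => int_lt (Int.fract_nonneg x) (Int.fract_lt_one x).le
  have h2 : Integrable (fun s => up x s * up y s) sh :=
    integrable_bdd sh ((measurable_up.comp measurable_prodMk_left).mul
      (measurable_up.comp measurable_prodMk_left))
      (fun s => by rw [up_mul]; split_ifs <;> norm_num)
      fun s => by rw [up_mul]; split_ifs <;> norm_num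
  have h3 : ∫ s, up x s * up y s ∂sh = min (Int.fract x) (Int.fract y) := by
    simp_rw [up_mul]
    exact int_lt (le_min (Int.fract_nonneg x) (Int.fract_nonneg y))
      ((min_le_left _ _).trans (Int.fract_lt_one x).le)
  have e : ∀ s, (a + b * up x s) * (c + d * up y s) =
      a * c + a * d * up y s + b * c * up x s + b * d * (up x s * up y s) := fun s => by ring
  have i1 : Integrable (fun s => a * d * up y s) sh := (up_int y).const_mul _
  have i2 : Integrable (fun s => b * c * up x s) sh := (up_int x).const_mul _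
  have i3 : Integrable (fun s => a * c + a * d * up y s) sh := (integrable_const _).add i1
  have i4 : Integrable (fun s => a * c + a * d * up y s + b * c * up x s) sh := i3.add i2
  simp_rw [e]
  rw [integral_add i4 (h2.const_mul _), integral_add i3 i2,
    integral_add (integrable_const _) i1, integral_const_mul,
    integral_const_mul, integral_const_mul, integral_const_mul, h1, h1, h3]
  simp

/-- The random variable attached to three sequences. -/
noncomputable def GG (a b c : ℤ → ℝ) (x s : ℝ) : ℝ :=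
  a ⌊x⌋ + b ⌊x⌋ * Int.fract x + c ⌊x⌋ * up x s

lemma measurable_GG (a b c : ℤ → ℝ) : Measurable fun z : ℝ × ℝ => GG a b c z.1 z.2 := by
  have h : ∀ a : ℤ → ℝ, Measurable fun z : ℝ × ℝ => a ⌊z.1⌋ :=
    fun a => (meas_seq a).comp (Int.measurable_floor.comp measurable_fst)
  exact ((h a).add ((h b).mul (measurable_fract.comp measurable_fst))).add
    ((h c).mul measurable_up)

lemma GG_bd (a b c : ℤ → ℝ) (A : ℝ) : ∃ K, 0 ≤ K ∧ ∀ x s, |x| ≤ A → |GG a b c x s| ≤ K := by
  obtain ⟨K1, h0, h1⟩ := seq_bd a (A + 1)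
  obtain ⟨K2, h0', h2⟩ := seq_bd b (A + 1)
  obtain ⟨K3, h0'', h3⟩ := seq_bd c (A + 1)
  refine ⟨K1 + K2 + K3, by positivity, fun x s hx => ?_⟩
  have h4 := abs_le.1 (h1 _ (abs_floor_le hx))
  have h5 := abs_le.1 (h2 _ (abs_floor_le hx))
  have h6 := abs_le.1 (h3 _ (abs_floor_le hx))
  have := Int.fract_nonneg x
  have := Int.fract_lt_one x
  unfold GG up
  rw [abs_le]
  split_ifs <;> constructor <;> nlinarith

theorem sq_nonneg_gen {ι : Type} [Fintype ι] (μ : ι → Measure ℝ)
    [∀ u, IsProbabilityMeasure (μ u)] (A : ι → ℕ) (hA : ∀ u, Sp (μ u) (A u))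
    (a b c : ι → ℤ → ℝ) :
    0 ≤ ∑ u, ∑ w, ∫ z, (∫ s, GG (a u) (b u) (c u) z.1 s * GG (a w) (b w) (c w) z.2 s ∂sh)
      ∂((μ u).prod (μ w)) := by
  have hi : ∀ u w, Integrable (Function.uncurry fun (z : ℝ × ℝ) (s : ℝ) =>
      GG (a u) (b u) (c u) z.1 s * GG (a w) (b w) (c w) z.2 s) (((μ u).prod (μ w)).prod sh) := by
    intro u w
    obtain ⟨K1, h0, h1⟩ := GG_bd (a u) (b u) (c u) (A u)
    obtain ⟨K2, -, h2⟩ := GG_bd (a w) (b w) (c w) (A w)
    refine Integrable.of_bound (Measurable.aestronglyMeasurable ?_) (K1 * K2)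
      ((Measure.quasiMeasurePreserving_fst.ae ((hA u).prod (hA w))).mono fun z hz => ?_)
    · exact ((measurable_GG _ _ _).comp (f := fun z : (ℝ × ℝ) × ℝ => (z.1.1, z.2))
        (by fun_prop)).mul
        ((measurable_GG _ _ _).comp (f := fun z : (ℝ × ℝ) × ℝ => (z.1.2, z.2)) (by fun_prop))
    · rw [Real.norm_eq_abs, Function.uncurry, abs_mul]
      exact mul_le_mul (h1 _ _ hz.1) (h2 _ _ hz.2) (abs_nonneg _) h0
  have h1 : ∀ u w s, ∫ z, GG (a u) (b u) (c u) z.1 s * GG (a w) (b w) (c w) z.2 s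
      ∂((μ u).prod (μ w)) =
      (∫ x, GG (a u) (b u) (c u) x s ∂(μ u)) * ∫ x, GG (a w) (b w) (c w) x s ∂(μ w) :=
    fun u w s => integral_prod_mul (fun x => GG (a u) (b u) (c u) x s)
      fun x => GG (a w) (b w) (c w) x s
  have h2 : ∀ u w, Integrable (fun s => (∫ x, GG (a u) (b u) (c u) x s ∂(μ u)) *
      ∫ x, GG (a w) (b w) (c w) x s ∂(μ w)) sh := fun u w => by
    have := (hi u w).integral_prod_right
    simp only [Function.uncurry, h1] at this
    exact this
  simp_rw [fun u w => integral_integral_swap (hi u w), h1]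
  rw [Finset.sum_congr rfl fun u _ => (integral_finsetSum _ fun w _ => h2 u w).symm,
    ← integral_finsetSum _ fun u _ => integrable_finsetSum _ fun w _ => h2 u w]
  refine integral_nonneg fun s => ?_
  simp only
  rw [← Finset.sum_mul_sum]
  exact mul_self_nonneg _

lemma sum_shift {F : ℤ → ℝ} {P : ℕ} (hF : ∀ k, F (k + P) = F k) (j : ℤ) :
    ∑ k ∈ Finset.range P, F (k + j) = ∑ k ∈ Finset.range P, F k := by
  have h : ∀ j : ℤ, ∑ k ∈ Finset.range P, F (k + (j + 1)) = ∑ k ∈ Finset.range P, F (k + j) := by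
    intro j
    have h1 := Finset.sum_range_succ (fun k : ℕ => F (k + j)) P
    have h2 := Finset.sum_range_succ' (fun k : ℕ => F (k + j)) P
    have h3 : F (P + j) = F ((0 : ℕ) + j) := by rw [add_comm, hF]; simp
    have h4 : ∀ k : ℕ, (((k + 1 : ℕ) : ℤ) + j) = k + (j + 1) := fun k => by push_cast; ring
    simp only [h4] at h2
    linarith
  induction j using Int.induction_on with
  | zero => simp
  | succ n ih => rw [h, ih]
  | pred n ih => rw [← ih, ← h]; simp

/-- Cyclic correlation. -/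
noncomputable def cor (P : ℕ) (f g : ℤ → ℝ) (m : ℤ) : ℝ := ∑ k ∈ Finset.range P, f (k + m) * g k

lemma cor_neg {P : ℕ} {f g : ℤ → ℝ} (hf : ∀ k, f (k + P) = f k) (hg : ∀ k, g (k + P) = g k)
    (m : ℤ) : cor P f g (-m) = cor P g f m := by
  unfold cor
  rw [← sum_shift (F := fun k => f (k + -m) * g k)
    (fun k => by rw [hg, add_right_comm, hf]) m]
  exact Finset.sum_congr rfl fun k _ => by rw [add_neg_cancel_right, mul_comm]

/-- The correction functionals form a positive semidefinite Toeplitz system. -/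
theorem jensen {ι : Type} [Fintype ι] (μ : ι → Measure ℝ)
    [∀ u, IsProbabilityMeasure (μ u)] (A : ι → ℕ) (hA : ∀ u, Sp (μ u) (A u)) (P : ℕ)
    (h : ι → ℤ → ℝ) (hP : ∀ u k, h u (k + P) = h u k) :
    0 ≤ ∑ u, ∑ w, LL (μ u) (μ w) (cor P (h u) (h w)) := by
  have h1 := fun k : ℕ => sq_nonneg_gen μ A hA (fun _ _ => 0) (fun u n => -h u (k + n))
    fun u n => h u (k + n)
  have h2 : ∀ (k : ℕ) u w (z : ℝ × ℝ), ∫ s, GG (fun _ => 0) (fun n => -h u (k + n))
      (fun n => h u (k + n)) z.1 s * GG (fun _ => 0) (fun n => -h w (k + n))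
      (fun n => h w (k + n)) z.2 s ∂sh = h u (k + ⌊z.1⌋) * h w (k + ⌊z.2⌋) * ph z.1 z.2 := by
    intro k u w z
    unfold GG
    rw [int_up2, ph]
    ring
  simp only [h2] at h1
  have hi : ∀ (k : ℕ) u w, Integrable (fun z : ℝ × ℝ =>
      h u (k + ⌊z.1⌋) * h w (k + ⌊z.2⌋) * ph z.1 z.2) ((μ u).prod (μ w)) := by
    intro k u w
    obtain ⟨K1, h0, h3⟩ := seq_bd (fun n => h u (k + n)) (A u + 1)
    obtain ⟨K2, h0', h4⟩ := seq_bd (fun n => h w (k + n)) (A w + 1)
    refine (hA u).int2 (hA w) ((((meas_seq fun n => h u (k + n)).comp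
      (Int.measurable_floor.comp measurable_fst)).mul ((meas_seq fun n => h w (k + n)).comp
      (Int.measurable_floor.comp measurable_snd))).mul measurable_ph)
      ⟨K1 * K2 * 1, fun x y hx hy => ?_⟩
    rw [abs_mul, abs_mul]
    refine mul_le_mul (mul_le_mul (h3 _ (abs_floor_le hx)) (h4 _ (abs_floor_le hy))
      (abs_nonneg _) h0) ?_ (abs_nonneg _) (by positivity)
    rw [abs_of_nonneg (ph_nonneg _ _)]; linarith [ph_le x y]
  refine (Finset.sum_nonneg (s := Finset.range P) fun k _ => h1 k).trans_eq ?_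
  rw [Finset.sum_comm]
  refine Finset.sum_congr rfl fun u _ => ?_
  rw [Finset.sum_comm]
  refine Finset.sum_congr rfl fun w _ => ?_
  rw [← integral_finsetSum _ fun k _ => hi k u w]
  refine integral_congr_ae (ae_of_all _ fun z => ?_)
  simp only [← Finset.sum_mul, cor]
  rw [← sum_shift (F := fun k => h u (k + (⌊z.1⌋ - ⌊z.2⌋)) * h w k)
    (fun k => by rw [hP, add_right_comm, hP]) ⌊z.2⌋]
  congr 1
  exact Finset.sum_congr rfl fun k _ => by congr 2; ring

/-- Toeplitz majorants of Gram matrices have nonnegative integrals. -/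
theorem gram {ι ρ : Type} [Fintype ι] [Fintype ρ] (μ : ι → Measure ℝ)
    [∀ u, IsProbabilityMeasure (μ u)] (A : ι → ℕ) (hA : ∀ u, Sp (μ u) (A u))
    (h : ρ → ι → ℤ → ℝ) (τ : ι → ι → ℤ → ℝ)
    (hτ : ∀ u w (i j : ℤ), |i| ≤ A u → |j| ≤ A w → ∑ r, h r u i * h r w j ≤ τ u w (i - j)) :
    0 ≤ ∑ u, ∑ w, IT (μ u ∗ rf (μ w)) (τ u w) := by
  set K : ρ → ι → ι → ℝ × ℝ → ℝ := fun r u w z =>
    itp (h r u) z.1 * itp (h r w) z.2 +
      (h r u (⌊z.1⌋ + 1) - h r u ⌊z.1⌋) * (h r w (⌊z.2⌋ + 1) - h r w ⌊z.2⌋) * ph z.1 z.2 with hK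
  have h1 := fun r => sq_nonneg_gen μ A hA (h r) (fun _ _ => 0)
    fun u n => h r u (n + 1) - h r u n
  have h2 : ∀ r u w (z : ℝ × ℝ), ∫ s, GG (h r u) (fun _ => 0)
      (fun n => h r u (n + 1) - h r u n) z.1 s * GG (h r w) (fun _ => 0)
      (fun n => h r w (n + 1) - h r w n) z.2 s ∂sh = K r u w z := by
    intro r u w z
    unfold GG
    rw [int_up2]
    simp only [hK, ph, itp]
    ring
  simp only [h2] at h1
  have hi : ∀ r u w, Integrable (K r u w) ((μ u).prod (μ w)) := by
    intro r u w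
    refine (((hA u).int_itp _).mul_prod ((hA w).int_itp _)).add ?_
    obtain ⟨K1, h0, h3⟩ := seq_bd (fun n => h r u (n + 1) - h r u n) (A u + 1)
    obtain ⟨K2, h0', h4⟩ := seq_bd (fun n => h r w (n + 1) - h r w n) (A w + 1)
    refine (hA u).int2 (hA w) ((((meas_seq fun n => h r u (n + 1) - h r u n).comp
      (Int.measurable_floor.comp measurable_fst)).mul
      ((meas_seq fun n => h r w (n + 1) - h r w n).comp
      (Int.measurable_floor.comp measurable_snd))).mul measurable_ph)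
      ⟨K1 * K2 * 1, fun x y hx hy => ?_⟩
    rw [abs_mul, abs_mul]
    refine mul_le_mul (mul_le_mul (h3 _ (abs_floor_le hx)) (h4 _ (abs_floor_le hy))
      (abs_nonneg _) h0) ?_ (abs_nonneg _) (by positivity)
    rw [abs_of_nonneg (ph_nonneg _ _)]; linarith [ph_le x y]
  refine (Finset.sum_nonneg (s := Finset.univ) fun r _ => h1 r).trans ?_
  rw [Finset.sum_comm]
  refine Finset.sum_le_sum fun u _ => ?_
  rw [Finset.sum_comm]
  refine Finset.sum_le_sum fun w _ => ?_
  rw [← integral_finsetSum _ fun r _ => hi r u w, IT, int_conv _ _ (measurable_itp _)]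
  refine integral_mono_ae (integrable_finsetSum _ fun r _ => hi r u w)
    ((hA u).int_itp2 (hA w) _) (((hA u).prod (hA w)).mono fun z hz => ?_)
  obtain ⟨x, y⟩ := z
  have e : ∀ r, K r u w (x, y) =
      (1 - Int.fract x - Int.fract y + min (Int.fract x) (Int.fract y)) *
        (h r u ⌊x⌋ * h r w ⌊y⌋) +
      (Int.fract y - min (Int.fract x) (Int.fract y)) * (h r u ⌊x⌋ * h r w (⌊y⌋ + 1)) +
      (Int.fract x - min (Int.fract x) (Int.fract y)) * (h r u (⌊x⌋ + 1) * h r w ⌊y⌋) +
      min (Int.fract x) (Int.fract y) * (h r u (⌊x⌋ + 1) * h r w (⌊y⌋ + 1)) := fun r => by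
    simp only [hK, itp, ph]; ring
  simp only [e, Finset.sum_add_distrib, ← Finset.mul_sum]
  have hx0 := Int.fract_nonneg x
  have hx1 := Int.fract_lt_one x
  have hy0 := Int.fract_nonneg y
  have hy1 := Int.fract_lt_one y
  have f1 := floor_cases hz.1
  have f2 := floor_cases hz.2
  simp only at f1 f2
  have g0 := hτ u w ⌊x⌋ ⌊y⌋ (abs_le.2 (by omega)) (abs_le.2 (by omega))
  have g1 : Int.fract y = 0 ∨ ∑ r, h r u ⌊x⌋ * h r w (⌊y⌋ + 1) ≤ τ u w (⌊x⌋ - ⌊y⌋ - 1) := by
    rcases f2 with f | f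
    · right
      have := hτ u w ⌊x⌋ (⌊y⌋ + 1) (abs_le.2 (by omega)) (abs_le.2 (by omega))
      rwa [← sub_sub] at this
    · exact Or.inl f.2
  have g2 : Int.fract x = 0 ∨ ∑ r, h r u (⌊x⌋ + 1) * h r w ⌊y⌋ ≤ τ u w (⌊x⌋ - ⌊y⌋ + 1) := by
    rcases f1 with f | f
    · right
      have := hτ u w (⌊x⌋ + 1) ⌊y⌋ (abs_le.2 (by omega)) (abs_le.2 (by omega))
      rwa [add_sub_right_comm] at this
    · exact Or.inl f.2
  have g3 : min (Int.fract x) (Int.fract y) = 0 ∨
      ∑ r, h r u (⌊x⌋ + 1) * h r w (⌊y⌋ + 1) ≤ τ u w (⌊x⌋ - ⌊y⌋) := by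
    rcases f1 with f | f
    · rcases f2 with f' | f'
      · right
        have := hτ u w (⌊x⌋ + 1) (⌊y⌋ + 1) (abs_le.2 (by omega)) (abs_le.2 (by omega))
        rwa [add_sub_add_right_eq_sub] at this
      · left; rw [f'.2, min_eq_right hx0]
    · left; rw [f.2, min_eq_left hy0]
  have k3 : min (Int.fract x) (Int.fract y) * ∑ r, h r u (⌊x⌋ + 1) * h r w (⌊y⌋ + 1) ≤
      min (Int.fract x) (Int.fract y) * τ u w (⌊x⌋ - ⌊y⌋) := by
    rcases g3 with g | g
    · rw [g]; simp
    · exact mul_le_mul_of_nonneg_left g (le_min hx0 hy0)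
  unfold itp
  rcases sub_floor x y with ⟨h1, h2, h3⟩ | ⟨h1, h2, h3⟩
  · rw [min_eq_right h1] at k3 ⊢
    rw [h2, h3]
    have k0 := mul_le_mul_of_nonneg_left g0 (show 0 ≤ 1 - Int.fract x by linarith)
    rcases g2 with g | g
    · have : Int.fract y = 0 := by linarith
      rw [g, this] at *
      linarith
    · have := mul_le_mul_of_nonneg_left g (show 0 ≤ Int.fract x - Int.fract y by linarith)
      linarith
  · rw [min_eq_left h1] at k3 ⊢
    rw [h2, h3, sub_add_cancel]
    have k0 := mul_le_mul_of_nonneg_left g0 (show 0 ≤ 1 - Int.fract y by linarith)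
    rcases g1 with g | g
    · have : Int.fract x = 0 := by linarith
      rw [g, this] at *
      linarith
    · have := mul_le_mul_of_nonneg_left g (show 0 ≤ Int.fract y - Int.fract x by linarith)
      linarith

end Pool.Agent.Lib.MP_834949_an
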