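import Pool.Agent.Lib.MP_834949_an.Tn3

/-!
The master inequality for Toeplitz sums of tent masses.
-/

set_option linter.unusedSectionVars false

namespace Pool.Agent.Lib.MP_834949_an

open MeasureTheory Set

variable {μ ν ρ : Measure ℝ} [IsProbabilityMeasure μ] [IsProbabilityMeasure ν]
  [IsProbabilityMeasure ρ] {A B C h P : ℕ} {m : ℝ}

lemma LL_cor {f g : ℤ → ℝ} (hf : ∀ k, f (k + P) = f k) (hg : ∀ k, g (k + P) = g k) :
    LL ν μ (cor P g f) = LL μ ν (cor P f g) := by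
  rw [LL_swap]
  simp only [cor_neg hg hf]

lemma jensen3 (h1 : Sp μ A) (h2 : Sp ν B) (h3 : Sp ρ C) {f g k : ℤ → ℝ}
    (hf : ∀ n, f (n + P) = f n) (hg : ∀ n, g (n + P) = g n) (hk : ∀ n, k (n + P) = k n) :
    0 ≤ LL μ μ (cor P f f) + LL ν ν (cor P g g) + LL ρ ρ (cor P k k) +
      2 * (LL μ ν (cor P f g) + LL μ ρ (cor P f k) + LL ρ ν (cor P k g)) := by
  have : ∀ u, IsProbabilityMeasure (![μ, ν, ρ] u) := fun u => by
    fin_cases u <;> assumption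
  have := jensen ![μ, ν, ρ] ![A, B, C] (fun u => by fin_cases u <;> assumption) P ![f, g, k]
    fun u => by fin_cases u <;> assumption
  simp only [Fin.sum_univ_three, Matrix.cons_val] at this
  rw [LL_cor (μ := μ) (ν := ν) hf hg, LL_cor (μ := μ) (ν := ρ) hf hk,
    LL_cor (μ := ρ) (ν := ν) hk hg] at this
  linarith

lemma cor_zero (f : ℤ → ℝ) : cor P f 0 = 0 ∧ cor P 0 f = 0 := by
  constructor <;> ext <;> simp [cor]

lemma LL_zero : LL μ ν 0 = 0 := by simp [LL]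

lemma jensen2 (h1 : Sp μ A) (h2 : Sp ν B) {f g : ℤ → ℝ}
    (hf : ∀ n, f (n + P) = f n) (hg : ∀ n, g (n + P) = g n) :
    0 ≤ LL μ μ (cor P f f) + LL ν ν (cor P g g) + 2 * LL μ ν (cor P f g) := by
  simpa [cor_zero, LL_zero] using jensen3 h1 h2 h1 (k := 0) hf hg fun _ => rfl

lemma jensen1 (h1 : Sp μ A) {f : ℤ → ℝ} (hf : ∀ n, f (n + P) = f n) :
    0 ≤ LL μ μ (cor P f f) := by
  simpa [cor_zero, LL_zero] using jensen2 h1 h1 (g := 0) hf fun _ => rfl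

lemma Sp.IT_add (hμ : Sp μ A) (f g : ℤ → ℝ) : IT μ (fun n => f n + g n) = IT μ f + IT μ g := by
  simp only [← hμ.sum_tm, add_mul, Finset.sum_add_distrib]

lemma Sp.IT_sub (hμ : Sp μ A) (f g : ℤ → ℝ) : IT μ (fun n => f n - g n) = IT μ f - IT μ g := by
  simp only [← hμ.sum_tm, sub_mul, Finset.sum_sub_distrib]

lemma Sp.IT_mul (hμ : Sp μ A) (c : ℝ) (f : ℤ → ℝ) : IT μ (fun n => c * f n) = c * IT μ f := by
  simp only [← hμ.sum_tm, mul_assoc, Finset.mul_sum]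

lemma IT_const (μ : Measure ℝ) [IsProbabilityMeasure μ] (c : ℝ) : IT μ (fun _ => c) = c := by
  have : ∀ x, itp (fun _ => c) x = c := fun x => by unfold itp; ring
  simp [IT, this]

lemma Sp.LL_sub (hμ : Sp μ A) (hν : Sp ν B) (κ κ' : ℤ → ℝ) :
    LL μ ν (fun n => κ n - κ' n) = LL μ ν κ - LL μ ν κ' := by
  have := hμ.LL_add hν (fun n => κ n - κ' n) κ'
  simp only [sub_add_cancel] at this
  linarith

/-- The law of a difference of two independent copies. -/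
noncomputable def gm (ν : Measure ℝ) : Measure ℝ := ν ∗ rf ν

instance : IsProbabilityMeasure (gm ν) := by unfold gm; infer_instance

lemma rf_gm : rf (gm ν) = gm ν := by rw [gm, rf_conv, rf_rf, Measure.conv_comm]

lemma Sp.gm (hν : Sp ν h) : Sp (gm ν) (h + h) := hν.conv hν.refl

lemma conv_gm : ν ∗ rf (gm ν) = (ν ∗ ν) ∗ rf ν := by rw [rf_gm, gm, Measure.conv_assoc]

lemma gm_gm : gm ν ∗ rf (gm ν) = (ν ∗ ν) ∗ rf (ν ∗ ν) := by
  rw [rf_gm, gm, rf_conv, Measure.conv_assoc, Measure.conv_assoc, ← Measure.conv_assoc (rf ν),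
    Measure.conv_comm (rf ν) ν, Measure.conv_assoc]

/-- The value of a Toeplitz sum. -/
noncomputable def KQ (μ ν : Measure ℝ) (τ : ℤ → ℝ) : ℝ := IT (μ ∗ rf ν) τ + LL μ ν (dd τ)

theorem master (hν : Sp ν h) (hm : 0 ≤ m) (hd : Dens (ν ∗ ν) m) (g : ℕ → ℤ → ℝ)
    (hg : ∀ u k, g u (k + P) = g u k) {s : ℝ} (hs : 0 ≤ s)
    {t11 t20 tba tbb q1 q2 e p11 p20 pba pca pbb pcc : ℤ → ℝ} (S : Finset ℤ)
    (h0 : ∀ n, 0 ≤ q1 n ∧ 0 ≤ q2 n ∧ 0 ≤ e n ∧ 0 ≤ p11 n ∧ 0 ≤ p20 n ∧ 0 ≤ pba n ∧ 0 ≤ pca n ∧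
      0 ≤ pbb n ∧ 0 ≤ pcc n)
    (hS : ∀ n ∉ S, q1 n = 0 ∧ q2 n = 0 ∧ e n = 0 ∧ pba n = 0 ∧ pca n = 0 ∧ pbb n = 0 ∧ pcc n = 0)
    (k11 : ∀ n : ℤ, |n| < 2 * h → s * dd t11 n + (cor P (g 0) (g 0) n + cor P (g 2) (g 2) n +
      (cor P (g 3) (g 3) n + cor P (g 4) (g 4) n) + (cor P (g 6) (g 6) n + cor P (g 7) (g 7) n +
      cor P (g 8) (g 8) n)) ≤ p11 n)
    (k20 : ∀ n : ℤ, |n| < 2 * h → s * (dd t20 n - 6 * e n) +
      2 * (cor P (g 3) (g 4) n + cor P (g 6) (g 7) n) ≤ p20 n)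
    (kba : ∀ n : ℤ, |n| < 3 * h → s * (dd tba n + 4 * q1 n) + 2 * cor P (g 1) (g 0) n ≤ pba n)
    (kca : ∀ n : ℤ, |n| < 3 * h → s * (dd q1 n - dd tba n) +
      2 * (cor P (g 3) (g 5) n + cor P (g 5) (g 4) n) ≤ pca n)
    (kbb : ∀ n : ℤ, |n| < 4 * h → s * (dd tbb n + 4 * q2 n) + cor P (g 1) (g 1) n ≤ pbb n)
    (kcc : ∀ n : ℤ, |n| < 4 * h → s * (dd q2 n - dd tbb n) + cor P (g 5) (g 5) n ≤ pcc n) :
    24 * s * (KQ (ν ∗ ν) (ν ∗ ν) tbb + KQ (ν ∗ ν) ν tba + KQ ν ν t11 + KQ ν (rf ν) t20 +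
      KQ ν (gm ν) (fun n => q1 n - tba n) + KQ (gm ν) (gm ν) fun n => q2 n - tbb n) ≤
    m * (24 * (s * ∑ n ∈ S, e n) +
      (max (24 * (s * ∑ n ∈ S, q1 n)) (3 * ∑ n ∈ S, pba n + 12 * (s * ∑ n ∈ S, q1 n)) +
        max (24 * (s * ∑ n ∈ S, q2 n)) (3 * ∑ n ∈ S, pbb n + 12 * (s * ∑ n ∈ S, q2 n))) +
      4 * (∑ n ∈ S, pca n + ∑ n ∈ S, pcc n)) +
    24 * s * (IT (ν ∗ ν) t20 + IT (gm ν) t11) + 6 * (IT (ν ∗ ν) p20 + IT (gm ν) p11) := by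
  have hr := hν.refl
  have hb := hν.conv hν
  have hc := hν.gm
  have j0 := jensen2 hb hν (hg 1) (hg 0)
  have j2 := jensen1 hν (hg 2)
  have j3 := jensen3 hν hr hc (hg 3) (hg 4) (hg 5)
  have j6 := jensen2 hν hr (hg 6) (hg 7)
  have j8 := jensen1 hν (hg 8)
  have e1 : ∀ u, LL (rf ν) (rf ν) (cor P (g u) (g u)) = LL ν ν (cor P (g u) (g u)) := fun u => by
    rw [LL_rf]; simp only [cor_neg (hg u) (hg u)]
  have e2 : ∀ κ, LL (gm ν) (rf ν) κ = LL ν (gm ν) κ := fun κ => by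
    conv_lhs => rw [← rf_gm, LL_rf, LL_swap]
    simp
  rw [e1] at j3 j6
  rw [e2] at j3
  have a11 := (hν.LL_mono hν fun n hn => k11 n (by omega)).trans
    (hν.LL_le_IT hν fun n => (h0 n).2.2.2.1)
  have a20 := (hν.LL_mono hr fun n hn => k20 n (by omega)).trans
    (hν.LL_le_IT hr fun n => (h0 n).2.2.2.2.1)
  have b20 := Dens.sixth (μ := ν) (ν := rf ν) (by rwa [rf_rf]) hm hν hr S
    (fun n => (h0 n).2.2.1) fun n hn => (hS n hn).2.2.1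
  have gt : ∀ {ρ : Measure ℝ} [IsProbabilityMeasure ρ] {B : ℕ}, Sp ρ B → ∀ {p q t J : ℤ → ℝ},
      (∀ n, 0 ≤ p n) → (∀ n, 0 ≤ q n) → (∀ n ∉ S, p n = 0) → (∀ n ∉ S, q n = 0) →
      (∀ n : ℤ, |n| < 2 * h + B → s * (dd t n + 4 * q n) + J n ≤ p n) →
      24 * (s * LL (ν ∗ ν) ρ (dd t) + LL (ν ∗ ν) ρ J + s * IT ((ν ∗ ν) ∗ rf ρ) q) ≤
        m * max (24 * (s * ∑ n ∈ S, q n)) (3 * ∑ n ∈ S, p n + 12 * (s * ∑ n ∈ S, q n)) := by
    intro ρ _ B hρ p q t J p0 q0 p1 q1 k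
    have a1 := hd.gtrick hm hb hρ S p0 (q := fun n => s * q n) (fun n => mul_nonneg hs (q0 n)) p1
      fun n hn => by rw [q1 n hn, mul_zero]
    have a2 := hb.LL_mono hρ (κ := fun n => s * dd t n + J n)
      (κ' := fun n => p n - 4 * (s * q n)) fun n hn => by linarith [k n (by omega)]
    rw [hb.LL_add hρ, LL_mul] at a2
    rw [(hb.conv hρ.refl).IT_mul, ← Finset.mul_sum] at a1
    have a3 := mul_max_of_nonneg (s * ∑ n ∈ S, q n)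
      ((∑ n ∈ S, p n) / 8 + (s * ∑ n ∈ S, q n) / 2) (show (0 : ℝ) ≤ 24 by norm_num)
    rw [show 3 * ∑ n ∈ S, p n + 12 * (s * ∑ n ∈ S, q n) =
      24 * ((∑ n ∈ S, p n) / 8 + (s * ∑ n ∈ S, q n) / 2) by ring, ← a3]
    linarith
  have sx : ∀ {ρ : Measure ℝ} [IsProbabilityMeasure ρ] {B : ℕ}, Sp ρ B →
      Dens (ρ ∗ rf (gm ν)) m → ∀ {p t J : ℤ → ℝ}, (∀ n, 0 ≤ p n) → (∀ n ∉ S, p n = 0) →
      (∀ n : ℤ, |n| < B + 2 * h → s * t n + J n ≤ p n) →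
      6 * (s * LL ρ (gm ν) t + LL ρ (gm ν) J) ≤ m * ∑ n ∈ S, p n := by
    intro ρ _ B hρ hD p t J p0 p1 k
    have a1 := hD.sixth hm hρ hc S p0 p1
    have a2 := hρ.LL_mono hc (κ := fun n => s * t n + J n) (κ' := p) fun n hn => k n (by omega)
    rw [hρ.LL_add hc, LL_mul] at a2
    rw [LL_mul] at a1
    linarith
  have aba := gt hν (fun n => (h0 n).2.2.2.2.2.1) (fun n => (h0 n).1) (fun n hn => (hS n hn).2.2.2.1)
    (fun n hn => (hS n hn).1) fun n hn => kba n (by omega)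
  have abb := gt hb (fun n => (h0 n).2.2.2.2.2.2.2.1) (fun n => (h0 n).2.1)
    (fun n hn => (hS n hn).2.2.2.2.2.1) (fun n hn => (hS n hn).2.1) fun n hn => kbb n (by omega)
  have aca := sx hν (conv_gm (ν := ν) ▸ hd.conv _) (fun n => (h0 n).2.2.2.2.2.2.1)
    (fun n hn => (hS n hn).2.2.2.2.1) fun n hn => kca n (by omega)
  have acc := sx hc (gm_gm (ν := ν) ▸ hd.conv _) (fun n => (h0 n).2.2.2.2.2.2.2.2)
    (fun n hn => (hS n hn).2.2.2.2.2.2) fun n hn => kcc n (by omega)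
  have e3 : ∀ a b : ℤ → ℝ, dd (fun n => a n - b n) = fun n => dd a n - dd b n := fun a b => by
    ext n; unfold dd; ring
  simp only [hν.LL_add hν, hν.LL_add hr, hν.LL_sub hr, hν.LL_add hc, LL_mul, rf_rf] at *
  simp only [KQ, e3, conv_gm, gm_gm, rf_rf, (hb.conv hr).IT_sub, (hb.conv hb.refl).IT_sub]
  rw [show IT (gm ν) p11 = IT (ν ∗ rf ν) p11 from rfl, show IT (gm ν) t11 = IT (ν ∗ rf ν) t11
    from rfl]
  have := mul_le_mul_of_nonneg_left b20 hs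
  linarith

end Pool.Agent.Lib.MP_834949_an
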