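import Mathlib

/-!
Discrete form of the autoconvolution inequality for unimodal sequences.
The extremal sequence is the sequence of normalised central binomial coefficients.
-/

namespace Pool.Agent.Lib.MP_834949_an.Uni

open Finset

/-- The normalised central binomial coefficients, the Taylor coefficients of `(1 - z)^(-1/2)`. -/
noncomputable def bc : ℕ → ℝ
  | 0 => 1
  | k + 1 => bc k * ((2 * k + 1) / (2 * k + 2))

lemma bc_zero : bc 0 = 1 := rfl

lemma bc_succ (k : ℕ) : bc (k + 1) = bc k * ((2 * k + 1) / (2 * k + 2)) := rfl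

lemma bc_pos (k : ℕ) : 0 < bc k := by
  induction k with
  | zero => rw [bc_zero]; exact one_pos
  | succ k ih => rw [bc_succ]; positivity

lemma bc_rec (k : ℕ) : (2 * (k : ℝ) + 2) * bc (k + 1) = (2 * k + 1) * bc k := by
  rw [bc_succ]; field_simp

lemma bc_anti : Antitone bc := by
  refine antitone_nat_of_succ_le fun k => ?_
  have h := bc_rec k
  have h1 := bc_pos k
  have h2 := bc_pos (k + 1)
  have h3 : (0 : ℝ) ≤ k := Nat.cast_nonneg k
  by_contra hc
  push Not at hc
  nlinarith

lemma bc_half (m : ℕ) :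
    2 * ∑ i ∈ range (m + 1), (i : ℝ) * (bc i * bc (m - i)) =
      m * ∑ i ∈ range (m + 1), bc i * bc (m - i) := by
  have h : ∑ i ∈ range (m + 1), (i : ℝ) * (bc i * bc (m - i)) =
      ∑ i ∈ range (m + 1), ((m : ℝ) - i) * (bc i * bc (m - i)) := by
    rw [← sum_flip]
    refine sum_congr rfl fun i hi => ?_
    have hi' : i ≤ m := Nat.lt_succ_iff.1 (mem_range.1 hi)
    rw [Nat.sub_sub_self hi', Nat.cast_sub hi']
    ring
  rw [two_mul]
  nth_rewrite 1 [h]
  rw [← sum_add_distrib, mul_sum]
  exact sum_congr rfl fun i _ => by ring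

lemma bc_conv (m : ℕ) : ∑ i ∈ range (m + 1), bc i * bc (m - i) = 1 := by
  induction m with
  | zero => simp [bc_zero]
  | succ m ih =>
    have h1 := bc_half (m + 1)
    have h2 := bc_half m
    rw [sum_range_succ'] at h1
    have h3 : ∑ i ∈ range (m + 1), ((i + 1 : ℕ) : ℝ) * (bc (i + 1) * bc (m + 1 - (i + 1))) =
        ∑ i ∈ range (m + 1), (i : ℝ) * (bc i * bc (m - i)) +
          (1 / 2) * ∑ i ∈ range (m + 1), bc i * bc (m - i) := by
      rw [mul_sum, ← sum_add_distrib]
      refine sum_congr rfl fun i _ => ?_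
      rw [Nat.add_sub_add_right]
      have := bc_rec i
      push_cast
      linear_combination (bc (m - i) / 2) * this
    rw [h3, ih] at h1
    rw [ih] at h2
    have h4 : (0 : ℝ) < (m : ℝ) + 1 := by positivity
    push_cast at h1
    have h5 : ((m : ℝ) + 1) * (∑ i ∈ range (m + 1 + 1), bc i * bc (m + 1 - i)) = (m + 1) * 1 := by
      linarith
    exact mul_left_cancel₀ h4.ne' h5

lemma bc_sum (n : ℕ) : ∑ k ∈ range n, bc k = 2 * n * bc n := by
  induction n with
  | zero => simp
  | succ n ih =>
    rw [sum_range_succ, ih]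
    have := bc_rec n
    push_cast
    linarith

lemma bc_wallis (n : ℕ) : Real.Wallis.W n * (bc n ^ 2 * (2 * n + 1)) = 1 := by
  induction n with
  | zero => simp [Real.Wallis.W, bc_zero]
  | succ n ih =>
    rw [Real.Wallis.W_succ, bc_succ]
    refine Eq.trans ?_ ih
    push_cast
    field_simp
    ring

lemma bc_sq_ge (n : ℕ) : 2 ≤ Real.pi * (bc n ^ 2 * (2 * n + 1)) := by
  have h := bc_wallis n
  have h1 := Real.Wallis.W_le n
  have h2 : 0 < bc n ^ 2 * (2 * (n : ℝ) + 1) := by have := bc_pos n; positivity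
  nlinarith

lemma bc_sq_le (n : ℕ) : Real.pi * (n * bc n ^ 2) ≤ 1 := by
  have h := bc_wallis n
  have h1 := Real.Wallis.le_W n
  have hb : 0 < bc n ^ 2 := by have := bc_pos n; positivity
  have h2 : 0 < bc n ^ 2 * (2 * (n : ℝ) + 1) := by positivity
  have hn : (0 : ℝ) ≤ n := Nat.cast_nonneg n
  have h3 := mul_le_mul_of_nonneg_right h1 h2.le
  rw [h] at h3
  have h4 : (n : ℝ) ≤ (2 * n + 1) / (2 * n + 2) / 2 * (2 * n + 1) := by
    rw [div_div, div_mul_eq_mul_div, le_div_iff₀ (by positivity)]
    nlinarith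
  have h5 := mul_le_mul_of_nonneg_left h4 (mul_pos Real.pi_pos hb).le
  calc Real.pi * (n * bc n ^ 2) = Real.pi * bc n ^ 2 * n := by ring
    _ ≤ _ := h5
    _ = _ := by ring
    _ ≤ 1 := h3

/-- The nonincreasing case. -/
lemma mono_le (a : ℕ → ℝ) (n : ℕ) (r : ℝ) (hr : 0 < r) (h0 : ∀ k, 0 ≤ a k)
    (hanti : ∀ i j, i ≤ j → j < n → a j ≤ a i)
    (hc : ∀ m, m < n → ∑ i ∈ range (m + 1), a i * a (m - i) ≤ r ^ 2) :
    ∑ k ∈ range n, a k ≤ r * ∑ k ∈ range n, bc k := by
  have key : ∀ m, m ≤ n → ∑ k ∈ range m, (a k - r * bc k) ≤ 0 := by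
    intro m
    induction m using Nat.strong_induction_on with
    | _ m ih =>
      intro hm
      rcases m with _ | m
      · simp
      have h1 : ∑ i ∈ range (m + 1), (a (m - i) + r * bc (m - i)) • (a i - r * bc i) ≤ 0 := by
        have e1 : ∑ i ∈ range (m + 1), a (m - i) * bc i = ∑ i ∈ range (m + 1), a i * bc (m - i) := by
          rw [← sum_flip]
          refine sum_congr rfl fun i hi => ?_
          rw [Nat.sub_sub_self (Nat.lt_succ_iff.1 (mem_range.1 hi))]
        have e2 : ∑ i ∈ range (m + 1), (a (m - i) + r * bc (m - i)) • (a i - r * bc i) =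
            ∑ i ∈ range (m + 1), a i * a (m - i) - r * ∑ i ∈ range (m + 1), a (m - i) * bc i +
              r * ∑ i ∈ range (m + 1), a i * bc (m - i) -
              r ^ 2 * ∑ i ∈ range (m + 1), bc i * bc (m - i) := by
          simp only [mul_sum, ← sum_add_distrib, ← sum_sub_distrib, smul_eq_mul]
          exact sum_congr rfl fun i _ => by ring
        rw [e2, e1, bc_conv]
        have := hc m (by omega)
        linarith
      rw [sum_range_by_parts (fun i => a (m - i) + r * bc (m - i)) (fun i => a i - r * bc i)] at h1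
      simp only [Nat.add_sub_cancel, Nat.sub_self, smul_eq_mul] at h1
      have h2 : ∑ i ∈ range m, (a (m - (i + 1)) + r * bc (m - (i + 1)) -
          (a (m - i) + r * bc (m - i))) * ∑ j ∈ range (i + 1), (a j - r * bc j) ≤ 0 := by
        refine sum_nonpos fun i hi => ?_
        have hi' := mem_range.1 hi
        refine mul_nonpos_of_nonneg_of_nonpos ?_ (ih (i + 1) (by omega) (by omega))
        have t1 := hanti (m - (i + 1)) (m - i) (by omega) (by omega)
        have t2 := mul_le_mul_of_nonneg_left (bc_anti (show m - (i + 1) ≤ m - i by omega)) hr.le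
        linarith
      have h3 : 0 < a 0 + r * bc 0 := by have := h0 0; have := bc_pos 0; positivity
      by_contra hcon
      push Not at hcon
      have := mul_pos h3 hcon
      linarith
  have := key n le_rfl
  rw [sum_sub_distrib, ← mul_sum] at this
  linarith

/-- The rearrangement step. -/
lemma rearr (m : ℕ) (x y : ℕ → ℝ) (φ : ℕ → ℕ) (hφ : ∀ k, k ≤ m → φ k ≤ m)
    (hinj : ∀ i j, i ≤ m → j ≤ m → φ i = φ j → i = j) (hy : ∀ k, k ≤ m → y k = x (φ k))
    (hanti : ∀ i j, i ≤ j → j ≤ m → y j ≤ y i) :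
    ∑ i ∈ range (m + 1), y i * y (m - i) ≤ ∑ i ∈ range (m + 1), x i * x (m - i) := by
  let ψ : Fin (m + 1) → Fin (m + 1) := fun k => ⟨φ k, Nat.lt_succ_of_le (hφ k (Fin.is_le k))⟩
  have hψ : Function.Injective ψ := fun i j h =>
    Fin.ext (hinj i j (Fin.is_le i) (Fin.is_le j) (congrArg Fin.val h))
  let e : Equiv.Perm (Fin (m + 1)) := Equiv.ofBijective ψ (Finite.injective_iff_bijective.1 hψ)
  have he : ∀ k : Fin (m + 1), y k = x (e k) := fun k => hy k (Fin.is_le k)
  have hav : Antivary (fun k : Fin (m + 1) => y k) (fun k : Fin (m + 1) => y (Fin.rev k)) := by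
    intro i j hij
    by_contra hc
    push Not at hc
    rcases le_total i j with h | h
    · exact absurd (hanti i j h (Fin.is_le j)) (not_le.2 hc)
    · exact absurd (hanti (Fin.rev i) (Fin.rev j) (Fin.rev_le_rev.2 h) (Fin.is_le _)) (not_le.2 hij)
  have h := hav.sum_mul_le_sum_mul_comp_perm
    (σ := e.trans (Fin.revPerm.trans (e.symm.trans Fin.revPerm)))
  have hrev : ∀ k : Fin (m + 1), ((Fin.rev k : Fin (m + 1)) : ℕ) = m - k := fun k => by
    rw [Fin.val_rev]; omega
  rw [sum_range, sum_range]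
  calc ∑ i : Fin (m + 1), y i * y (m - i) = ∑ i : Fin (m + 1), y i * y (Fin.rev i) := by
        simp only [hrev]
    _ ≤ _ := h
    _ = ∑ i : Fin (m + 1), x (e i) * x (Fin.rev (e i)) := by
        refine sum_congr rfl fun i _ => ?_
        simp only [Equiv.trans_apply, Fin.revPerm_apply, Fin.rev_rev, he, Equiv.apply_symm_apply]
    _ = ∑ i : Fin (m + 1), x i * x (Fin.rev i) :=
        Equiv.sum_comp e (fun i : Fin (m + 1) => x i * x (Fin.rev i))
    _ = _ := by simp only [hrev]

/-- Sorting a unimodal sequence by removing the smaller end. -/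
lemma peel (a : ℤ → ℝ) (n : ℕ) : ∀ L : ℤ,
    (∀ i j k, L ≤ i → i ≤ j → j ≤ k → k < L + n → min (a i) (a k) ≤ a j) →
    ∃ e : ℕ → ℤ, (∀ m : ℕ, m ≤ n → ∃ l, L ≤ l ∧ l + m ≤ L + n ∧ ∀ k, k < m → l ≤ e k ∧ e k < l + m) ∧
      (∀ i j, i < n → j < n → e i = e j → i = j) ∧
      (∀ i j, i ≤ j → j < n → a (e j) ≤ a (e i)) ∧
      ∑ k ∈ range n, a (e k) = ∑ k ∈ range n, a (L + k) := by
  induction n with
  | zero =>
    intro L _
    refine ⟨fun _ => 0, fun m hm => ⟨L, le_rfl, by omega, fun k hk => by omega⟩,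
      fun i j hi => by omega, fun i j _ hj => by omega, by simp⟩
  | succ n ih =>
    intro L hq
    have main : ∀ (L' z : ℤ), (L' = L + 1 ∧ z = L) ∨ (L' = L ∧ z = L + n) →
        (∀ j, L ≤ j → j ≤ L + n → a z ≤ a j) →
        ∃ e : ℕ → ℤ, (∀ m : ℕ, m ≤ n + 1 → ∃ l, L ≤ l ∧ l + m ≤ L + (n + 1 : ℕ) ∧
          ∀ k, k < m → l ≤ e k ∧ e k < l + m) ∧
        (∀ i j, i < n + 1 → j < n + 1 → e i = e j → i = j) ∧
        (∀ i j, i ≤ j → j < n + 1 → a (e j) ≤ a (e i)) ∧
        ∑ k ∈ range (n + 1), a (e k) = ∑ k ∈ range (n + 1), a (L + k) := by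
      intro L' z hz hmin
      obtain ⟨e, h1, h2, h3, h4⟩ := ih L' fun i j k hi hij hjk hk =>
        hq i j k (by omega) hij hjk (by push_cast; omega)
      obtain ⟨l0, hl1, hl2, hl3⟩ := h1 n le_rfl
      have hlt : ∀ k, k < n → (if k < n then e k else z) = e k := fun k hk => if_pos hk
      have hn : (if n < n then e n else z) = z := if_neg (lt_irrefl n)
      refine ⟨fun k => if k < n then e k else z, ?_, ?_, ?_, ?_⟩
      · intro m hm
        rcases Nat.lt_or_ge m (n + 1) with h | h
        · obtain ⟨l, t1, t2, t3⟩ := h1 m (by omega)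
          refine ⟨l, by omega, by push_cast; omega, fun k hk => ?_⟩
          simp only [hlt k (by omega)]
          exact t3 k hk
        · obtain rfl : m = n + 1 := by omega
          refine ⟨L, le_rfl, le_rfl, fun k hk => ?_⟩
          by_cases hk' : k < n
          · simp only [hlt k hk']
            have := hl3 k hk'
            push_cast
            omega
          · simp only [if_neg hk']
            push_cast
            omega
      · intro i j hi hj hij
        by_cases hi' : i < n <;> by_cases hj' : j < n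
        · simp only [if_pos hi', if_pos hj'] at hij
          exact h2 i j hi' hj' hij
        · simp only [if_pos hi', if_neg hj'] at hij
          have := hl3 i hi'
          omega
        · simp only [if_neg hi', if_pos hj'] at hij
          have := hl3 j hj'
          omega
        · omega
      · intro i j hij hj
        by_cases hi' : i < n <;> by_cases hj' : j < n
        · simp only [if_pos hi', if_pos hj']
          exact h3 i j hij hj'
        · simp only [if_pos hi', if_neg hj']
          have := hl3 i hi'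
          exact hmin _ (by omega) (by omega)
        · omega
        · simp only [if_neg hi', if_neg hj', le_refl]
      · rw [sum_range_succ]
        simp only [hn]
        rw [sum_congr rfl fun k hk => by simp only [hlt k (mem_range.1 hk)]; rfl, h4]
        rcases hz with ⟨rfl, rfl⟩ | ⟨rfl, rfl⟩
        · rw [sum_range_succ']
          simp only [Nat.cast_zero, add_zero]
          congr 1
          exact sum_congr rfl fun k _ => by congr 1; push_cast; ring
        · rw [sum_range_succ]
    rcases le_total (a L) (a (L + n)) with h | h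
    · refine main (L + 1) L (Or.inl ⟨rfl, rfl⟩) fun j h1 h2 => ?_
      have := hq L j (L + n) le_rfl h1 h2 (by push_cast; omega)
      rwa [min_eq_left h] at this
    · refine main L (L + n) (Or.inr ⟨rfl, rfl⟩) fun j h1 h2 => ?_
      have := hq L j (L + n) le_rfl h1 h2 (by push_cast; omega)
      rwa [min_eq_right h] at this

/-- The discrete inequality for unimodal sequences. -/
lemma uni_le (a : ℤ → ℝ) (L : ℤ) (n : ℕ) (r : ℝ) (hr : 0 < r) (h0 : ∀ i, 0 ≤ a i)
    (hq : ∀ i j k, L ≤ i → i ≤ j → j ≤ k → k < L + n → min (a i) (a k) ≤ a j)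
    (hc : ∀ (l : ℤ) (m : ℕ), L ≤ l → l + m + 1 ≤ L + n →
      ∑ i ∈ range (m + 1), a (l + i) * a (l + (m - i : ℕ)) ≤ r ^ 2) :
    ∑ i ∈ range n, a (L + i) ≤ r * (2 * n * bc n) := by
  obtain ⟨e, h1, h2, h3, h4⟩ := peel a n L hq
  rw [← h4, ← bc_sum]
  refine mono_le (fun k => a (e k)) n r hr (fun k => h0 _) h3 fun m hm => ?_
  obtain ⟨l, t1, t2, t3⟩ := h1 (m + 1) hm
  refine le_trans (rearr m (fun i => a (l + i)) (fun k => a (e k)) (fun k => (e k - l).toNat)
    ?_ ?_ ?_ ?_) (hc l m t1 (by push_cast at t2; omega))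
  · intro k hk
    have := t3 k (by omega)
    push_cast at this
    omega
  · intro i j hi hj hij
    have u1 := t3 i (by omega)
    have u2 := t3 j (by omega)
    exact h2 i j (by omega) (by omega) (by omega)
  · intro k hk
    have := t3 k (by omega)
    congr 1
    omega
  · intro i j hij hj
    exact h3 i j hij (by omega)

end Pool.Agent.Lib.MP_834949_an.Uni
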