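import Pool.Agent.Lib.MP_834949_an.Uni1

/-!
The lower bound for unimodal functions: discretisation by lower step functions.
-/

namespace Pool.Agent.Lib.MP_834949_an.Uni

open MeasureTheory Set

lemma integrable_conv {f : ℝ → ℝ} (hf : MemLp f 2 volume) (t : ℝ) :
    Integrable (fun x => f x * f (t - x)) := by
  have h : MemLp (fun x => f (t - x)) 2 volume :=
    hf.comp_measurePreserving (Measure.measurePreserving_sub_left volume t)
  exact hf.integrable_mul h

lemma conv_le {f : ℝ → ℝ} (hf : MemLp f 2 volume) (t : ℝ) :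
    ∫ x, f x * f (t - x) ≤ ∫ x, f x ^ 2 := by
  have h1 : Integrable (fun x => f x ^ 2) := hf.integrable_sq
  have h2 : Integrable (fun x => f (t - x) ^ 2) := h1.comp_sub_left t
  have h3 : ∫ x, f (t - x) ^ 2 = ∫ x, f x ^ 2 := integral_sub_left_eq_self (fun x => f x ^ 2) _ t
  have h4 : ∫ x, f x * f (t - x) ≤ ∫ x, (f x ^ 2 + f (t - x) ^ 2) / 2 :=
    integral_mono (integrable_conv hf t) ((h1.add h2).div_const 2)
      fun x => by nlinarith [sq_nonneg (f x - f (t - x))]
  rw [integral_div, integral_add h1 h2, h3] at h4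
  linarith

lemma ii {f : ℝ → ℝ} (hf : MemLp f 2 volume) (u v : ℝ) : IntervalIntegrable f volume u v :=
  (hf.locallyIntegrable (by norm_num)).integrableOn_isCompact isCompact_uIcc
    |>.intervalIntegrable

lemma small {f : ℝ → ℝ} (hf : MemLp f 2 volume) {ε : ℝ} (hε : 0 < ε) :
    ∃ h : ℝ, 0 < h ∧ ∀ u v, u ≤ v → v ≤ u + h → ∫ x in u..v, f x ≤ ε := by
  have h1 : Integrable (fun x => f x ^ 2) := hf.integrable_sq
  set E := ∫ x, f x ^ 2 with hE
  have hE0 : 0 ≤ E := integral_nonneg fun x => sq_nonneg _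
  set δ := ε / (2 * (E + 1)) with hδ
  have hδ0 : 0 < δ := by positivity
  refine ⟨δ * ε / 2, by positivity, fun u v huv hv => ?_⟩
  have h2 : ∫ x in u..v, f x ≤ ∫ x in u..v, (δ * f x ^ 2 + 1 / δ) := by
    refine intervalIntegral.integral_mono_on huv (ii hf u v)
      ((h1.intervalIntegrable.const_mul δ).add intervalIntegrable_const) fun x _ => ?_
    have : δ * f x ≤ δ * (δ * f x ^ 2 + 1 / δ) := by
      rw [mul_add, mul_one_div_cancel hδ0.ne']
      nlinarith [sq_nonneg (δ * f x - 1), sq_nonneg (δ * f x)]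
    exact le_of_mul_le_mul_left this hδ0
  rw [intervalIntegral.integral_add (h1.intervalIntegrable.const_mul δ) intervalIntegrable_const,
    intervalIntegral.integral_const_mul, intervalIntegral.integral_const] at h2
  have h3 : ∫ x in u..v, f x ^ 2 ≤ E := by
    rw [intervalIntegral.integral_of_le huv]
    exact setIntegral_le_integral h1 (ae_of_all _ fun x => sq_nonneg _)
  have h4 : δ * E ≤ ε / 2 := by
    rw [hδ, div_mul_eq_mul_div, div_le_div_iff₀ (by positivity) (by positivity)]
    nlinarith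
  have h5 : (v - u) • (1 / δ) ≤ ε / 2 := by
    rw [smul_eq_mul, mul_one_div, div_le_iff₀ hδ0]
    linarith
  have h6 := mul_le_mul_of_nonneg_left h3 hδ0.le
  linarith

/-- Lower Riemann sums of a nonincreasing function. -/
lemma riemann {g : ℝ → ℝ} (hi : ∀ u v, IntervalIntegrable g volume u v) {T h ε : ℝ} (hT : 0 ≤ T)
    (hh : 0 < h) (hε : 0 ≤ ε) (hanti : AntitoneOn g (Ioo 0 T))
    (hs : ∀ u v, u ≤ v → v ≤ u + h → ∫ x in u..v, g x ≤ ε) :
    ∃ q : ℕ, (q = 0 ∨ ((q : ℝ) + 1) * h ≤ T) ∧
      ∫ x in (0 : ℝ)..T, g x ≤ h * ∑ k ∈ Finset.range q, g ((k + 1) * h) + 2 * ε := by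
  have hlt : T < ((⌊T / h⌋₊ : ℝ) + 1) * h := by
    rw [← div_lt_iff₀ hh]; exact Nat.lt_floor_add_one _
  have hle : (⌊T / h⌋₊ : ℝ) * h ≤ T := by
    rw [← le_div_iff₀ hh]; exact Nat.floor_le (by positivity)
  rcases hN : ⌊T / h⌋₊ with _ | q
  · rw [hN] at hlt
    refine ⟨0, Or.inl rfl, ?_⟩
    have := hs 0 T hT (by simp at hlt; linarith)
    simp only [Finset.range_zero, Finset.sum_empty, mul_zero, zero_add]
    linarith
  · rw [hN] at hlt hle
    push_cast at hlt hle
    refine ⟨q, Or.inr hle, ?_⟩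
    have e1 := intervalIntegral.sum_integral_adjacent_intervals (f := g) (μ := volume)
      (a := fun k : ℕ => ((k : ℝ) + 1) * h) (n := q) fun k _ => hi _ _
    simp only [Nat.cast_zero, zero_add, one_mul] at e1
    have e2 := intervalIntegral.integral_add_adjacent_intervals (hi 0 h) (hi h (((q : ℝ) + 1) * h))
    have e3 := intervalIntegral.integral_add_adjacent_intervals (hi 0 (((q : ℝ) + 1) * h))
      (hi (((q : ℝ) + 1) * h) T)
    have b1 := hs 0 h hh.le (by linarith)
    have b2 := hs (((q : ℝ) + 1) * h) T hle (by linarith)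
    have b3 : ∑ k ∈ Finset.range q, ∫ x in (((k : ℝ) + 1) * h)..((((k + 1 : ℕ) : ℝ) + 1) * h), g x ≤
        h * ∑ k ∈ Finset.range q, g ((k + 1) * h) := by
      rw [Finset.mul_sum]
      refine Finset.sum_le_sum fun k hk => ?_
      have hk' : (k : ℝ) + 1 ≤ q := by exact_mod_cast Finset.mem_range.1 hk
      have hk0 : (0 : ℝ) ≤ k := Nat.cast_nonneg k
      push_cast
      have c1 : ((k : ℝ) + 1) * h ≤ (k + 1 + 1) * h := by nlinarith
      have c2 : ((k : ℝ) + 1 + 1) * h ≤ T := by nlinarith
      have c3 : 0 < ((k : ℝ) + 1) * h := by positivity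
      have := intervalIntegral.integral_mono_on_of_le_Ioo c1 (hi _ _)
        (intervalIntegrable_const (c := g ((k + 1) * h))) fun x hx =>
          hanti ⟨c3, by nlinarith⟩ ⟨by linarith [hx.1], by linarith [hx.2]⟩ hx.1.le
      rw [intervalIntegral.integral_const, smul_eq_mul] at this
      refine this.trans (le_of_eq ?_)
      ring
    linarith

/-- The lower bound for unimodal functions. -/
lemma lower {f : ℝ → ℝ} (h0 : ∀ x, 0 ≤ f x) (hf : MemLp f 2 volume) {c : ℝ}
    (hc : c ∈ Icc (-1 / 4 : ℝ) (1 / 4)) (hm : MonotoneOn f (Ioo (-1 / 4) c))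
    (ha : AntitoneOn f (Ioo c (1 / 4))) {R : ℝ} (hR : 0 < R)
    (hM : ∀ t ∈ Icc (-1 / 2 : ℝ) (1 / 2), ∫ x, f x * f (t - x) ≤ R) :
    ∫ x in (-1 / 4 : ℝ)..(1 / 4), f x ≤ √(2 * R / Real.pi) := by
  refine le_of_forall_pos_le_add fun ε hε => ?_
  obtain ⟨h, hh, hs⟩ := small hf (show 0 < ε / 4 by positivity)
  obtain ⟨hc1, hc2⟩ := hc
  obtain ⟨q, hq, hq'⟩ := riemann (g := fun x => f (c + x)) (T := 1 / 4 - c) (h := h) (ε := ε / 4)
    (fun u v => by simpa using (ii hf (c + u) (c + v)).comp_add_left c) (by linarith) hh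
    (by positivity)
    (fun x hx y hy hxy => ha ⟨by linarith [hx.1], by linarith [hx.2]⟩
      ⟨by linarith [hy.1], by linarith [hy.2]⟩ (by linarith))
    (fun u v huv hv => by
      rw [intervalIntegral.integral_comp_add_left f c]
      exact hs _ _ (by linarith) (by linarith))
  obtain ⟨p, hp, hp'⟩ := riemann (g := fun x => f (c - x)) (T := c + 1 / 4) (h := h) (ε := ε / 4)
    (fun u v => by simpa using (ii hf (c - u) (c - v)).comp_sub_left c) (by linarith) hh
    (by positivity)
    (fun x hx y hy hxy => hm ⟨by linarith [hy.2], by linarith [hy.1]⟩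
      ⟨by linarith [hx.2], by linarith [hx.1]⟩ (by linarith))
    (fun u v huv hv => by
      rw [intervalIntegral.integral_comp_sub_left f c]
      exact hs _ _ (by linarith) (by linarith))
  rw [intervalIntegral.integral_comp_add_left f c] at hq'
  rw [intervalIntegral.integral_comp_sub_left f c] at hp'
  simp only [add_zero, sub_zero, add_sub_cancel] at hq' hp'
  rw [show c - (c + 1 / 4) = -1 / 4 by ring] at hp'
  have hsplit := intervalIntegral.integral_add_adjacent_intervals (ii hf (-1 / 4) c)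
    (ii hf c (1 / 4))
  have hq1 : c + q * h ≤ 1 / 4 := by
    rcases hq with rfl | hq
    · simpa using hc2
    · linarith
  have hp1 : -1 / 4 ≤ c - p * h := by
    rcases hp with rfl | hp
    · simpa using hc1
    · linarith
  let a : ℤ → ℝ := fun i => if 0 ≤ i then f (c + (i + 1) * h) else f (c + i * h)
  have hR1 : ∀ i : ℤ, 0 ≤ i → i < q → c + ((i : ℝ) + 1) * h ∈ Ioo c (1 / 4) := by
    intro i h1 h2
    have h1' : (0 : ℝ) ≤ i := by exact_mod_cast h1
    have h2' : (i : ℝ) + 1 ≤ q := by exact_mod_cast h2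
    rcases hq with rfl | hq
    · simp at h2; omega
    · exact ⟨by nlinarith, by nlinarith⟩
  have hL1 : ∀ i : ℤ, -(p : ℤ) ≤ i → i < 0 → c + (i : ℝ) * h ∈ Ioo (-1 / 4) c := by
    intro i h1 h2
    have h1' : -(p : ℝ) ≤ i := by exact_mod_cast h1
    have h2' : (i : ℝ) < 0 := by exact_mod_cast h2
    rcases hp with rfl | hp
    · simp at h1; omega
    · exact ⟨by nlinarith, by nlinarith⟩
  have hcell : ∀ i : ℤ, -(p : ℤ) ≤ i → i < q → ∀ x, c + i * h < x → x < c + (i + 1) * h →
      a i ≤ f x := by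
    intro i h1 h2 x hx1 hx2
    by_cases hi : 0 ≤ i
    · have hi' : (0 : ℝ) ≤ i := by exact_mod_cast hi
      have t := hR1 i hi h2
      simp only [a, if_pos hi]
      exact ha ⟨by nlinarith, by linarith [t.2]⟩ t hx2.le
    · have hi' : (i : ℝ) + 1 ≤ 0 := by exact_mod_cast (by omega : i + 1 ≤ 0)
      have t := hL1 i h1 (by omega)
      simp only [a, if_neg hi]
      exact hm t ⟨by linarith [t.1], by nlinarith⟩ hx1.le
  have ha0 : ∀ i, 0 ≤ a i := fun i => by
    simp only [a]; split_ifs <;> exact h0 _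
  have hr : 0 < √(R / h) := Real.sqrt_pos.2 (by positivity)
  have key := uni_le a (-(p : ℤ)) (p + q) (√(R / h)) hr ha0 ?_ ?_
  · have e1 : ∑ i ∈ Finset.range (p + q), a (-(p : ℤ) + i) =
        ∑ k ∈ Finset.range p, f (c - (k + 1) * h) + ∑ k ∈ Finset.range q, f (c + (k + 1) * h) := by
      rw [Finset.sum_range_add, ← Finset.sum_range_reflect _ p]
      congr 1
      · refine Finset.sum_congr rfl fun k hk => ?_
        have hk' := Finset.mem_range.1 hk
        have e : -(p : ℤ) + ((p - 1 - k : ℕ) : ℤ) = -((k : ℤ) + 1) := by omega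
        rw [e]
        simp only [a, if_neg (show ¬ (0 : ℤ) ≤ -((k : ℤ) + 1) by omega)]
        congr 1
        push_cast
        ring
      · refine Finset.sum_congr rfl fun k _ => ?_
        have e : -(p : ℤ) + ((p + k : ℕ) : ℤ) = (k : ℤ) := by omega
        rw [e]
        simp only [a, if_pos (show (0 : ℤ) ≤ (k : ℤ) by omega)]
        simp
    rw [e1] at key
    have hn : (((p + q : ℕ) : ℝ)) * h ≤ 1 / 2 := by push_cast; linarith
    set n : ℕ := p + q
    have hb := bc_sq_le n
    have hb0 := bc_pos n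
    have e2 : h * (√(R / h) * (2 * n * bc n)) ≤ √(2 * R / Real.pi) := by
      refine Real.le_sqrt_of_sq_le ?_
      rw [mul_pow, mul_pow, Real.sq_sqrt (by positivity), le_div_iff₀ Real.pi_pos]
      have e3 : h ^ 2 * (R / h * (2 * n * bc n) ^ 2) * Real.pi =
          4 * R * ((n * h) * (Real.pi * (n * bc n ^ 2))) := by
        field_simp
        ring
      rw [e3]
      have := mul_le_mul hn hb (by have := Real.pi_pos; positivity) (by norm_num)
      nlinarith
    have := mul_le_mul_of_nonneg_left key hh.le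
    rw [mul_add] at this
    linarith
  · intro i j k hi hij hjk hk
    have hk' : k < q := by push_cast at hk; omega
    by_cases hj : 0 ≤ j
    · refine (min_le_right _ _).trans ?_
      simp only [a, if_pos hj, if_pos (hj.trans hjk)]
      have : (j : ℝ) ≤ k := by exact_mod_cast hjk
      exact ha (hR1 j hj (by omega)) (hR1 k (by omega) hk') (by nlinarith)
    · refine (min_le_left _ _).trans ?_
      simp only [a, if_neg hj, if_neg (show ¬ 0 ≤ i by omega)]
      have : (i : ℝ) ≤ j := by exact_mod_cast hij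
      exact hm (hL1 i hi (by omega)) (hL1 j (by omega) (by omega)) (by nlinarith)
  · intro l m hl hlm
    have hlm' : l + m + 1 ≤ q := by push_cast at hlm; omega
    have hl1 : -(p : ℝ) ≤ l := by exact_mod_cast hl
    have hl2 : (l : ℝ) + m + 1 ≤ q := by exact_mod_cast hlm'
    have hm0 : (0 : ℝ) ≤ m := Nat.cast_nonneg m
    set t : ℝ := 2 * c + (2 * l + m + 1) * h with ht
    have ht1 := hM t ⟨by nlinarith, by nlinarith⟩
    have hint := integrable_conv hf t
    have e1 := intervalIntegral.sum_integral_adjacent_intervals (f := fun x => f x * f (t - x))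
      (μ := volume) (a := fun k : ℕ => c + ((l : ℝ) + k) * h) (n := m + 1)
      fun k _ => hint.intervalIntegrable
    have e2 : ∫ x in (c + ((l : ℝ) + (0 : ℕ)) * h)..(c + ((l : ℝ) + (m + 1 : ℕ)) * h),
        f x * f (t - x) ≤ ∫ x, f x * f (t - x) := by
      rw [intervalIntegral.integral_of_le (by push_cast; nlinarith)]
      exact setIntegral_le_integral hint (ae_of_all _ fun x => mul_nonneg (h0 _) (h0 _))
    have e3 : h * ∑ i ∈ Finset.range (m + 1), a (l + i) * a (l + (m - i : ℕ)) ≤
        ∑ k ∈ Finset.range (m + 1), ∫ x in (c + ((l : ℝ) + k) * h)..(c + ((l : ℝ) + (k + 1 : ℕ)) * h),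
          f x * f (t - x) := by
      rw [Finset.mul_sum]
      refine Finset.sum_le_sum fun k hk => ?_
      have hk' : k ≤ m := Nat.lt_succ_iff.1 (Finset.mem_range.1 hk)
      have c1 : c + ((l : ℝ) + k) * h ≤ c + ((l : ℝ) + (k + 1 : ℕ)) * h := by
        push_cast; nlinarith
      have := intervalIntegral.integral_mono_on_of_le_Ioo c1
        (intervalIntegrable_const (c := a (l + k) * a (l + (m - k : ℕ))))
        (hint.intervalIntegrable) fun x hx => by
          obtain ⟨hx1, hx2⟩ := hx
          push_cast at hx2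
          refine mul_le_mul (hcell _ (by omega) (by omega) x ?_ ?_)
            (hcell _ (by omega) (by omega) (t - x) ?_ ?_) (ha0 _) (h0 _)
          · push_cast; linarith
          · push_cast; linarith
          · push_cast [Nat.cast_sub hk']; linarith
          · push_cast [Nat.cast_sub hk']; linarith
      rw [intervalIntegral.integral_const, smul_eq_mul] at this
      refine le_trans (le_of_eq ?_) this
      push_cast
      ring
    rw [Real.sq_sqrt (by positivity), le_div_iff₀ hh]
    linarith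

end Pool.Agent.Lib.MP_834949_an.Uni
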