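import Pool.Agent.Lib.MP_834949_an.Uni2

/-!
Sharpness: nonincreasing step functions with central binomial heights.
-/

namespace Pool.Agent.Lib.MP_834949_an.Uni

open MeasureTheory Set

/-- The step function with heights `bc k` on `n` cells of width `h` starting at `-1/4`. -/
noncomputable def stp (n : ℕ) (h : ℝ) (x : ℝ) : ℝ :=
  ∑ k ∈ Finset.range n, (Ico (-1 / 4 + k * h) (-1 / 4 + (k + 1) * h)).indicator (fun _ => bc k) x

lemma stp_nonneg (n : ℕ) (h x : ℝ) : 0 ≤ stp n h x :=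
  Finset.sum_nonneg fun k _ => indicator_nonneg (fun _ _ => (bc_pos k).le) x

lemma stp_memLp (n : ℕ) (h : ℝ) : MemLp (stp n h) 2 volume := by
  have : stp n h = ∑ k ∈ Finset.range n,
      (Ico (-1 / 4 + k * h) (-1 / 4 + (k + 1) * h)).indicator (fun _ : ℝ => bc k) := by
    funext x; simp [stp]
  rw [this]
  exact memLp_finsetSum' _ fun k _ =>
    memLp_indicator_const 2 measurableSet_Ico _ (Or.inr (by simp))

lemma stp_eq {n : ℕ} {h : ℝ} (hh : 0 < h) (hn : n * h = 1 / 2) {x : ℝ}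
    (hx : x ∈ Ioo (-1 / 4 : ℝ) (1 / 4)) : stp n h x = bc ⌊(x + 1 / 4) / h⌋₊ := by
  have h0 : 0 ≤ (x + 1 / 4) / h := div_nonneg (by linarith [hx.1]) hh.le
  have hiff : ∀ k : ℕ, x ∈ Ico (-1 / 4 + k * h) (-1 / 4 + (k + 1) * h) ↔
      ⌊(x + 1 / 4) / h⌋₊ = k := by
    intro k
    rw [Nat.floor_eq_iff h0, le_div_iff₀ hh, div_lt_iff₀ hh, mem_Ico]
    constructor <;> rintro ⟨h1, h2⟩ <;> constructor <;> linarith
  have hlt : ⌊(x + 1 / 4) / h⌋₊ < n := by
    rw [Nat.floor_lt h0, div_lt_iff₀ hh]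
    linarith [hx.2]
  unfold stp
  rw [Finset.sum_eq_single_of_mem _ (Finset.mem_range.2 hlt)]
  · exact indicator_of_mem ((hiff _).2 rfl) _
  · intro k _ hk
    exact indicator_of_notMem (fun hmem => hk ((hiff k).1 hmem).symm) _

lemma stp_anti {n : ℕ} {h : ℝ} (hh : 0 < h) (hn : n * h = 1 / 2) :
    AntitoneOn (stp n h) (Ioo (-1 / 4 : ℝ) (1 / 4)) := by
  intro x hx y hy hxy
  rw [stp_eq hh hn hx, stp_eq hh hn hy]
  exact bc_anti (Nat.floor_le_floor (by gcongr))

lemma stp_integral {n : ℕ} {h : ℝ} (hh : 0 < h) (hn : n * h = 1 / 2) :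
    ∫ x in (-1 / 4 : ℝ)..(1 / 4), stp n h x = bc n := by
  have e1 : ∫ x in (-1 / 4 : ℝ)..(1 / 4), stp n h x = ∫ x, stp n h x := by
    rw [intervalIntegral.integral_of_le (by norm_num), ← integral_Icc_eq_integral_Ioc]
    refine setIntegral_eq_integral_of_forall_compl_eq_zero fun x hx => ?_
    refine Finset.sum_eq_zero fun k hk => indicator_of_notMem (fun hmem => hx ?_) _
    have hk' : (k : ℝ) + 1 ≤ n := by exact_mod_cast Finset.mem_range.1 hk
    have hk0 : (0 : ℝ) ≤ k := Nat.cast_nonneg k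
    exact ⟨by nlinarith [hmem.1], by nlinarith [hmem.2]⟩
  rw [e1]
  unfold stp
  rw [integral_finsetSum _ fun k _ =>
    (integrable_indicator_iff measurableSet_Ico).2 (integrableOn_const (by simp))]
  have e2 : ∀ k ∈ Finset.range n, ∫ x, (Ico (-1 / 4 + (k : ℝ) * h) (-1 / 4 + (k + 1) * h)).indicator
      (fun _ => bc k) x = h * bc k := by
    intro k _
    rw [integral_indicator_const _ measurableSet_Ico, Real.volume_real_Ico_of_le (by linarith),
      smul_eq_mul]
    ring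
  rw [Finset.sum_congr rfl e2, ← Finset.mul_sum, bc_sum]
  linear_combination 2 * bc n * hn

lemma tent_sum {h : ℝ} (hh : 0 < h) (u : ℝ) (N : ℕ) :
    ∑ m ∈ Finset.range N, max 0 (h - |((m : ℝ) + 1) * h - u|) ≤
      max 0 (min h (((N : ℝ) + 1) * h - u)) := by
  induction N with
  | zero => simp
  | succ N ih =>
    rw [Finset.sum_range_succ]
    refine (add_le_add ih le_rfl).trans ?_
    push_cast
    rw [show ((N : ℝ) + 1 + 1) * h - u = (((N : ℝ) + 1) * h - u) + h by ring]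
    generalize ((N : ℝ) + 1) * h - u = y
    simp only [max_def, min_def]
    rcases abs_cases y with ⟨e, e'⟩ | ⟨e, e'⟩ <;> rw [e] <;> split_ifs <;> linarith

lemma cell_conv {h : ℝ} (a b t A B : ℝ) (hA : 0 ≤ A) (hB : 0 ≤ B) :
    ∫ x, (Ico a (a + h)).indicator (fun _ => A) x * (Ico b (b + h)).indicator (fun _ => B) (t - x) ≤
      A * B * max 0 (h - |a + b + h - t|) := by
  have e : ∀ x, (Ico a (a + h)).indicator (fun _ => A) x *
      (Ico b (b + h)).indicator (fun _ => B) (t - x) ≤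
      (Icc (max a (t - b - h)) (min a (t - b - h) + h)).indicator (fun _ => A * B) x := by
    intro x
    by_cases h1 : x ∈ Ico a (a + h)
    · by_cases h2 : t - x ∈ Ico b (b + h)
      · rw [indicator_of_mem h1, indicator_of_mem h2, indicator_of_mem]
        refine ⟨max_le h1.1 (by linarith [h2.2]), ?_⟩
        rw [← sub_le_iff_le_add]
        exact le_min (by linarith [h1.2]) (by linarith [h2.1])
      · rw [indicator_of_notMem h2, mul_zero]
        exact indicator_nonneg (fun _ _ => mul_nonneg hA hB) x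
    · rw [indicator_of_notMem h1, zero_mul]
      exact indicator_nonneg (fun _ _ => mul_nonneg hA hB) x
  refine (integral_mono_of_nonneg (ae_of_all _ fun x =>
    mul_nonneg (indicator_nonneg (fun _ _ => hA) _) (indicator_nonneg (fun _ _ => hB) _))
    ((integrable_indicator_iff measurableSet_Icc).2 (integrableOn_const (by simp)))
    (ae_of_all _ e)).trans (le_of_eq ?_)
  rw [integral_indicator_const _ measurableSet_Icc, Real.volume_real_Icc, smul_eq_mul, mul_comm,
    max_comm]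
  congr 2
  simp only [max_def, min_def]
  rcases abs_cases (a + b + h - t) with ⟨e, e'⟩ | ⟨e, e'⟩ <;> rw [e] <;> split_ifs <;> linarith

lemma stp_conv (n : ℕ) {h : ℝ} (hh : 0 < h) (t : ℝ) : ∫ x, stp n h x * stp n h (t - x) ≤ h := by
  let χ : ℕ → ℝ → ℝ := fun k =>
    (Ico (-1 / 4 + (k : ℝ) * h) (-1 / 4 + k * h + h)).indicator (fun _ => bc k)
  have hχ : ∀ x, stp n h x = ∑ k ∈ Finset.range n, χ k x := fun x => by
    simp only [stp, χ, add_mul, one_mul, add_assoc]
  have hm : ∀ k, MemLp (χ k) 2 volume := fun k =>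
    memLp_indicator_const 2 measurableSet_Ico _ (Or.inr (by simp))
  have hi : ∀ i j, Integrable (fun x => χ i x * χ j (t - x)) := fun i j =>
    (hm i).integrable_mul
      ((hm j).comp_measurePreserving (Measure.measurePreserving_sub_left volume t))
  simp only [hχ, Finset.sum_mul_sum]
  rw [integral_finsetSum _ fun i _ => integrable_finsetSum _ fun j _ => hi i j]
  let T : ℕ → ℝ := fun m => max 0 (h - |((m : ℝ) + 1) * h - (t + 1 / 2)|)
  have hT : ∀ m, 0 ≤ T m := fun m => le_max_left _ _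
  have hnn : ∀ i j, 0 ≤ bc i * bc j * T (i + j) := fun i j =>
    mul_nonneg (mul_nonneg (bc_pos i).le (bc_pos j).le) (hT _)
  calc ∑ i ∈ Finset.range n, ∫ x, ∑ j ∈ Finset.range n, χ i x * χ j (t - x)
      ≤ ∑ i ∈ Finset.range n, ∑ j ∈ Finset.range (2 * n - i), bc i * bc j * T (i + j) := by
        refine Finset.sum_le_sum fun i hi' => ?_
        rw [integral_finsetSum _ fun j _ => hi i j]
        have := Finset.mem_range.1 hi'
        refine le_trans (Finset.sum_le_sum fun j _ => ?_)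
          (Finset.sum_le_sum_of_subset_of_nonneg (Finset.range_subset_range.2 (by omega))
            fun j _ _ => hnn i j)
        refine (cell_conv _ _ t _ _ (bc_pos i).le (bc_pos j).le).trans (le_of_eq ?_)
        simp only [T]
        congr 4
        push_cast
        ring
    _ ≤ ∑ i ∈ Finset.range (2 * n), ∑ j ∈ Finset.range (2 * n - i), bc i * bc j * T (i + j) :=
        Finset.sum_le_sum_of_subset_of_nonneg (Finset.range_subset_range.2 (by omega))
          fun i _ _ => Finset.sum_nonneg fun j _ => hnn i j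
    _ = ∑ m ∈ Finset.range (2 * n), T m := by
        rw [← Finset.sum_range_diag_flip (2 * n) (fun i j => bc i * bc j * T (i + j))]
        refine Finset.sum_congr rfl fun m _ => ?_
        rw [← one_mul (T m), ← bc_conv m, Finset.sum_mul]
        refine Finset.sum_congr rfl fun k hk => ?_
        rw [Nat.add_sub_cancel' (Nat.lt_succ_iff.1 (Finset.mem_range.1 hk))]
    _ ≤ h := (tent_sum hh _ _).trans (max_le hh.le (min_le_left _ _))

lemma lower_sup {f : ℝ → ℝ} (h0 : ∀ x, 0 ≤ f x) (hf : MemLp f 2 volume) {c : ℝ}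
    (hc : c ∈ Icc (-1 / 4 : ℝ) (1 / 4)) (hm : MonotoneOn f (Ioo (-1 / 4) c))
    (ha : AntitoneOn f (Ioo c (1 / 4))) :
    Real.pi / 2 * (∫ x in (-1 / 4 : ℝ)..(1 / 4), f x) ^ 2 ≤
      ⨆ t : Icc (-1 / 2 : ℝ) (1 / 2), ∫ x, f x * f (t - x) := by
  have hb : BddAbove (range fun t : Icc (-1 / 2 : ℝ) (1 / 2) => ∫ x, f x * f (t - x)) :=
    ⟨∫ x, f x ^ 2, by rintro _ ⟨t, rfl⟩; exact conv_le hf t⟩
  set M := ⨆ t : Icc (-1 / 2 : ℝ) (1 / 2), ∫ x, f x * f (t - x)
  have hM : ∀ t ∈ Icc (-1 / 2 : ℝ) (1 / 2), ∫ x, f x * f (t - x) ≤ M := fun t ht =>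
    le_ciSup hb ⟨t, ht⟩
  have hM0 : 0 ≤ M := le_trans (integral_nonneg fun x => mul_nonneg (h0 _) (h0 _))
    (hM 0 ⟨by norm_num, by norm_num⟩)
  refine le_of_forall_pos_le_add fun η hη => ?_
  have h1 := lower h0 hf hc hm ha (R := M + η) (by linarith) fun t ht => by linarith [hM t ht]
  have hI : 0 ≤ ∫ x in (-1 / 4 : ℝ)..(1 / 4), f x :=
    intervalIntegral.integral_nonneg (by norm_num) fun x _ => h0 x
  have hpi := Real.pi_pos
  have h2 := pow_le_pow_left₀ hI h1 2
  rw [Real.sq_sqrt (by positivity), le_div_iff₀ hpi] at h2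
  linarith

lemma upper_uni {C : ℝ} (hC : ∀ f : ℝ → ℝ, (∀ x, 0 ≤ f x) → MemLp f 2 volume →
    AntitoneOn f (Ioo (-1 / 4) (1 / 4)) →
    C * (∫ x in (-1 / 4 : ℝ)..(1 / 4), f x) ^ 2 ≤
      ⨆ t : Icc (-1 / 2 : ℝ) (1 / 2), ∫ x, f x * f (t - x)) : C ≤ Real.pi / 2 := by
  refine le_of_forall_pos_le_add fun η hη => ?_
  have hpi := Real.pi_pos
  obtain ⟨n, hn⟩ := exists_nat_gt (Real.pi / (4 * η))
  have hn0 : (0 : ℝ) < n := lt_trans (by positivity) hn
  have hh : (0 : ℝ) < 1 / (2 * n) := by positivity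
  have hnh : (n : ℝ) * (1 / (2 * n)) = 1 / 2 := by field_simp
  have h1 := hC (stp n (1 / (2 * n))) (stp_nonneg _ _) (stp_memLp _ _) (stp_anti hh hnh)
  have : Nonempty (Icc (-1 / 2 : ℝ) (1 / 2)) := ⟨⟨0, by norm_num, by norm_num⟩⟩
  have h2 := h1.trans (ciSup_le fun t => stp_conv n hh t)
  rw [stp_integral hh hnh, le_div_iff₀ (by positivity)] at h2
  have h3 := bc_sq_ge n
  have hb : 0 < bc n ^ 2 := by have := bc_pos n; positivity
  rw [div_lt_iff₀ (by positivity)] at hn
  by_contra hcon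
  push Not at hcon
  have h4 := mul_lt_mul_of_pos_right hcon (mul_pos hb hn0)
  have h5 := mul_lt_mul_of_pos_right hn hb
  nlinarith

end Pool.Agent.Lib.MP_834949_an.Uni
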