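import Pool.Agent.Lib.MP_834949_an.Uni3

/-!
Upper bounds from step functions whose heights are the digits of one large natural number.
-/

namespace Pool.Agent.Lib.MP_834949_an.Up

open MeasureTheory Set Pool.Agent.Lib.MP_834949_an.Uni

/-- The step function with heights `a k` on `n` cells of width `h` starting at `-1/4`. -/
noncomputable def stq (a : ℕ → ℝ) (n : ℕ) (h : ℝ) (x : ℝ) : ℝ :=
  ∑ k ∈ Finset.range n, (Ico (-1 / 4 + k * h) (-1 / 4 + k * h + h)).indicator (fun _ => a k) x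

lemma stq_nonneg {a : ℕ → ℝ} (h0 : ∀ k, 0 ≤ a k) (n : ℕ) (h x : ℝ) : 0 ≤ stq a n h x :=
  Finset.sum_nonneg fun k _ => indicator_nonneg (fun _ _ => h0 k) x

lemma stq_memLp (a : ℕ → ℝ) (n : ℕ) (h : ℝ) : MemLp (stq a n h) 2 volume := by
  have : stq a n h = ∑ k ∈ Finset.range n,
      (Ico (-1 / 4 + k * h) (-1 / 4 + k * h + h)).indicator (fun _ : ℝ => a k) := by
    funext x; simp [stq]
  rw [this]
  exact memLp_finsetSum' _ fun k _ =>
    memLp_indicator_const 2 measurableSet_Ico _ (Or.inr (by simp))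

lemma stq_integral (a : ℕ → ℝ) {n : ℕ} {h : ℝ} (hh : 0 < h) (hn : n * h = 1 / 2) :
    ∫ x in (-1 / 4 : ℝ)..(1 / 4), stq a n h x = h * ∑ k ∈ Finset.range n, a k := by
  have e1 : ∫ x in (-1 / 4 : ℝ)..(1 / 4), stq a n h x = ∫ x, stq a n h x := by
    rw [intervalIntegral.integral_of_le (by norm_num), ← integral_Icc_eq_integral_Ioc]
    refine setIntegral_eq_integral_of_forall_compl_eq_zero fun x hx => ?_
    refine Finset.sum_eq_zero fun k hk => indicator_of_notMem (fun hmem => hx ?_) _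
    have hk' : (k : ℝ) + 1 ≤ n := by exact_mod_cast Finset.mem_range.1 hk
    have hk0 : (0 : ℝ) ≤ k := Nat.cast_nonneg k
    exact ⟨by nlinarith [hmem.1], by nlinarith [hmem.2]⟩
  rw [e1]
  unfold stq
  rw [integral_finsetSum _ fun k _ =>
    (integrable_indicator_iff measurableSet_Ico).2 (integrableOn_const (by simp)), Finset.mul_sum]
  refine Finset.sum_congr rfl fun k _ => ?_
  rw [integral_indicator_const _ measurableSet_Ico, Real.volume_real_Ico_of_le (by linarith),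
    smul_eq_mul]
  ring

lemma stq_conv {a : ℕ → ℝ} (h0 : ∀ k, 0 ≤ a k) (n : ℕ) {h B : ℝ} (hh : 0 < h) (hB0 : 0 ≤ B)
    (hB : ∀ m, m < 2 * n → ∑ i ∈ Finset.range (m + 1), a i * a (m - i) ≤ B) (t : ℝ) :
    ∫ x, stq a n h x * stq a n h (t - x) ≤ B * h := by
  let χ : ℕ → ℝ → ℝ := fun k =>
    (Ico (-1 / 4 + (k : ℝ) * h) (-1 / 4 + k * h + h)).indicator (fun _ => a k)
  have hχ : ∀ x, stq a n h x = ∑ k ∈ Finset.range n, χ k x := fun x => rfl
  have hm : ∀ k, MemLp (χ k) 2 volume := fun k =>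
    memLp_indicator_const 2 measurableSet_Ico _ (Or.inr (by simp))
  have hi : ∀ i j, Integrable (fun x => χ i x * χ j (t - x)) := fun i j =>
    (hm i).integrable_mul
      ((hm j).comp_measurePreserving (Measure.measurePreserving_sub_left volume t))
  simp only [hχ, Finset.sum_mul_sum]
  rw [integral_finsetSum _ fun i _ => integrable_finsetSum _ fun j _ => hi i j]
  let T : ℕ → ℝ := fun m => max 0 (h - |((m : ℝ) + 1) * h - (t + 1 / 2)|)
  have hT : ∀ m, 0 ≤ T m := fun m => le_max_left _ _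
  have hnn : ∀ i j, 0 ≤ a i * a j * T (i + j) := fun i j =>
    mul_nonneg (mul_nonneg (h0 i) (h0 j)) (hT _)
  calc ∑ i ∈ Finset.range n, ∫ x, ∑ j ∈ Finset.range n, χ i x * χ j (t - x)
      ≤ ∑ i ∈ Finset.range n, ∑ j ∈ Finset.range (2 * n - i), a i * a j * T (i + j) := by
        refine Finset.sum_le_sum fun i hi' => ?_
        rw [integral_finsetSum _ fun j _ => hi i j]
        have := Finset.mem_range.1 hi'
        refine le_trans (Finset.sum_le_sum fun j _ => ?_)
          (Finset.sum_le_sum_of_subset_of_nonneg (Finset.range_subset_range.2 (by omega))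
            fun j _ _ => hnn i j)
        refine (cell_conv _ _ t _ _ (h0 i) (h0 j)).trans (le_of_eq ?_)
        simp only [T]
        congr 4
        push_cast
        ring
    _ ≤ ∑ i ∈ Finset.range (2 * n), ∑ j ∈ Finset.range (2 * n - i), a i * a j * T (i + j) :=
        Finset.sum_le_sum_of_subset_of_nonneg (Finset.range_subset_range.2 (by omega))
          fun i _ _ => Finset.sum_nonneg fun j _ => hnn i j
    _ ≤ ∑ m ∈ Finset.range (2 * n), B * T m := by
        rw [← Finset.sum_range_diag_flip (2 * n) (fun i j => a i * a j * T (i + j))]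
        refine Finset.sum_le_sum fun m hm' => ?_
        refine le_trans (le_of_eq ?_)
          (mul_le_mul_of_nonneg_right (hB m (Finset.mem_range.1 hm')) (hT m))
        rw [Finset.sum_mul]
        refine Finset.sum_congr rfl fun k hk => ?_
        rw [Nat.add_sub_cancel' (Nat.lt_succ_iff.1 (Finset.mem_range.1 hk))]
    _ ≤ B * h := by
        rw [← Finset.mul_sum]
        exact mul_le_mul_of_nonneg_left
          ((tent_sum hh _ _).trans (max_le hh.le (min_le_left _ _))) hB0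

lemma upper_seq {a : ℕ → ℝ} (h0 : ∀ k, 0 ≤ a k) {n : ℕ} (hn : 0 < n) {B : ℝ} (hB0 : 0 ≤ B)
    (hB : ∀ m, m < 2 * n → ∑ i ∈ Finset.range (m + 1), a i * a (m - i) ≤ B) {C : ℝ}
    (hC : ∀ f : ℝ → ℝ, (∀ x, 0 ≤ f x) → MemLp f 2 volume →
      C * (∫ x in (-1 / 4 : ℝ)..(1 / 4), f x) ^ 2 ≤
        ⨆ t : Icc (-1 / 2 : ℝ) (1 / 2), ∫ x, f x * f (t - x)) :
    C * (∑ k ∈ Finset.range n, a k) ^ 2 ≤ 2 * n * B := by
  have hn0 : (0 : ℝ) < n := by exact_mod_cast hn
  have hh : (0 : ℝ) < 1 / (2 * n) := by positivity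
  have hnh : (n : ℝ) * (1 / (2 * n)) = 1 / 2 := by field_simp
  have h1 := hC (stq a n (1 / (2 * n))) (stq_nonneg h0 _ _) (stq_memLp _ _ _)
  have : Nonempty (Icc (-1 / 2 : ℝ) (1 / 2)) := ⟨⟨0, by norm_num, by norm_num⟩⟩
  have h2 := h1.trans (ciSup_le fun t => stq_conv h0 n hh hB0 hB t)
  rw [stq_integral a hh hnh] at h2
  have h3 := mul_le_mul_of_nonneg_left h2 (show (0 : ℝ) ≤ (2 * n) ^ 2 by positivity)
  calc C * (∑ k ∈ Finset.range n, a k) ^ 2
      = (2 * n) ^ 2 * (C * (1 / (2 * n) * ∑ k ∈ Finset.range n, a k) ^ 2) := by field_simp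
    _ ≤ _ := h3
    _ = 2 * n * B := by field_simp

/-- Digit `i` of `A` in base `b`. -/
def dg (b A i : ℕ) : ℕ := A / b ^ i % b

/-- All `2 ^ d` digits are at most `B`. -/
def chk (b B : ℕ) : ℕ → ℕ → Bool
  | 0, P => Nat.ble P B
  | d + 1, P => chk b B d (P % b ^ 2 ^ d) && chk b B d (P / b ^ 2 ^ d)

/-- The sum of `2 ^ d` digits. -/
def sm (b : ℕ) : ℕ → ℕ → ℕ
  | 0, P => P
  | d + 1, P => sm b d (P % b ^ 2 ^ d) + sm b d (P / b ^ 2 ^ d)

lemma sum_lt (b : ℕ) (c : ℕ → ℕ) (hc : ∀ m, c m < b) (N : ℕ) :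
    ∑ m ∈ Finset.range N, c m * b ^ m < b ^ N := by
  induction N with
  | zero => simp
  | succ N ih =>
    rw [Finset.sum_range_succ, pow_succ]
    have := Nat.mul_le_mul_right (b ^ N) (Nat.succ_le_of_lt (hc N))
    rw [Nat.succ_mul] at this
    nlinarith

lemma split (b : ℕ) (c : ℕ → ℕ) (hc : ∀ m, c m < b) (d : ℕ) :
    (∑ m ∈ Finset.range (2 ^ (d + 1)), c m * b ^ m) % b ^ 2 ^ d =
      ∑ m ∈ Finset.range (2 ^ d), c m * b ^ m ∧
    (∑ m ∈ Finset.range (2 ^ (d + 1)), c m * b ^ m) / b ^ 2 ^ d =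
      ∑ m ∈ Finset.range (2 ^ d), c (2 ^ d + m) * b ^ m := by
  have e : ∑ m ∈ Finset.range (2 ^ (d + 1)), c m * b ^ m =
      ∑ m ∈ Finset.range (2 ^ d), c m * b ^ m +
        b ^ 2 ^ d * ∑ m ∈ Finset.range (2 ^ d), c (2 ^ d + m) * b ^ m := by
    rw [pow_succ, mul_two, Finset.sum_range_add, Finset.mul_sum]
    congr 1
    exact Finset.sum_congr rfl fun m _ => by rw [pow_add]; ring
  have h1 := sum_lt b c hc (2 ^ d)
  rw [e, Nat.add_mul_mod_self_left, Nat.mod_eq_of_lt h1, Nat.add_mul_div_left _ _ (by omega),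
    Nat.div_eq_of_lt h1, zero_add]
  exact ⟨rfl, rfl⟩

lemma chk_ok (b B d : ℕ) : ∀ c : ℕ → ℕ, (∀ m, c m < b) →
    chk b B d (∑ m ∈ Finset.range (2 ^ d), c m * b ^ m) = true → ∀ m, m < 2 ^ d → c m ≤ B := by
  induction d with
  | zero =>
    intro c _ h m hm
    obtain rfl : m = 0 := by omega
    simpa [chk] using h
  | succ d ih =>
    intro c hc h m hm
    rw [chk, (split b c hc d).1, (split b c hc d).2, Bool.and_eq_true] at h
    by_cases h1 : m < 2 ^ d
    · exact ih c hc h.1 m h1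
    · have := ih (fun m => c (2 ^ d + m)) (fun m => hc _) h.2 (m - 2 ^ d) (by omega)
      rwa [show 2 ^ d + (m - 2 ^ d) = m by omega] at this

lemma sm_ok (b d : ℕ) : ∀ c : ℕ → ℕ, (∀ m, c m < b) →
    sm b d (∑ m ∈ Finset.range (2 ^ d), c m * b ^ m) = ∑ m ∈ Finset.range (2 ^ d), c m := by
  induction d with
  | zero => intro c _; simp [sm]
  | succ d ih =>
    intro c hc
    rw [sm, (split b c hc d).1, (split b c hc d).2, ih c hc,
      ih (fun m => c (2 ^ d + m)) (fun m => hc _), pow_succ, mul_two, Finset.sum_range_add]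

lemma mod_eq (b A N : ℕ) : A % b ^ N = ∑ i ∈ Finset.range N, dg b A i * b ^ i := by
  induction N with
  | zero => simp [Nat.mod_one]
  | succ N ih => rw [Nat.mod_pow_succ, ih, Finset.sum_range_succ, dg, mul_comm]

/-- The complete check. -/
def ok (b A n e S B : ℕ) : Bool :=
  Nat.blt A (b ^ n) && Nat.ble n (2 ^ e) && Nat.beq (sm b e A) S && Nat.blt (S * S) b &&
    chk b B (e + 1) (A * A)

lemma ok_spec {b A n e S B : ℕ} (h : ok b A n e S B = true) :
    ∑ k ∈ Finset.range n, dg b A k = S ∧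
      ∀ m, m < 2 * n → ∑ i ∈ Finset.range (m + 1), dg b A i * dg b A (m - i) ≤ B := by
  simp only [ok, Bool.and_eq_true, Nat.blt_eq, Nat.ble_eq, Nat.beq_eq] at h
  obtain ⟨⟨⟨⟨h1, h2⟩, h3⟩, h4⟩, h5⟩ := h
  have hb : 0 < b := by omega
  have hlt : ∀ i, dg b A i < b := fun i => Nat.mod_lt _ hb
  have hz : ∀ i, n ≤ i → dg b A i = 0 := fun i hi => by
    rw [dg, Nat.div_eq_of_lt (h1.trans_le (Nat.pow_le_pow_right hb hi)), Nat.zero_mod]
  have hA : A = ∑ i ∈ Finset.range (2 ^ e), dg b A i * b ^ i := by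
    rw [← mod_eq, Nat.mod_eq_of_lt (h1.trans_le (Nat.pow_le_pow_right hb h2))]
  have hS : ∀ N, n ≤ N → ∑ k ∈ Finset.range N, dg b A k = ∑ k ∈ Finset.range n, dg b A k :=
    fun N hN => (Finset.sum_subset (Finset.range_subset_range.2 hN) fun i _ hi =>
      hz i (by simpa using hi)).symm
  have hsum : ∑ k ∈ Finset.range n, dg b A k = S := by
    rw [← hS _ h2, ← sm_ok b e _ hlt, ← hA, h3]
  have hle : ∀ N, ∑ k ∈ Finset.range N, dg b A k ≤ S := fun N => by
    rw [← hsum, ← hS (N + n) (by omega)]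
    exact Finset.sum_le_sum_of_subset (Finset.range_subset_range.2 (by omega))
  have hone : ∀ j, dg b A j ≤ S := fun j =>
    le_trans (by rw [Finset.sum_range_succ]; omega) (hle (j + 1))
  have hc : ∀ m, ∑ i ∈ Finset.range (m + 1), dg b A i * dg b A (m - i) < b := fun m => by
    refine lt_of_le_of_lt ?_ h4
    calc ∑ i ∈ Finset.range (m + 1), dg b A i * dg b A (m - i)
        ≤ ∑ i ∈ Finset.range (m + 1), dg b A i * S :=
          Finset.sum_le_sum fun i _ => Nat.mul_le_mul_left _ (hone _)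
      _ ≤ S * S := by rw [← Finset.sum_mul]; exact Nat.mul_le_mul_right _ (hle _)
  have hAA : A * A = ∑ m ∈ Finset.range (2 ^ (e + 1)),
      (∑ i ∈ Finset.range (m + 1), dg b A i * dg b A (m - i)) * b ^ m := by
    have e1 : ∑ m ∈ Finset.range (2 ^ (e + 1)),
        (∑ i ∈ Finset.range (m + 1), dg b A i * dg b A (m - i)) * b ^ m =
        ∑ m ∈ Finset.range (2 ^ (e + 1)), ∑ k ∈ Finset.range (m + 1),
          dg b A k * b ^ k * (dg b A (m - k) * b ^ (m - k)) := by
      refine Finset.sum_congr rfl fun m _ => ?_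
      rw [Finset.sum_mul]
      refine Finset.sum_congr rfl fun k hk => ?_
      have : b ^ m = b ^ k * b ^ (m - k) := by
        rw [← pow_add, Nat.add_sub_cancel' (Nat.lt_succ_iff.1 (Finset.mem_range.1 hk))]
      rw [this]; ring
    rw [e1, Finset.sum_range_diag_flip (2 ^ (e + 1))
      (fun i j => dg b A i * b ^ i * (dg b A j * b ^ j))]
    nth_rewrite 1 2 [hA]
    rw [Finset.sum_mul_sum]
    symm
    rw [← Finset.sum_subset (Finset.range_subset_range.2 (show 2 ^ e ≤ 2 ^ (e + 1) by omega))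
      fun i _ hi => Finset.sum_eq_zero fun j _ => by
        rw [hz i (by simp at hi; omega)]; simp]
    refine Finset.sum_congr rfl fun i hi => ?_
    have := Finset.mem_range.1 hi
    exact (Finset.sum_subset (Finset.range_subset_range.2 (by omega)) fun j _ hj => by
      rw [hz j (by simp at hj; omega)]; simp).symm
  refine ⟨hsum, fun m hm => ?_⟩
  rw [hAA] at h5
  exact chk_ok b B (e + 1) _ hc h5 m (by omega)

lemma upper_ok {b A n e S B : ℕ} (h : ok b A n e S B = true) (hn : 0 < n) {C : ℝ}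
    (hC : ∀ f : ℝ → ℝ, (∀ x, 0 ≤ f x) → MemLp f 2 volume →
      C * (∫ x in (-1 / 4 : ℝ)..(1 / 4), f x) ^ 2 ≤
        ⨆ t : Icc (-1 / 2 : ℝ) (1 / 2), ∫ x, f x * f (t - x)) :
    C * (S : ℝ) ^ 2 ≤ 2 * n * B := by
  obtain ⟨h1, h2⟩ := ok_spec h
  have := upper_seq (a := fun k => (dg b A k : ℝ)) (fun k => Nat.cast_nonneg _) hn
    (Nat.cast_nonneg B) (fun m hm => by exact_mod_cast h2 m hm) hC
  rwa [← Nat.cast_sum, h1] at this

/-- Moves digits from base `a` to base `b`. -/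
def spread (a b : ℕ) : ℕ → ℕ → ℕ
  | 0, P => P
  | d + 1, P => spread a b d (P % a ^ 2 ^ d) + b ^ 2 ^ d * spread a b d (P / a ^ 2 ^ d)

end Pool.Agent.Lib.MP_834949_an.Up
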