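import Pool.Agent.Lib.MP_834949_an.Up1

/-!
Discrete form of the autoconvolution inequality for sequences that first fall and then rise:
the valley is filled with the smaller of the two ends.
-/

namespace Pool.Agent.Lib.MP_834949_an.Uni

open Finset

/-- A Chebyshev type inequality. -/
lemma pair_le (n : ℕ) (x y w : ℕ → ℝ) (hx0 : ∀ i, 0 ≤ x i) (hy0 : ∀ i, 0 ≤ y i)
    (hw0 : ∀ i, 0 ≤ w i) (hx : Antitone x) (hy : Antitone y) (hxw : ∀ i, i < n → x i * w i = 0)
    (hs : ∑ i ∈ range n, w i ≤ ∑ i ∈ range n, x i) :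
    ∑ i ∈ range n, w i * y i ≤ ∑ i ∈ range n, x i * y i := by
  have h1 : 0 ≤ ∑ i ∈ range n, ∑ j ∈ range n, x i * w j * (y i - y j) := by
    refine sum_nonneg fun i _ => sum_nonneg fun j hj => ?_
    rcases le_total i j with h | h
    · exact mul_nonneg (mul_nonneg (hx0 i) (hw0 j)) (sub_nonneg.2 (hy h))
    · have : x i * w j = 0 := le_antisymm ((mul_le_mul_of_nonneg_right (hx h) (hw0 j)).trans
        (hxw j (mem_range.1 hj)).le) (mul_nonneg (hx0 i) (hw0 j))
      rw [this, zero_mul]
  have h2 : ∑ i ∈ range n, ∑ j ∈ range n, x i * w j * (y i - y j) =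
      (∑ i ∈ range n, x i * y i) * (∑ i ∈ range n, w i) -
        (∑ i ∈ range n, x i) * ∑ i ∈ range n, w i * y i := by
    rw [sum_mul_sum, sum_mul_sum, ← sum_sub_distrib]
    refine sum_congr rfl fun i _ => ?_
    rw [← sum_sub_distrib]
    exact sum_congr rfl fun j _ => by ring
  have h3 : 0 ≤ ∑ i ∈ range n, x i * y i := sum_nonneg fun i _ => mul_nonneg (hx0 i) (hy0 i)
  rcases (sum_nonneg fun i (_ : i ∈ range n) => hx0 i).eq_or_lt with h | h
  · have hw := (sum_eq_zero_iff_of_nonneg fun i (_ : i ∈ range n) => hw0 i).1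
      (le_antisymm (hs.trans h.ge) (sum_nonneg fun i _ => hw0 i))
    rwa [sum_eq_zero fun i hi => by rw [hw i hi, zero_mul]]
  · refine le_of_mul_le_mul_left ?_ h
    nlinarith [mul_le_mul_of_nonneg_left hs h3]

/-- Filling the valley does not increase the central convolution. -/
lemma centre_le (m : ℕ) (β : ℝ) (L Q V : ℕ → ℝ) (hL0 : ∀ i, 0 ≤ L i) (hQ0 : ∀ i, 0 ≤ Q i)
    (hV0 : ∀ i, 0 ≤ V i) (hL : Antitone L) (hQ : Antitone Q) (hLV : ∀ i, i ≤ m → L i * V i = 0)
    (hQV : ∀ i, i ≤ m → Q i * V (m - i) = 0)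
    (h1 : ∑ i ∈ range (m + 1), V i = ∑ i ∈ range (m + 1), Q i)
    (h2 : ∑ i ∈ range (m + 1), V i ≤ ∑ i ∈ range (m + 1), L i) :
    ∑ i ∈ range (m + 1), (β + L i) * (β + L (m - i)) ≤ ∑ i ∈ range (m + 1),
      (β + L i + Q (m - i) - V i) * (β + L (m - i) + Q i - V (m - i)) := by
  have a1 := pair_le (m + 1) L Q V hL0 hQ0 hV0 hL hQ (fun i hi => hLV i (by omega)) h2
  have a2 := pair_le (m + 1) Q L (fun i => V (m - i)) hQ0 hL0 (fun i => hV0 _) hQ hL
    (fun i hi => hQV i (by omega)) (by rw [sum_flip V, h1])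
  have a3 : ∑ i ∈ range (m + 1), V i * Q i + ∑ i ∈ range (m + 1), V (m - i) * L i ≤
      ∑ i ∈ range (m + 1), L i * Q i := by
    by_cases h : ∀ i ∈ range (m + 1), V i * Q i = 0
    · rw [sum_eq_zero h, zero_add]
      exact a2.trans (le_of_eq (sum_congr rfl fun i _ => mul_comm _ _))
    · push Not at h
      obtain ⟨i, hi, h⟩ := h
      have hi' : i ≤ m := Nat.lt_succ_iff.1 (mem_range.1 hi)
      have b1 : L i = 0 := (mul_eq_zero.1 (hLV i hi')).resolve_right (left_ne_zero_of_mul h)
      have b2 : 0 < Q i := (hQ0 i).lt_of_ne' (right_ne_zero_of_mul h)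
      rw [sum_eq_zero (s := range (m + 1)) (f := fun j => V (m - j) * L j) fun j hj => ?_, add_zero]
      · exact a1
      · rcases le_total i j with h' | h'
        · rw [le_antisymm ((hL h').trans b1.le) (hL0 j), mul_zero]
        · rw [(mul_eq_zero.1 (hQV j (h'.trans hi'))).resolve_left (b2.trans_le (hQ h')).ne',
            zero_mul]
  let t : ℕ → ℝ := fun i => (β + L i) * (Q i - V (m - i)) - V i * Q i
  have a4 : 0 ≤ ∑ i ∈ range (m + 1), t i := by
    have e : ∑ i ∈ range (m + 1), t i = β * (∑ i ∈ range (m + 1), Q i -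
        ∑ i ∈ range (m + 1), V (m - i)) + (∑ i ∈ range (m + 1), L i * Q i -
        (∑ i ∈ range (m + 1), V i * Q i + ∑ i ∈ range (m + 1), V (m - i) * L i)) := by
      simp only [← sum_sub_distrib, ← sum_add_distrib, mul_sum]
      exact sum_congr rfl fun i _ => by simp only [t]; ring
    rw [e, sum_flip V, h1]
    linarith
  have a5 : ∑ i ∈ range (m + 1), ((β + L i) * (β + L (m - i)) + (t i + t (m - i))) ≤
      ∑ i ∈ range (m + 1),
        (β + L i + Q (m - i) - V i) * (β + L (m - i) + Q i - V (m - i)) := by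
    refine sum_le_sum fun i hi => ?_
    simp only [t, Nat.sub_sub_self (Nat.lt_succ_iff.1 (mem_range.1 hi))]
    nlinarith [mul_nonneg (hQ0 i) (hQ0 (m - i)), mul_nonneg (hV0 i) (hV0 (m - i))]
  rw [sum_add_distrib, sum_add_distrib, sum_flip t] at a5
  linarith

/-- The autoconvolution of a nonincreasing sequence is convex where the sequence is constant. -/
lemma tail_le (b : ℕ → ℝ) (hb : Antitone b) (s n : ℕ) (hs : ∀ i, s ≤ i → b (i + 1) = b i) (B : ℝ)
    (h1 : ∑ j ∈ range s, b j * b (s - (j + 1)) ≤ B) (h2 : ∑ j ∈ range n, b j * b (n - (j + 1)) ≤ B)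
    (k : ℕ) (hsk : s ≤ k) (hkn : k ≤ n) : ∑ j ∈ range k, b j * b (k - (j + 1)) ≤ B := by
  let P : ℕ → ℝ := fun k => ∑ j ∈ range k, b j * b (k - (j + 1))
  have e : ∀ k, P (k + 1) - P k =
      b 0 * b k - ∑ j ∈ range k, (b j - b (j + 1)) * b (k - (j + 1)) := fun k => by
    simp only [P, sum_range_succ', Nat.add_sub_add_right, sub_mul, sum_sub_distrib, Nat.sub_zero]
    ring
  have hD : ∀ k, s ≤ k → P (k + 1) - P k ≤ P (k + 1 + 1) - P (k + 1) := fun k hk => by
    rw [e, e, sum_range_succ, hs k hk, sub_self, zero_mul, add_zero]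
    refine sub_le_sub_left (sum_le_sum fun j _ => ?_) _
    exact mul_le_mul_of_nonneg_left (hb (by omega)) (sub_nonneg.2 (hb (by omega)))
  have hD' : ∀ i j, s ≤ i → i ≤ j → P (i + 1) - P i ≤ P (j + 1) - P j := fun i j hi hij => by
    induction j, hij using Nat.le_induction with
    | base => exact le_rfl
    | succ j hij ih => exact ih.trans (hD j (hi.trans hij))
  rcases le_total (P (k + 1) - P k) 0 with h | h
  · have : ∀ j, s ≤ j → j ≤ k → P j ≤ P s := fun j hj => by
      induction j, hj using Nat.le_induction with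
      | base => exact fun _ => le_rfl
      | succ j hj ih =>
        intro hjk
        linarith [ih (by omega), hD' j k hj (by omega)]
    exact (this k hsk le_rfl).trans h1
  · have : ∀ j, k ≤ j → P k ≤ P j := fun j hj => by
      induction j, hj using Nat.le_induction with
      | base => exact le_rfl
      | succ j hj ih => linarith [hD' k j hsk hj]
    exact (this n hkn).trans h2

lemma fill_le (u v : ℕ → ℝ) (m : ℕ) (r β : ℝ) (hr : 0 < r) (hβ : 0 ≤ β) (hu : Antitone u)
    (hv : Antitone v) (hum : u (m + 1) = 0) (huv : ∀ i, i ≤ m → u i * v (m - i) = 0)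
    (hc : ∀ k, k ≤ m → ∑ i ∈ range (k + 1),
      (u i + v (m - i)) * (u (k - i) + v (m - (k - i))) ≤ r ^ 2)
    (h1 : ∑ i ∈ range (m + 1), max (β - (u i + v (m - i))) 0 =
      ∑ i ∈ range (m + 1), max (v i - β) 0)
    (h2 : ∑ i ∈ range (m + 1), max (v i - β) 0 ≤ ∑ i ∈ range (m + 1), max (u i - β) 0) :
    ∑ i ∈ range (m + 1), (u i + v (m - i)) ≤ r * ∑ k ∈ range (m + 1), bc k := by
  classical
  let L : ℕ → ℝ := fun i => max (u i - β) 0
  let Q : ℕ → ℝ := fun i => max (v i - β) 0
  let V : ℕ → ℝ := fun i => max (β - (u i + v (m - i))) 0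
  have hL : Antitone L := fun i j h => max_le_max (by linarith [hu h]) le_rfl
  have hQ : Antitone Q := fun i j h => max_le_max (by linarith [hv h]) le_rfl
  have key : ∀ i, i ≤ m → u i + v (m - i) = β + L i + Q (m - i) - V i ∧ L i * V i = 0 ∧
      Q (m - i) * V i = 0 ∧ (L i ≠ 0 → β + L i = u i + v (m - i)) := fun i hi => by
    simp only [L, Q, V]
    rcases mul_eq_zero.1 (huv i hi) with h | h <;> rw [h] <;>
      simp only [max_def] <;> split_ifs <;> refine ⟨by linarith, ?_, ?_, fun h => ?_⟩ <;>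
      first | linarith | exact absurd rfl h
  have hex : ∃ i, L i = 0 := ⟨m + 1, by simp [L, hum, hβ]⟩
  have hs : Nat.find hex ≤ m + 1 := Nat.find_min' hex (by simp [L, hum, hβ])
  have hz : ∀ i, Nat.find hex ≤ i → L i = 0 := fun i hi =>
    le_antisymm ((hL hi).trans (Nat.find_spec hex).le) (le_max_right _ _)
  have hlow : ∀ k, k ≤ Nat.find hex →
      ∑ j ∈ range k, (β + L j) * (β + L (k - (j + 1))) ≤ r ^ 2 := fun k hk => by
    rcases k with _ | k
    · simpa using sq_nonneg r
    refine le_trans (le_of_eq (sum_congr rfl fun j hj => ?_)) (hc k (by omega))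
    have := mem_range.1 hj
    rw [Nat.add_sub_add_right, (key j (by omega)).2.2.2 (Nat.find_min hex (by omega)),
      (key (k - j) (by omega)).2.2.2 (Nat.find_min hex (by omega))]
  have hmid : ∑ j ∈ range (m + 1), (β + L j) * (β + L (m + 1 - (j + 1))) ≤ r ^ 2 := by
    simp only [Nat.add_sub_add_right]
    refine (centre_le m β L Q V (fun _ => le_max_right _ _) (fun _ => le_max_right _ _)
      (fun _ => le_max_right _ _) hL hQ (fun i hi => (key i hi).2.1) (fun i hi => ?_) h1
      (h1.le.trans h2)).trans (le_trans (le_of_eq (sum_congr rfl fun i hi => ?_)) (hc m le_rfl))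
    · have := (key (m - i) (by omega)).2.2.1
      rwa [Nat.sub_sub_self hi] at this
    · have hi' : i ≤ m := Nat.lt_succ_iff.1 (mem_range.1 hi)
      rw [(key i hi').1, (key (m - i) (by omega)).1, Nat.sub_sub_self hi']
  have hb : Antitone fun i => β + L i := fun i j h => by linarith [hL h]
  refine le_trans (le_of_eq ?_) (mono_le (fun i => β + L i) (m + 1) r hr
    (fun k => add_nonneg hβ (le_max_right _ _)) (fun i j h _ => hb h) fun k hk => ?_)
  · rw [sum_congr rfl fun i hi => (key i (Nat.lt_succ_iff.1 (mem_range.1 hi))).1,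
      sum_sub_distrib, sum_add_distrib, sum_flip Q, h1]
    ring
  · have : ∑ j ∈ range (k + 1), (β + L j) * (β + L (k + 1 - (j + 1))) ≤ r ^ 2 := by
      rcases le_total (k + 1) (Nat.find hex) with h | h
      · exact hlow _ h
      · exact tail_le (fun i => β + L i) hb _ (m + 1)
          (fun i hi => by simp only [hz i hi, hz (i + 1) (by omega)]) _ (hlow _ le_rfl) hmid _ h hk
    simpa only [Nat.add_sub_add_right] using this

/-- The discrete inequality for sequences that first fall and then rise. -/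
lemma ush_le (u v : ℕ → ℝ) (m : ℕ) (r : ℝ) (hr : 0 < r) (hu : Antitone u) (hv : Antitone v)
    (hu0 : ∀ i, 0 ≤ u i) (hv0 : ∀ i, 0 ≤ v i) (hum : u (m + 1) = 0) (hvm : v (m + 1) = 0)
    (huv : ∀ i, i ≤ m → u i * v (m - i) = 0)
    (hc : ∀ k, k ≤ m → ∑ i ∈ range (k + 1),
      (u i + v (m - i)) * (u (k - i) + v (m - (k - i))) ≤ r ^ 2)
    (hc' : ∀ k, k ≤ m → ∑ i ∈ range (k + 1),
      (v i + u (m - i)) * (v (k - i) + u (m - (k - i))) ≤ r ^ 2) :
    ∑ i ∈ range (m + 1), u i + ∑ i ∈ range (m + 1), v i ≤ r * ∑ k ∈ range (m + 1), bc k := by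
  let φ : ℝ → ℝ := fun β => ∑ i ∈ range (m + 1), max (β - (u i + v (m - i))) 0 -
    min (∑ i ∈ range (m + 1), max (u i - β) 0) (∑ i ∈ range (m + 1), max (v i - β) 0)
  have hφ : Continuous φ := by fun_prop
  have h1 : φ 0 ≤ 0 := by
    simp only [φ]
    rw [sum_eq_zero fun i _ => max_eq_right (by linarith [hu0 i, hv0 (m - i)]), zero_sub,
      neg_nonpos]
    exact le_min (sum_nonneg fun _ _ => le_max_right _ _) (sum_nonneg fun _ _ => le_max_right _ _)
  have h2 : 0 ≤ φ (u 0) := by
    simp only [φ]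
    rw [sub_nonneg]
    refine (min_le_left _ _).trans ?_
    rw [sum_eq_zero fun i _ => max_eq_right (by linarith [hu (Nat.zero_le i)])]
    exact sum_nonneg fun _ _ => le_max_right _ _
  obtain ⟨β, hβ, h3⟩ := intermediate_value_Icc (hu0 0) hφ.continuousOn ⟨h1, h2⟩
  simp only [φ, sub_eq_zero] at h3
  rcases le_total (∑ i ∈ range (m + 1), max (v i - β) 0) (∑ i ∈ range (m + 1), max (u i - β) 0)
    with h | h
  · have := fill_le u v m r β hr hβ.1 hu hv hum huv hc (h3.trans (min_eq_right h)) h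
    rwa [sum_add_distrib, sum_flip v] at this
  · have := fill_le v u m r β hr hβ.1 hv hu hvm (fun i hi => by
      have := huv (m - i) (by omega)
      rwa [Nat.sub_sub_self hi, mul_comm] at this) hc' (by
      rw [← min_eq_left h, ← h3, ← sum_flip]
      refine sum_congr rfl fun i hi => ?_
      rw [Nat.sub_sub_self (Nat.lt_succ_iff.1 (mem_range.1 hi)), add_comm]) h
    rwa [sum_add_distrib, sum_flip u, add_comm] at this

end Pool.Agent.Lib.MP_834949_an.Uni
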