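import Pool.Agent.Lib.MP_834949_an.Ush1

/-!
Functions with two monotone pieces: the lower bound when the function first falls and then rises,
and step functions below `π / 2` when the two directions agree.
-/

namespace Pool.Agent.Lib.MP_834949_an.Uni

open MeasureTheory Set

lemma window {f : ℝ → ℝ} (h0 : ∀ x, 0 ≤ f x) (hf : MemLp f 2 volume) {R h : ℝ} (hh : 0 < h)
    {n : ℕ} (hn : n * h = 1 / 2)
    (hM : ∀ t ∈ Icc (-1 / 2 : ℝ) (1 / 2), ∫ x, f x * f (t - x) ≤ R) (a : ℕ → ℝ)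
    (hcell : ∀ i, i < n → ∀ x, -1 / 4 + i * h < x → x < -1 / 4 + (i + 1) * h → a i ≤ f x)
    (ha0 : ∀ i, 0 ≤ a i) (l m : ℕ) (hlm : l + m + 1 ≤ n) :
    ∑ i ∈ Finset.range (m + 1), a (l + i) * a (l + (m - i)) ≤ R / h := by
  have hl1 : (0 : ℝ) ≤ l := Nat.cast_nonneg l
  have hl2 : (l : ℝ) + m + 1 ≤ n := by exact_mod_cast hlm
  have hm0 : (0 : ℝ) ≤ m := Nat.cast_nonneg m
  set t : ℝ := -1 / 2 + (2 * l + m + 1) * h with ht
  have ht1 := hM t ⟨by nlinarith, by nlinarith⟩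
  have hint := integrable_conv hf t
  have e1 := intervalIntegral.sum_integral_adjacent_intervals (f := fun x => f x * f (t - x))
    (μ := volume) (a := fun k : ℕ => -1 / 4 + ((l : ℝ) + k) * h) (n := m + 1)
    fun k _ => hint.intervalIntegrable
  have e2 : ∫ x in (-1 / 4 + ((l : ℝ) + (0 : ℕ)) * h)..(-1 / 4 + ((l : ℝ) + (m + 1 : ℕ)) * h),
      f x * f (t - x) ≤ ∫ x, f x * f (t - x) := by
    rw [intervalIntegral.integral_of_le (by push_cast; nlinarith)]
    exact setIntegral_le_integral hint (ae_of_all _ fun x => mul_nonneg (h0 _) (h0 _))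
  have e3 : h * ∑ i ∈ Finset.range (m + 1), a (l + i) * a (l + (m - i)) ≤
      ∑ k ∈ Finset.range (m + 1), ∫ x in (-1 / 4 + ((l : ℝ) + k) * h)..(-1 / 4 +
        ((l : ℝ) + (k + 1 : ℕ)) * h), f x * f (t - x) := by
    rw [Finset.mul_sum]
    refine Finset.sum_le_sum fun k hk => ?_
    have hk' : k ≤ m := Nat.lt_succ_iff.1 (Finset.mem_range.1 hk)
    have c1 : -1 / 4 + ((l : ℝ) + k) * h ≤ -1 / 4 + ((l : ℝ) + (k + 1 : ℕ)) * h := by
      push_cast; nlinarith
    have := intervalIntegral.integral_mono_on_of_le_Ioo c1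
      (intervalIntegrable_const (c := a (l + k) * a (l + (m - k))))
      (hint.intervalIntegrable) fun x hx => by
        obtain ⟨hx1, hx2⟩ := hx
        push_cast at hx2
        refine mul_le_mul (hcell _ (by omega) x ?_ ?_)
          (hcell _ (by omega) (t - x) ?_ ?_) (ha0 _) (h0 _)
        · push_cast; linarith
        · push_cast; linarith
        · push_cast [Nat.cast_sub hk']; linarith
        · push_cast [Nat.cast_sub hk']; linarith
    rw [intervalIntegral.integral_const, smul_eq_mul] at this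
    refine le_trans (le_of_eq ?_) this
    push_cast
    ring
  rw [le_div_iff₀ hh]
  linarith

lemma cut_anti {g : ℝ → ℝ} (h0 : ∀ x, 0 ≤ g x) {T h : ℝ} (hh : 0 < h)
    (hg : AntitoneOn g (Ioo 0 T)) {p : ℕ} (hp : p = 0 ∨ ((p : ℝ) + 1) * h ≤ T) :
    (∀ i, i < p → ((i : ℝ) + 1) * h ∈ Ioo 0 T) ∧
      Antitone fun i : ℕ => if i < p then g ((i + 1) * h) else 0 := by
  have h1 : ∀ i, i < p → ((i : ℝ) + 1) * h ∈ Ioo 0 T := fun i hi => by
    have : (i : ℝ) + 1 ≤ p := by exact_mod_cast hi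
    rcases hp with rfl | hp
    · omega
    · exact ⟨by positivity, by nlinarith⟩
  refine ⟨h1, fun i j hij => ?_⟩
  dsimp only
  split_ifs with a b
  · have : (i : ℝ) ≤ j := by exact_mod_cast hij
    exact hg (h1 i b) (h1 j a) (by nlinarith)
  · omega
  · exact h0 _
  · exact le_rfl

lemma cut_sum (g : ℕ → ℝ) {p n : ℕ} (h : p ≤ n) :
    ∑ i ∈ Finset.range n, (if i < p then g i else 0) = ∑ i ∈ Finset.range p, g i := by
  rw [← Finset.sum_filter]
  congr 1
  ext i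
  simp only [Finset.mem_filter, Finset.mem_range]
  omega

/-- The lower bound for functions that first fall and then rise. -/
lemma lowerU {f : ℝ → ℝ} (h0 : ∀ x, 0 ≤ f x) (hf : MemLp f 2 volume) {c : ℝ}
    (hc : c ∈ Icc (-1 / 4 : ℝ) (1 / 4)) (ha : AntitoneOn f (Ioo (-1 / 4) c))
    (hm : MonotoneOn f (Ioo c (1 / 4))) {R : ℝ} (hR : 0 < R)
    (hM : ∀ t ∈ Icc (-1 / 2 : ℝ) (1 / 2), ∫ x, f x * f (t - x) ≤ R) :
    ∫ x in (-1 / 4 : ℝ)..(1 / 4), f x ≤ √(2 * R / Real.pi) := by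
  refine le_of_forall_pos_le_add fun ε hε => ?_
  obtain ⟨h', hh', hs'⟩ := small hf (show 0 < ε / 4 by positivity)
  obtain ⟨m, hm'⟩ := exists_nat_gt (1 / h')
  set h : ℝ := 1 / (2 * (m + 1)) with hdef
  have hh : 0 < h := by positivity
  have hn : ((m + 1 : ℕ) : ℝ) * h = 1 / 2 := by rw [hdef]; push_cast; field_simp
  have hn' : ((m : ℝ) + 1) * h = 1 / 2 := by exact_mod_cast hn
  have hs : ∀ u v, u ≤ v → v ≤ u + h → ∫ x in u..v, f x ≤ ε / 4 := fun u v h1 h2 => by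
    rw [div_lt_iff₀ hh'] at hm'
    refine hs' u v h1 (h2.trans (add_le_add le_rfl ?_))
    rw [hdef, div_le_iff₀ (by positivity)]
    nlinarith
  obtain ⟨hc1, hc2⟩ := hc
  have g1 : AntitoneOn (fun x => f (-1 / 4 + x)) (Ioo 0 (c + 1 / 4)) := fun x hx y hy hxy =>
    ha ⟨by linarith [hx.1], by linarith [hx.2]⟩ ⟨by linarith [hy.1], by linarith [hy.2]⟩
      (by linarith)
  have g2 : AntitoneOn (fun x => f (1 / 4 - x)) (Ioo 0 (1 / 4 - c)) := fun x hx y hy hxy =>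
    hm ⟨by linarith [hy.2], by linarith [hy.1]⟩ ⟨by linarith [hx.2], by linarith [hx.1]⟩
      (by linarith)
  obtain ⟨p, hp, hp'⟩ := riemann (g := fun x => f (-1 / 4 + x)) (h := h) (ε := ε / 4)
    (fun u v => by simpa using (ii hf (-1 / 4 + u) (-1 / 4 + v)).comp_add_left (-1 / 4))
    (by linarith) hh (by positivity) g1
    (fun u v huv hv => by
      rw [intervalIntegral.integral_comp_add_left f (-1 / 4)]
      exact hs _ _ (by linarith) (by linarith))
  obtain ⟨q, hq, hq'⟩ := riemann (g := fun x => f (1 / 4 - x)) (h := h) (ε := ε / 4)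
    (fun u v => by simpa using (ii hf (1 / 4 - u) (1 / 4 - v)).comp_sub_left (1 / 4))
    (by linarith) hh (by positivity) g2
    (fun u v huv hv => by
      rw [intervalIntegral.integral_comp_sub_left f (1 / 4)]
      exact hs _ _ (by linarith) (by linarith))
  rw [intervalIntegral.integral_comp_add_left f (-1 / 4), add_zero,
    show -1 / 4 + (c + 1 / 4) = c by ring] at hp'
  rw [intervalIntegral.integral_comp_sub_left f (1 / 4), sub_zero, sub_sub_cancel] at hq'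
  have hsplit := intervalIntegral.integral_add_adjacent_intervals (ii hf (-1 / 4) c)
    (ii hf c (1 / 4))
  have hpq : p + q ≤ m + 1 := by
    have b1 : p * h ≤ c + 1 / 4 := by
      rcases hp with rfl | hp
      · simp only [Nat.cast_zero, zero_mul]; linarith
      · linarith
    have b2 : q * h ≤ 1 / 4 - c := by
      rcases hq with rfl | hq
      · simp only [Nat.cast_zero, zero_mul]; linarith
      · linarith
    have : (p : ℝ) + q ≤ m + 1 := le_of_mul_le_mul_right (by linarith) hh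
    exact_mod_cast this
  obtain ⟨u1, u2⟩ := cut_anti (fun x => h0 _) hh g1 hp
  obtain ⟨v1, v2⟩ := cut_anti (fun x => h0 _) hh g2 hq
  set u : ℕ → ℝ := fun i => if i < p then f (-1 / 4 + (i + 1) * h) else 0 with hu
  set v : ℕ → ℝ := fun i => if i < q then f (1 / 4 - (i + 1) * h) else 0 with hv
  have u0 : ∀ i, 0 ≤ u i := fun i => by simp only [u]; split_ifs; exacts [h0 _, le_rfl]
  have v0 : ∀ i, 0 ≤ v i := fun i => by simp only [v]; split_ifs; exacts [h0 _, le_rfl]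
  have hw := window h0 hf hh hn hM (fun i => u i + v (m - i)) (fun i hi x x1 x2 => by
    have i0 : 0 ≤ (i : ℝ) * h := by positivity
    have i1 : (i : ℝ) + 1 ≤ m + 1 := by exact_mod_cast hi
    simp only [u, v]
    split_ifs with a b b
    · omega
    · rw [add_zero]
      have := u1 i a
      exact ha ⟨by linarith, by linarith [this.2]⟩ ⟨by linarith [this.1], by linarith [this.2]⟩
        x2.le
    · rw [zero_add]
      have := v1 _ b
      rw [Nat.cast_sub (by omega)] at this ⊢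
      exact hm ⟨by linarith [this.2], by linarith [this.1]⟩
        ⟨by linarith [this.2], by nlinarith⟩ (by linarith)
    · rw [add_zero]
      exact h0 x) fun i => add_nonneg (u0 _) (v0 _)
  have hr : 0 < √(R / h) := Real.sqrt_pos.2 (by positivity)
  have key := ush_le u v m (√(R / h)) hr u2 v2 u0 v0 (if_neg (by omega)) (if_neg (by omega))
    (fun i hi => by
      simp only [u, v]
      split_ifs
      · omega
      all_goals simp)
    (fun k hk => by
      rw [Real.sq_sqrt (by positivity)]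
      simpa only [zero_add] using hw 0 k (by omega))
    (fun k hk => by
      rw [Real.sq_sqrt (by positivity)]
      refine le_trans (le_of_eq (Finset.sum_congr rfl fun i hi => ?_)) (hw (m - k) k (by omega))
      have := Finset.mem_range.1 hi
      rw [show m - k + i = m - (k - i) by omega, show m - k + (k - i) = m - i by omega,
        Nat.sub_sub_self (show k - i ≤ m by omega), Nat.sub_sub_self (show i ≤ m by omega)]
      ring)
  rw [hu, hv, cut_sum _ (show p ≤ m + 1 by omega), cut_sum _ (show q ≤ m + 1 by omega),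
    bc_sum] at key
  generalize m + 1 = n at key hn
  have hb := bc_sq_le n
  have hb0 := bc_pos n
  have e2 : h * (√(R / h) * (2 * n * bc n)) ≤ √(2 * R / Real.pi) := by
    refine Real.le_sqrt_of_sq_le ?_
    rw [mul_pow, mul_pow, Real.sq_sqrt (by positivity), le_div_iff₀ Real.pi_pos]
    have e3 : h ^ 2 * (R / h * (2 * n * bc n) ^ 2) * Real.pi =
        4 * R * ((n * h) * (Real.pi * (n * bc n ^ 2))) := by
      field_simp
      ring
    rw [e3, hn]
    nlinarith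
  have := mul_le_mul_of_nonneg_left key hh.le
  rw [mul_add] at this
  linarith

lemma lowerU_sup {f : ℝ → ℝ} (h0 : ∀ x, 0 ≤ f x) (hf : MemLp f 2 volume) {c : ℝ}
    (hc : c ∈ Icc (-1 / 4 : ℝ) (1 / 4)) (ha : AntitoneOn f (Ioo (-1 / 4) c))
    (hm : MonotoneOn f (Ioo c (1 / 4))) :
    Real.pi / 2 * (∫ x in (-1 / 4 : ℝ)..(1 / 4), f x) ^ 2 ≤
      ⨆ t : Icc (-1 / 2 : ℝ) (1 / 2), ∫ x, f x * f (t - x) := by
  have hb : BddAbove (range fun t : Icc (-1 / 2 : ℝ) (1 / 2) => ∫ x, f x * f (t - x)) :=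
    ⟨∫ x, f x ^ 2, by rintro _ ⟨t, rfl⟩; exact conv_le hf t⟩
  set M := ⨆ t : Icc (-1 / 2 : ℝ) (1 / 2), ∫ x, f x * f (t - x)
  have hM : ∀ t ∈ Icc (-1 / 2 : ℝ) (1 / 2), ∫ x, f x * f (t - x) ≤ M := fun t ht =>
    le_ciSup hb ⟨t, ht⟩
  have hM0 : 0 ≤ M := le_trans (integral_nonneg fun x => mul_nonneg (h0 _) (h0 _))
    (hM 0 ⟨by norm_num, by norm_num⟩)
  refine le_of_forall_pos_le_add fun η hη => ?_
  have h1 := lowerU h0 hf hc ha hm (R := M + η) (by linarith) fun t ht => by linarith [hM t ht]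
  have hI : 0 ≤ ∫ x in (-1 / 4 : ℝ)..(1 / 4), f x :=
    intervalIntegral.integral_nonneg (by norm_num) fun x _ => h0 x
  have hpi := Real.pi_pos
  have h2 := pow_le_pow_left₀ hI h1 2
  rw [Real.sq_sqrt (by positivity), le_div_iff₀ hpi] at h2
  linarith

lemma stq_eq (a : ℕ → ℝ) {n : ℕ} {h : ℝ} (hh : 0 < h) (hn : n * h = 1 / 2) {x : ℝ}
    (hx : x ∈ Ioo (-1 / 4 : ℝ) (1 / 4)) : Up.stq a n h x = a ⌊(x + 1 / 4) / h⌋₊ := by
  have h0 : 0 ≤ (x + 1 / 4) / h := div_nonneg (by linarith [hx.1]) hh.le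
  have hiff : ∀ k : ℕ, x ∈ Ico (-1 / 4 + k * h) (-1 / 4 + k * h + h) ↔
      ⌊(x + 1 / 4) / h⌋₊ = k := by
    intro k
    rw [Nat.floor_eq_iff h0, le_div_iff₀ hh, div_lt_iff₀ hh, mem_Ico]
    constructor <;> rintro ⟨h1, h2⟩ <;> constructor <;> linarith
  have hlt : ⌊(x + 1 / 4) / h⌋₊ < n := by
    rw [Nat.floor_lt h0, div_lt_iff₀ hh]
    linarith [hx.2]
  unfold Up.stq
  rw [Finset.sum_eq_single_of_mem _ (Finset.mem_range.2 hlt)]
  · exact indicator_of_mem ((hiff _).2 rfl) _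
  · intro k _ hk
    exact indicator_of_notMem (fun hmem => hk ((hiff k).1 hmem).symm) _

/-- Twelve steps with sum `283` and autoconvolution at most `5224` lie below `π / 2`. -/
lemma step_lt (a : ℕ → ℕ) (hS : ∑ k ∈ Finset.range 12, a k = 283)
    (hB : ∀ m, m < 2 * 12 → ∑ i ∈ Finset.range (m + 1), a i * a (m - i) ≤ 5224) :
    ∃ f : ℝ → ℝ, (∀ x, 0 ≤ f x) ∧ MemLp f 2 volume ∧
      (∀ r : ℕ → ℕ → Prop, (∀ i ≤ 11, ∀ j ≤ 11, i ≤ j → (i < 6 ↔ j < 6) → r (a i) (a j)) →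
        ∀ s, s = Ioo (-1 / 4 : ℝ) 0 ∨ s = Ioo (0 : ℝ) (1 / 4) → ∀ x ∈ s, ∀ y ∈ s, x ≤ y →
          ∃ i j : ℕ, f x = i ∧ f y = j ∧ r i j) ∧
      (⨆ t : Icc (-1 / 2 : ℝ) (1 / 2), ∫ x, f x * f (t - x)) <
        Real.pi / 2 * (∫ x in (-1 / 4 : ℝ)..(1 / 4), f x) ^ 2 := by
  have hh : (0 : ℝ) < 1 / 24 := by norm_num
  have hn : ((12 : ℕ) : ℝ) * (1 / 24) = 1 / 2 := by norm_num
  have h0 : ∀ k, (0 : ℝ) ≤ a k := fun k => Nat.cast_nonneg _
  refine ⟨Up.stq (fun k => a k) 12 (1 / 24), Up.stq_nonneg h0 _ _, Up.stq_memLp _ _ _,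
    fun r hr s hs x hx y hy hxy => ?_, ?_⟩
  · have h1 : ∀ z ∈ s, z ∈ Ioo (-1 / 4 : ℝ) (1 / 4) ∧ ⌊(z + 1 / 4) / (1 / 24)⌋₊ ≤ 11 ∧
        (⌊(z + 1 / 4) / (1 / 24)⌋₊ < 6 ↔ z < 0) := fun z hz => by
      have b : z ∈ Ioo (-1 / 4 : ℝ) (1 / 4) := by
        rcases hs with rfl | rfl <;> exact ⟨by linarith [hz.1], by linarith [hz.2]⟩
      have b0 : 0 ≤ (z + 1 / 4) / (1 / 24) := div_nonneg (by linarith [b.1]) hh.le
      refine ⟨b, Nat.lt_succ_iff.1 ?_, ?_⟩ <;> rw [Nat.floor_lt b0, div_lt_iff₀ hh] <;> push_cast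
      · linarith [b.2]
      · constructor <;> intro <;> linarith
    refine ⟨_, _, stq_eq _ hh hn (h1 x hx).1, stq_eq _ hh hn (h1 y hy).1,
      hr _ (h1 x hx).2.1 _ (h1 y hy).2.1 (Nat.floor_le_floor (by gcongr)) ?_⟩
    rw [(h1 x hx).2.2, (h1 y hy).2.2]
    rcases hs with rfl | rfl
    · exact iff_of_true hx.2 hy.2
    · exact iff_of_false hx.1.not_gt hy.1.not_gt
  · have : Nonempty (Icc (-1 / 2 : ℝ) (1 / 2)) := ⟨⟨0, by norm_num, by norm_num⟩⟩
    refine lt_of_le_of_lt (ciSup_le fun t => Up.stq_conv h0 12 hh (B := 5224) (by norm_num)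
      (fun m hm => by exact_mod_cast hB m hm) _) ?_
    rw [Up.stq_integral _ hh hn, ← Nat.cast_sum, hS]
    have := Real.pi_gt_d2
    push_cast
    linarith

lemma down_down : ∃ f : ℝ → ℝ, (∀ x, 0 ≤ f x) ∧ MemLp f 2 volume ∧
    AntitoneOn f (Ioo (-1 / 4) 0) ∧ AntitoneOn f (Ioo 0 (1 / 4)) ∧
    (⨆ t : Icc (-1 / 2 : ℝ) (1 / 2), ∫ x, f x * f (t - x)) <
      Real.pi / 2 * (∫ x in (-1 / 4 : ℝ)..(1 / 4), f x) ^ 2 := by
  obtain ⟨f, h1, h2, h3, h4⟩ := step_lt
    (fun k => [47, 17, 12, 9, 8, 7, 50, 34, 28, 26, 23, 22].getD k 0) (by decide) (by decide)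
  have := h3 (fun i j => j ≤ i) (by decide)
  refine ⟨f, h1, h2, fun x hx y hy h => ?_, fun x hx y hy h => ?_, h4⟩
  · obtain ⟨i, j, e1, e2, e3⟩ := this _ (Or.inl rfl) x hx y hy h
    rw [e1, e2]
    exact_mod_cast e3
  · obtain ⟨i, j, e1, e2, e3⟩ := this _ (Or.inr rfl) x hx y hy h
    rw [e1, e2]
    exact_mod_cast e3

lemma up_up : ∃ f : ℝ → ℝ, (∀ x, 0 ≤ f x) ∧ MemLp f 2 volume ∧
    MonotoneOn f (Ioo (-1 / 4) 0) ∧ MonotoneOn f (Ioo 0 (1 / 4)) ∧
    (⨆ t : Icc (-1 / 2 : ℝ) (1 / 2), ∫ x, f x * f (t - x)) <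
      Real.pi / 2 * (∫ x in (-1 / 4 : ℝ)..(1 / 4), f x) ^ 2 := by
  obtain ⟨f, h1, h2, h3, h4⟩ := step_lt
    (fun k => [22, 23, 26, 28, 34, 50, 7, 8, 9, 12, 17, 47].getD k 0) (by decide) (by decide)
  have := h3 (fun i j => i ≤ j) (by decide)
  refine ⟨f, h1, h2, fun x hx y hy h => ?_, fun x hx y hy h => ?_, h4⟩
  · obtain ⟨i, j, e1, e2, e3⟩ := this _ (Or.inl rfl) x hx y hy h
    rw [e1, e2]
    exact_mod_cast e3
  · obtain ⟨i, j, e1, e2, e3⟩ := this _ (Or.inr rfl) x hx y hy h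
    rw [e1, e2]
    exact_mod_cast e3

end Pool.Agent.Lib.MP_834949_an.Uni
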